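import Pool.Agent.W522.Mult.Param

/-!
# Generic injectivity of the multipliers of periods one and two
-/

set_option autoImplicit false

namespace Pool.Agent.W522.Mult

open Finset

/-- The core statement in all degrees at least two. -/
theorem core_all (m : ℕ) : ∃ H : MvPolynomial (Var (m + 2)) ℚ, H ≠ 0 ∧
    ∀ t : Var (m + 2) → ℂ, Function.Injective (xx t) → MvPolynomial.aeval t H ≠ 0 →
      ∀ x' : Fin (m + 2) → ℂ, CoreProp t x' := by
  rcases m with _ | m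
  · refine ⟨1, one_ne_zero, fun t ht _ x' hx' _ => ?_⟩
    have h1 : xx t 1 - xx t 0 ≠ 0 := sub_ne_zero.2 fun h => by
      have := ht h; simp at this
    have h2 : x' 1 - x' 0 ≠ 0 := sub_ne_zero.2 fun h => by
      have := hx' h; simp at this
    refine ⟨(x' 1 - x' 0) / (xx t 1 - xx t 0), x' 0 - (x' 1 - x' 0) / (xx t 1 - xx t 0) * xx t 0,
      div_ne_zero h2 h1, fun i => ?_⟩
    fin_cases i
    · change x' 0 = (x' 1 - x' 0) / (xx t 1 - xx t 0) * xx t 0 +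
        (x' 0 - (x' 1 - x' 0) / (xx t 1 - xx t 0) * xx t 0)
      ring
    · change x' 1 = (x' 1 - x' 0) / (xx t 1 - xx t 0) * xx t 1 +
        (x' 0 - (x' 1 - x' 0) / (xx t 1 - xx t 0) * xx t 0)
      have h3 : (x' 1 - x' 0) / (xx t 1 - xx t 0) * (xx t 1 - xx t 0) = x' 1 - x' 0 :=
        div_mul_cancel₀ _ h1
      linear_combination -h3
  · obtain ⟨H, hH, h⟩ := core m
    exact ⟨H, hH, fun t _ ht x' => h t ht x'⟩

/-- The polynomial detecting that infinity has period two or a pole. -/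
noncomputable def P1 (d : ℕ) : MvPolynomial (Var d) ℂ :=
  ∑ i : Fin (d + 1), MvPolynomial.X (Sum.inr i) *
    (MvPolynomial.X (Sum.inl (Fin.last d)) ^ (i : ℕ) *
      MvPolynomial.X (Sum.inr (Fin.last d)) ^ (d - (i : ℕ)))

theorem P1_ne_zero (d : ℕ) : P1 d ≠ 0 := by
  classical
  intro h
  let s : Var d → ℂ := fun v =>
    if v = Sum.inl (Fin.last d) then 1 else if v = Sum.inr (Fin.last d) then 1 else 0
  have h1 := congrArg (fun P => MvPolynomial.eval s P) h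
  simp only [P1, map_sum, map_mul, map_pow, MvPolynomial.eval_X, map_zero] at h1
  have e1 : s (Sum.inl (Fin.last d)) = 1 := by simp [s]
  have e2 : s (Sum.inr (Fin.last d)) = 1 := by simp [s]
  rw [Finset.sum_eq_single (Fin.last d)] at h1
  · rw [e1, e2] at h1
    simp at h1
  · intro i _ hi
    have : s (Sum.inr i) = 0 := by
      simp [s, hi]
    rw [this, zero_mul]
  · simp

theorem P1_eval {d : ℕ} {p q : Polynomial ℂ} (hq : q.natDegree ≤ d) (hl : q.coeff d ≠ 0)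
    (h : MvPolynomial.eval (Sum.elim (fun i : Fin (d + 1) => p.coeff i.val)
      (fun i : Fin (d + 1) => q.coeff i.val)) (P1 d) ≠ 0) :
    q.eval (p.coeff d / q.coeff d) ≠ 0 := by
  intro h0
  apply h
  simp only [P1, map_sum, map_mul, map_pow, MvPolynomial.eval_X, Sum.elim_inr, Sum.elim_inl,
    Fin.val_last]
  have h1 : (q.coeff d) ^ d * q.eval (p.coeff d / q.coeff d) = 0 := by rw [h0, mul_zero]
  rw [Polynomial.eval_eq_sum_range' (Nat.lt_succ_of_le hq), Finset.sum_range, Finset.mul_sum] at h1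
  rw [← h1]
  refine Finset.sum_congr rfl fun i _ => ?_
  have hi : (i : ℕ) ≤ d := Nat.lt_succ_iff.1 i.2
  rw [div_pow]
  have h2 : (q.coeff d) ^ d = (q.coeff d) ^ (i : ℕ) * (q.coeff d) ^ (d - (i : ℕ)) := by
    rw [← pow_add]; congr 1; omega
  rw [h2]
  field_simp

/-- The theorem in degree `m + 2`. -/
theorem main (m : ℕ) : ∃ P : MvPolynomial (Var (m + 2)) ℂ, P ≠ 0 ∧
    ∀ p₁ q₁ p₂ q₂ : Polynomial ℂ,
      IsCoprime p₁ q₁ → max p₁.natDegree q₁.natDegree = m + 2 →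
      IsCoprime p₂ q₂ → max p₂.natDegree q₂.natDegree = m + 2 →
      MvPolynomial.eval (Sum.elim (fun i : Fin (m + 2 + 1) => p₁.coeff i.val)
        (fun i : Fin (m + 2 + 1) => q₁.coeff i.val)) P ≠ 0 →
      MvPolynomial.eval (Sum.elim (fun i : Fin (m + 2 + 1) => p₂.coeff i.val)
        (fun i : Fin (m + 2 + 1) => q₂.coeff i.val)) P ≠ 0 →
      (∀ c : ℂ,
        Set.ncard {z : ℂ | q₁.eval z ≠ 0 ∧ p₁.eval z = z * q₁.eval z ∧ der p₁ q₁ z = c} =
        Set.ncard {z : ℂ | q₂.eval z ≠ 0 ∧ p₂.eval z = z * q₂.eval z ∧ der p₂ q₂ z = c}) →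
      (∀ c : ℂ,
        Set.ncard {z : ℂ | q₁.eval z ≠ 0 ∧ q₁.eval (p₁.eval z / q₁.eval z) ≠ 0 ∧
          p₁.eval (p₁.eval z / q₁.eval z) / q₁.eval (p₁.eval z / q₁.eval z) = z ∧
          p₁.eval z / q₁.eval z ≠ z ∧
          der p₁ q₁ z * der p₁ q₁ (p₁.eval z / q₁.eval z) = c} =
        Set.ncard {z : ℂ | q₂.eval z ≠ 0 ∧ q₂.eval (p₂.eval z / q₂.eval z) ≠ 0 ∧
          p₂.eval (p₂.eval z / q₂.eval z) / q₂.eval (p₂.eval z / q₂.eval z) = z ∧
          p₂.eval z / q₂.eval z ≠ z ∧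
          der p₂ q₂ z * der p₂ q₂ (p₂.eval z / q₂.eval z) = c}) →
      ∃ a b c e : ℂ, a * e - b * c ≠ 0 ∧
        ∀ z : ℂ, q₁.eval z ≠ 0 → c * z + e ≠ 0 →
          c * (p₁.eval z / q₁.eval z) + e ≠ 0 →
          q₂.eval ((a * z + b) / (c * z + e)) ≠ 0 →
          p₂.eval ((a * z + b) / (c * z + e)) / q₂.eval ((a * z + b) / (c * z + e))
            = (a * (p₁.eval z / q₁.eval z) + b) / (c * (p₁.eval z / q₁.eval z) + e) := by
  obtain ⟨H, hH, hcore⟩ := core_all m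
  obtain ⟨PH, hPH, hdet⟩ := exists_detect H hH
  obtain ⟨PD, hPD, hdisc⟩ := exists_disc m
  refine ⟨PH * PD * P1 (m + 2) * MvPolynomial.X (Sum.inr (Fin.last (m + 2))),
    mul_ne_zero (mul_ne_zero (mul_ne_zero hPH hPD) (P1_ne_zero _)) (MvPolynomial.X_ne_zero _), ?_⟩
  -- consequences of the nonvanishing
  have key : ∀ p q : Polynomial ℂ, IsCoprime p q → max p.natDegree q.natDegree = m + 2 →
      MvPolynomial.eval (Sum.elim (fun i : Fin (m + 2 + 1) => p.coeff i.val)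
        (fun i : Fin (m + 2 + 1) => q.coeff i.val))
        (PH * PD * P1 (m + 2) * MvPolynomial.X (Sum.inr (Fin.last (m + 2)))) ≠ 0 →
      (∃ x w, Fix (m + 2) p q x w) ∧ q.eval (p.coeff (m + 2) / q.coeff (m + 2)) ≠ 0 ∧
      MvPolynomial.eval (Sum.elim (fun i : Fin (m + 2 + 1) => p.coeff i.val)
        (fun i : Fin (m + 2 + 1) => q.coeff i.val)) PH ≠ 0 := by
    intro p q hc hmax hne
    rw [map_mul, map_mul, map_mul, MvPolynomial.eval_X] at hne
    have n4 := right_ne_zero_of_mul hne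
    have n3 := right_ne_zero_of_mul (left_ne_zero_of_mul hne)
    have n2 := right_ne_zero_of_mul (left_ne_zero_of_mul (left_ne_zero_of_mul hne))
    have n1 := left_ne_zero_of_mul (left_ne_zero_of_mul (left_ne_zero_of_mul hne))
    have hp : p.natDegree ≤ m + 2 := (le_max_left _ _).trans hmax.le
    have hq : q.natDegree ≤ m + 2 := (le_max_right _ _).trans hmax.le
    have hl : q.coeff (m + 2) ≠ 0 := by simpa using n4
    refine ⟨exists_fix hc hp hq hl ?_, P1_eval hq hl n3, n1⟩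
    rintro ⟨r, h1, h2⟩
    obtain ⟨s, hs⟩ := disc_param m (Nat.lt_succ_of_le hp) (Nat.lt_succ_of_le hq) h1 h2
    apply n2
    rw [← hs]
    exact hdisc s
  intro p₁ q₁ p₂ q₂ hc₁ hm₁ hc₂ hm₂ hP₁ hP₂ hfix htwo
  obtain ⟨⟨x, w, h₁⟩, _, hPH₁⟩ := key p₁ q₁ hc₁ hm₁ hP₁
  obtain ⟨⟨x₀, w₀, h₀⟩, hM₂, _⟩ := key p₂ q₂ hc₂ hm₂ hP₂
  obtain ⟨x', h₂⟩ := match_fix h₁ h₀ hfix
  obtain ⟨t, ht1, ht2, ht3⟩ := h₁.param
  have hxx : Function.Injective (xx t) := by rw [ht3]; exact nx_inj h₁.inj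
  have hH1 : MvPolynomial.aeval t H ≠ 0 := by
    apply hdet t
    rw [ht1]
    exact hPH₁
  have hCP := hcore t hxx hH1 (nx x')
  unfold CoreProp at hCP
  have hw : (fun k => eps t * cc t k) = fun i : Fin (m + 2) => w i.succ := funext ht2
  rw [hw, ht3] at hCP
  obtain ⟨α, β, hα, hαβ⟩ := hCP (nx_inj h₂.inj) fun z y hzy =>
    transfer h₁ h₂ hc₂ (by omega) ((le_max_left _ _).trans hm₂.le)
      ((le_max_right _ _).trans hm₂.le) hM₂ htwo hzy
  exact mobius h₁ h₂ hα hαβ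

end Pool.Agent.W522.Mult
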