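import Pool.Agent.W522.Mult.Generic

/-!
# Generic weights for the points `1, 2, 3, …`
-/

set_option autoImplicit false

namespace Pool.Agent.W522.Mult

open Finset MvPolynomial

/-- the limit points -/
def pts (n : ℕ) (i : Fin (n + 3)) : ℚ := (i : ℕ) + 1

lemma pts_inj (n : ℕ) : Function.Injective (pts n) := by
  intro i j h
  unfold pts at h
  have : ((i : ℕ) : ℚ) = (j : ℕ) := by linarith
  exact Fin.ext (by exact_mod_cast this)

lemma force01 (n : ℕ) (a : Fin (n + 3)) :
    force (ind {0, 1}) (pts n) a = 1 / ((a : ℕ) : ℚ) + 1 / (((a : ℕ) : ℚ) - 1) := by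
  rw [force_ind, sum_pair (by simp [Fin.ext_iff])]
  unfold pts
  simp

lemma forceval0 (n : ℕ) : force (ind {0, 1}) (pts n) 0 = -1 := by
  rw [force01]; norm_num

lemma forceval1 (n : ℕ) : force (ind {0, 1}) (pts n) 1 = 1 := by
  rw [force01]; norm_num

lemma forceval2 (n : ℕ) : force (ind {0, 1}) (pts n) 2 = 3 / 2 := by
  rw [force01]
  have : ((2 : Fin (n + 3)) : ℕ) = 2 := rfl
  rw [this]; norm_num

lemma forceval3 (n : ℕ) (l : Fin (n + 3)) (hl : 3 ≤ (l : ℕ)) :
    0 < force (ind {0, 1}) (pts n) l ∧ force (ind {0, 1}) (pts n) l ≤ 5 / 6 := by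
  rw [force01]
  have h : (3 : ℚ) ≤ (l : ℕ) := by exact_mod_cast hl
  have h1 : 1 / ((l : ℕ) : ℚ) ≤ 1 / 3 := one_div_le_one_div_of_le (by norm_num) h
  have h2 : 1 / (((l : ℕ) : ℚ) - 1) ≤ 1 / 2 := one_div_le_one_div_of_le (by norm_num) (by linarith)
  have h3 : 0 < 1 / ((l : ℕ) : ℚ) := by positivity
  have h4 : 0 < 1 / (((l : ℕ) : ℚ) - 1) := by
    apply one_div_pos.2; linarith
  constructor
  · linarith
  · linarith

lemma cases_fin (n : ℕ) (l : Fin (n + 3)) : l = 0 ∨ l = 1 ∨ l = 2 ∨ 3 ≤ (l : ℕ) := by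
  rcases l with ⟨l, hl⟩
  have h2 : ((2 : Fin (n + 3)) : ℕ) = 2 := rfl
  have h1 : ((1 : Fin (n + 3)) : ℕ) = 1 := rfl
  simp only [Fin.ext_iff, h1, h2, Fin.val_zero]
  omega

theorem exists_gen (n : ℕ) : ∃ c : Fin (n + 3) → ℚ, Gen c (pts n) 0 1 2 := by
  have h01 : (0 : Fin (n + 3)) ≠ 1 := by simp [Fin.ext_iff]
  have h02 : (0 : Fin (n + 3)) ≠ 2 := by
    have h2 : ((2 : Fin (n + 3)) : ℕ) = 2 := rfl
    rw [Ne, Fin.ext_iff, h2, Fin.val_zero]; omega
  have h12 : (1 : Fin (n + 3)) ≠ 2 := by
    have h2 : ((2 : Fin (n + 3)) : ℕ) = 2 := rfl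
    have h1 : ((1 : Fin (n + 3)) : ℕ) = 1 := rfl
    rw [Ne, Fin.ext_iff, h2, h1]; omega
  have p0 : pts n 0 = 1 := by unfold pts; simp
  have p1 : pts n 1 = 2 := by unfold pts; simp; norm_num
  have p2 : pts n 2 = 3 := by
    unfold pts
    have h2 : ((2 : Fin (n + 3)) : ℕ) = 2 := rfl
    rw [h2]; norm_num
  refine exists_gen_of (pts n) (pts_inj n) 0 1 2 ?_ ?_ ⟨0⟩
  · apply ne_zero_of_eval (ind {0, 1})
    simp only [map_sub, map_mul, eval_C, eval_pF, forceval0, forceval1, forceval2, p0, p1, p2]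
    norm_num
  · apply ne_zero_of_eval (ind {0, 1})
    have e0 : ∀ l ∈ univ.erase (0 : Fin (n + 3)),
        force (ind {0, 1}) (pts n) 0 - force (ind {0, 1}) (pts n) l ≠ 0 := by
      intro l hl
      have hl' := (mem_erase.1 hl).1
      rw [forceval0]
      rcases cases_fin n l with rfl | rfl | rfl | h
      · exact absurd rfl hl'
      · rw [forceval1]; norm_num
      · rw [forceval2]; norm_num
      · have := (forceval3 n l h).1
        intro h0; linarith
    have e2 : ∀ l ∈ univ.erase (2 : Fin (n + 3)),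
        force (ind {0, 1}) (pts n) 2 - force (ind {0, 1}) (pts n) l ≠ 0 := by
      intro l hl
      have hl' := (mem_erase.1 hl).1
      rw [forceval2]
      rcases cases_fin n l with rfl | rfl | rfl | h
      · rw [forceval0]; norm_num
      · rw [forceval1]; norm_num
      · exact absurd rfl hl'
      · have := (forceval3 n l h).2
        intro h0; linarith
    rw [eval_pSwap _ _ _ _ e0 e2]
    refine mul_ne_zero (mul_ne_zero (prod_ne_zero_iff.2 e0) (prod_ne_zero_iff.2 e2)) ?_
    have s2 : ∑ l ∈ univ.erase (2 : Fin (n + 3)), ind {0, 1} l /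
        (force (ind {0, 1}) (pts n) 2 - force (ind {0, 1}) (pts n) l) = 12 / 5 := by
      have : ∀ l, ind {0, 1} l / (force (ind {0, 1}) (pts n) 2 - force (ind {0, 1}) (pts n) l) =
          ind {0, 1} l * (1 / (force (ind {0, 1}) (pts n) 2 - force (ind {0, 1}) (pts n) l)) :=
        fun l => by ring
      simp only [this]
      rw [sum_ind]
      have hs : univ.erase (2 : Fin (n + 3)) ∩ {0, 1} = {0, 1} := by
        ext i
        simp only [mem_inter, mem_erase, mem_univ, and_true, mem_insert, mem_singleton]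
        constructor
        · exact fun h => h.2
        · rintro (rfl | rfl)
          · exact ⟨h02, Or.inl rfl⟩
          · exact ⟨h12, Or.inr rfl⟩
      rw [hs, sum_pair h01, forceval0, forceval1, forceval2]
      norm_num
    have s0 : ∑ l ∈ univ.erase (0 : Fin (n + 3)), ind {0, 1} l /
        (force (ind {0, 1}) (pts n) 0 - force (ind {0, 1}) (pts n) l) = -1 / 2 := by
      have : ∀ l, ind {0, 1} l / (force (ind {0, 1}) (pts n) 0 - force (ind {0, 1}) (pts n) l) =
          ind {0, 1} l * (1 / (force (ind {0, 1}) (pts n) 0 - force (ind {0, 1}) (pts n) l)) :=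
        fun l => by ring
      simp only [this]
      rw [sum_ind]
      have hs : univ.erase (0 : Fin (n + 3)) ∩ {0, 1} = {1} := by
        ext i
        simp only [mem_inter, mem_erase, mem_univ, and_true, mem_insert, mem_singleton]
        constructor
        · rintro ⟨h1, rfl | rfl⟩
          · exact absurd rfl h1
          · rfl
        · rintro rfl
          exact ⟨h01.symm, Or.inr rfl⟩
      rw [hs, sum_singleton, forceval0, forceval1]
      norm_num
    rw [s0, s2, p0, p2]
    norm_num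

end Pool.Agent.W522.Mult
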