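import Pool.Agent.W522.Mult.Ultra
import Pool.Agent.W522.Mult.Generic2

/-!
# The core theorem over the complex numbers
-/

set_option autoImplicit false

namespace Pool.Agent.W522.Mult

open Filter

/-- index type of the parameters (and of the coefficients) for maps of degree `d` -/
abbrev Var (d : ℕ) : Type := Fin (d + 1) ⊕ Fin (d + 1)

section param

variable {R : Type*} [CommRing R] {K : Type*} [Field K] {d : ℕ} [NeZero d]

/-- the small parameter -/
def eps (t : Var d → R) : R := t (Sum.inl 1)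

/-- the weights -/
def cc (t : Var d → R) (i : Fin d) : R := if i = 0 then 1 else t (Sum.inl i.succ)

/-- the finite fixed points in the normalised coordinate -/
def xx (t : Var d → K) (i : Fin d) : K := (t (Sum.inr i.succ) - t (Sum.inr 0))⁻¹

end param

/-- The statement for one configuration: if the multipliers of another configuration with the same
weights occur, the configurations are affinely equivalent. -/
def CoreProp {K : Type*} [Field K] {d : ℕ} [NeZero d] (t : Var d → K) (x' : Fin d → K) : Prop :=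
  Function.Injective x' →
    (∀ z y, IsCycle (fun k => eps t * cc t k) x' z y →
      ∃ z' y', IsCycle (fun k => eps t * cc t k) (xx t) z' y' ∧
        mult (fun k => eps t * cc t k) (xx t) z' y' = mult (fun k => eps t * cc t k) x' z y) →
    ∃ α β : K, α ≠ 0 ∧ ∀ i, x' i = α * xx t i + β

/-- The core statement for algebraically independent parameters. -/
theorem core_alg {K : Type*} [Field K] [CharZero K] [IsAlgClosed K] (n : ℕ)
    (t : Var (n + 3) → K) (ht : AlgebraicIndependent ℚ t) (x' : Fin (n + 3) → K) :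
    CoreProp t x' := by
  intro hinj H
  obtain ⟨c0, hc0⟩ := exists_gen n
  have h00 := hc0.c0 0
  -- the centre of the place
  let t0 : Var (n + 3) → ℚ := Sum.elim
    (fun j => if j = 0 then 1 else if j = 1 then 0 else
      (if h : (j : ℕ) - 1 < n + 3 then c0 ⟨(j : ℕ) - 1, h⟩ / c0 0 else 0))
    (fun j => if j = 0 then 0 else ((j : ℕ) : ℚ)⁻¹)
  obtain ⟨O, hO, hcen⟩ := exists_place t ht t0
  have hchar : ∀ m : ℕ, m ≠ 0 → O.valuation (m : K) = 1 := by
    intro m hm
    have := val_rat hO (q := (m : ℚ)) (by exact_mod_cast hm)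
    simpa using this
  -- values of the centre
  have e1 : t0 (Sum.inl 1) = 0 := by
    simp [t0]
  have e2 : ∀ i : Fin (n + 3), i ≠ 0 → t0 (Sum.inl i.succ) = c0 i / c0 0 := by
    intro i hi
    have h1 : (i.succ : Fin (n + 3 + 1)) ≠ 0 := Fin.succ_ne_zero i
    have h2 : (i.succ : Fin (n + 3 + 1)) ≠ 1 := by
      intro h
      apply hi
      rw [Fin.ext_iff] at h ⊢
      simpa using h
    have h3 : ((i.succ : Fin (n + 3 + 1)) : ℕ) - 1 = (i : ℕ) := by simp
    simp only [t0, Sum.elim_inl, if_neg h1, if_neg h2]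
    rw [dif_pos (by rw [h3]; exact i.2)]
    congr 2
  have e3 : t0 (Sum.inr 0) = 0 := by simp [t0]
  have e4 : ∀ i : Fin (n + 3), t0 (Sum.inr i.succ) = (pts n i)⁻¹ := by
    intro i
    have h1 : (i.succ : Fin (n + 3 + 1)) ≠ 0 := Fin.succ_ne_zero i
    simp only [t0, Sum.elim_inr, if_neg h1, pts]
    congr 1
    simp
  have hε0 : eps t ≠ 0 := by
    intro h
    have h1 : MvPolynomial.aeval t (MvPolynomial.X (Sum.inl 1) : MvPolynomial (Var (n + 3)) ℚ) = 0 := by
      rw [MvPolynomial.aeval_X]; exact h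
    exact MvPolynomial.X_ne_zero _ ((algebraicIndependent_iff.1 ht) _ h1)
  have hε : O.valuation (eps t) < 1 := by
    have := hcen (Sum.inl 1)
    rw [e1] at this
    simpa [eps] using this
  have hc00 : O.valuation ((c0 0 : ℚ) : K) = 1 := val_rat hO h00
  have hc00' : ((c0 0 : ℚ) : K) ≠ 0 := by exact_mod_cast h00
  set ε : K := eps t / (c0 0 : ℚ) with hεdef
  set c : Fin (n + 3) → K := fun i => (c0 0 : ℚ) * cc t i with hcdef
  have hw : (fun k => eps t * cc t k) = fun k => ε * c k := by
    funext k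
    rw [hεdef, hcdef]; simp only; field_simp
  have hcr : ∀ i, O.valuation (c i - (c0 i : ℚ)) < 1 := by
    intro i
    rw [hcdef]; simp only
    unfold cc
    split_ifs with hi
    · rw [hi, mul_one, sub_self, map_zero]; exact zero_lt_one
    · have h1 := hcen (Sum.inl i.succ)
      rw [e2 i hi] at h1
      have h2 : ((c0 0 : ℚ) : K) * t (Sum.inl i.succ) - (c0 i : ℚ) =
          ((c0 0 : ℚ) : K) * (t (Sum.inl i.succ) - ((c0 i / c0 0 : ℚ) : K)) := by
        push_cast
        field_simp
      rw [h2, map_mul, hc00, one_mul]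
      exact h1
  have hc1 := fun i => (rs_eq_rat hO (hcr i)).1
  have hc2 := fun i => (rs_eq_rat hO (hcr i)).2
  have hcv : ∀ i, O.valuation (c i) = 1 := by
    intro i
    refine le_antisymm (hc1 i) (not_lt.1 fun h => ?_)
    have h1 := rs_eq_zero h
    rw [hc2 i] at h1
    exact (hc0.c0 i) ((map_eq_zero _).1 h1)
  have hX0 : O.valuation (t (Sum.inr 0)) < 1 := by
    have := hcen (Sum.inr 0)
    rw [e3] at this
    simpa using this
  have hXr : ∀ i : Fin (n + 3), O.valuation ((t (Sum.inr i.succ) - t (Sum.inr 0)) -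
      (((pts n i)⁻¹ : ℚ) : K)) < 1 := by
    intro i
    have h1 := hcen (Sum.inr i.succ)
    rw [e4 i] at h1
    have h2 : (t (Sum.inr i.succ) - t (Sum.inr 0)) - (((pts n i)⁻¹ : ℚ) : K) =
      (t (Sum.inr i.succ) - (((pts n i)⁻¹ : ℚ) : K)) - t (Sum.inr 0) := by ring
    rw [h2]
    exact O.valuation.map_sub_lt h1 hX0
  have hp0 : ∀ i, pts n i ≠ 0 := by
    intro i; unfold pts; positivity
  have hXv : ∀ i : Fin (n + 3), O.valuation (t (Sum.inr i.succ) - t (Sum.inr 0)) = 1 := by
    intro i
    obtain ⟨h1, h2⟩ := rs_eq_rat hO (hXr i)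
    refine le_antisymm h1 (not_lt.1 fun h => ?_)
    have h3 := rs_eq_zero h
    rw [h2] at h3
    exact (inv_ne_zero (hp0 i)) ((map_eq_zero _).1 h3)
  have hxr : ∀ i, rs O (xx t i) = ratRes hO (pts n i) := by
    intro i
    unfold xx
    rw [rs_inv (hXv i), (rs_eq_rat hO (hXr i)).2, map_inv₀, inv_inv]
  have hxv : ∀ i, O.valuation (xx t i) ≤ 1 := by
    intro i
    unfold xx
    rw [map_inv₀, hXv i, inv_one]
  have gen : Gen (fun k => rs O (c k)) (fun k => rs O (xx t k)) (0 : Fin (n + 3)) 1 2 := by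
    have h1 : (fun k => rs O (c k)) = fun k => ratRes hO (c0 k) := funext hc2
    have h2 : (fun k => rs O (xx t k)) = fun k => ratRes hO (pts n k) := funext hxr
    rw [h1, h2]
    exact hc0.map (ratRes hO)
  have h01 : (1 : Fin (n + 3)) ≠ 0 := by simp
  have h02 : (2 : Fin (n + 3)) ≠ 0 := by
    have h2 : ((2 : Fin (n + 3)) : ℕ) = 2 := rfl
    rw [Ne, Fin.ext_iff, h2, Fin.val_zero]; omega
  have hε' : O.valuation ε < 1 := by
    rw [hεdef, map_div₀, hc00, div_one]; exact hε
  rw [hw] at H
  exact val_core O h01 h02 hchar (div_ne_zero hε0 hc00') hε' hcv hxv gen hinj H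

/-- The core theorem. -/
theorem core (n : ℕ) : ∃ H : MvPolynomial (Var (n + 3)) ℚ, H ≠ 0 ∧
    ∀ t : Var (n + 3) → ℂ, MvPolynomial.aeval t H ≠ 0 → ∀ x' : Fin (n + 3) → ℂ, CoreProp t x' := by
  classical
  by_contra hcon
  push Not at hcon
  let P := {H : MvPolynomial (Var (n + 3)) ℚ // H ≠ 0}
  have h1 : ∀ S : Finset P, ∃ t : Var (n + 3) → ℂ, ∃ x' : Fin (n + 3) → ℂ,
      (∀ H ∈ S, MvPolynomial.aeval t H.1 ≠ 0) ∧ ¬ CoreProp t x' := by
    intro S
    obtain ⟨t, ht, x', hx'⟩ := hcon (∏ H ∈ S, H.1) (Finset.prod_ne_zero_iff.2 fun H _ => H.2)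
    refine ⟨t, x', fun H hH h0 => ht ?_, hx'⟩
    rw [map_prod]
    exact Finset.prod_eq_zero hH h0
  choose t x' ht hx' using h1
  let φ : Ultrafilter (Finset P) := Ultrafilter.of atTop
  have hφ : ∀ H : P, ∀ᶠ S in (φ : Filter (Finset P)), H ∈ S := by
    intro H
    apply Ultrafilter.of_le atTop
    filter_upwards [eventually_ge_atTop {H}] with S hS
    exact hS (Finset.mem_singleton_self H)
  let T : Var (n + 3) → Finset P → ℂ := fun i S => t S i
  let X' : Fin (n + 3) → Finset P → ℂ := fun i S => x' S i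
  have hT : AlgebraicIndependent ℚ (fun i => pr φ (T i)) := by
    rw [algebraicIndependent_iff]
    intro p hp
    by_contra hp0
    rw [pr_aeval, ← pr_zero, pr_eq_iff] at hp
    obtain ⟨S, hS1, hS2⟩ := (hp.and (hφ ⟨p, hp0⟩)).exists
    exact ht S ⟨p, hp0⟩ hS2 hS1
  have main := core_alg n (fun i => pr φ (T i)) hT (fun i => pr φ (X' i))
  -- the data of the ultrapower
  have hw : (fun k => eps (fun i => pr φ (T i)) * cc (fun i => pr φ (T i)) k) =
      fun k => pr φ (fun S => eps (t S) * cc (t S) k) := by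
    funext k
    unfold eps cc
    split_ifs with hk
    · simp only [mul_one]
      rfl
    · rw [← pr_mul]
  have hxx : xx (fun i => pr φ (T i)) = fun k => pr φ (fun S => xx (t S) k) := by
    funext k
    unfold xx
    rw [pr_inv, pr_sub]
  unfold CoreProp at main
  rw [hw, hxx] at main
  -- what fails in the complex numbers
  have hbad : ∀ S, Function.Injective (x' S) ∧
      (∀ z y, IsCycle (fun k => eps (t S) * cc (t S) k) (x' S) z y →
      ∃ z' y', IsCycle (fun k => eps (t S) * cc (t S) k) (xx (t S)) z' y' ∧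
        mult (fun k => eps (t S) * cc (t S) k) (xx (t S)) z' y' =
          mult (fun k => eps (t S) * cc (t S) k) (x' S) z y) ∧
      ¬ ∃ α β : ℂ, α ≠ 0 ∧ ∀ i, x' S i = α * xx (t S) i + β := by
    intro S
    have := hx' S
    unfold CoreProp at this
    rw [Classical.not_imp, Classical.not_imp] at this
    exact this
  have hinj : Function.Injective fun i => pr φ (X' i) := by
    intro i j hij
    by_contra hne
    have h2 := pr_eq_iff.1 hij
    obtain ⟨S, hS⟩ := h2.exists
    exact hne ((hbad S).1 hS)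
  have hcyc : ∀ z y, IsCycle (fun k => pr φ (fun S => eps (t S) * cc (t S) k))
      (fun i => pr φ (X' i)) z y →
      ∃ z' y', IsCycle (fun k => pr φ (fun S => eps (t S) * cc (t S) k))
        (fun k => pr φ (fun S => xx (t S) k)) z' y' ∧
        mult (fun k => pr φ (fun S => eps (t S) * cc (t S) k))
          (fun k => pr φ (fun S => xx (t S) k)) z' y' =
        mult (fun k => pr φ (fun S => eps (t S) * cc (t S) k)) (fun i => pr φ (X' i)) z y := by
    intro z y hzy
    obtain ⟨z, rfl⟩ := pr_surj z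
    obtain ⟨y, rfl⟩ := pr_surj y
    have h2 := (pr_isCycle (fun k S => eps (t S) * cc (t S) k) X' z y).1 hzy
    have h3 : ∀ S, ∃ q : ℂ × ℂ, IsCycle (fun k => eps (t S) * cc (t S) k) (x' S) (z S) (y S) →
        IsCycle (fun k => eps (t S) * cc (t S) k) (xx (t S)) q.1 q.2 ∧
        mult (fun k => eps (t S) * cc (t S) k) (xx (t S)) q.1 q.2 =
          mult (fun k => eps (t S) * cc (t S) k) (x' S) (z S) (y S) := by
      intro S
      by_cases h : IsCycle (fun k => eps (t S) * cc (t S) k) (x' S) (z S) (y S)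
      · obtain ⟨z', y', h4, h5⟩ := (hbad S).2.1 _ _ h
        exact ⟨(z', y'), fun _ => ⟨h4, h5⟩⟩
      · exact ⟨(0, 0), fun h' => absurd h' h⟩
    choose q hq using h3
    refine ⟨pr φ (fun S => (q S).1), pr φ (fun S => (q S).2), ?_, ?_⟩
    · rw [pr_isCycle (fun k S => eps (t S) * cc (t S) k) (fun k S => xx (t S) k)]
      filter_upwards [h2] with S hS
      exact (hq S hS).1
    · rw [pr_mult (fun k S => eps (t S) * cc (t S) k) (fun k S => xx (t S) k),
        pr_mult (fun k S => eps (t S) * cc (t S) k) X', pr_eq_iff]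
      filter_upwards [h2] with S hS
      exact (hq S hS).2
  obtain ⟨α, β, hα, hαβ⟩ := main hinj hcyc
  obtain ⟨α, rfl⟩ := pr_surj α
  obtain ⟨β, rfl⟩ := pr_surj β
  have h2 : ∀ᶠ S in (φ : Filter (Finset P)), α S ≠ 0 := by
    rw [← pr_zero] at hα; exact pr_ne_iff.1 hα
  have h3 : ∀ᶠ S in (φ : Filter (Finset P)), ∀ i, x' S i = α S * xx (t S) i + β S := by
    rw [Filter.eventually_all]
    intro i
    have := hαβ i
    rw [← pr_mul, ← pr_add, pr_eq_iff] at this
    exact this
  obtain ⟨S, hS1, hS2⟩ := (h2.and h3).exists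
  exact (hbad S).2.2 ⟨α S, β S, hS1, hS2⟩

end Pool.Agent.W522.Mult
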