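import Mathlib

/-!
# Definitions: cycles of period two of `z ↦ z - 1 / ∑ w i / (z - x i)`
-/

set_option autoImplicit false

namespace Pool.Agent.W522.Mult

open Finset

variable {K : Type*} [Field K] {ι : Type*} [Fintype ι]

/-- `F_a = ∑_{k ≠ a} c_k / (x_a - x_k)` (the summand with `k = a` is `c_a / 0 = 0`). -/
def force (c x : ι → K) (a : ι) : K := ∑ k, c k / (x a - x k)

/-- `T_{ab} = (x_a - x_b) (F_a - F_b)`. -/
def T (c x : ι → K) (a b : ι) : K := (x a - x b) * (force c x a - force c x b)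

/-- `(z, y)` is a cycle of period two of `z ↦ z - 1 / ∑ w i / (z - x i)`. -/
def IsCycle (w x : ι → K) (z y : K) : Prop :=
  (∀ i, z ≠ x i) ∧ (∀ i, y ≠ x i) ∧ (∑ i, w i / (z - x i)) * (z - y) = 1 ∧
    (∑ i, w i / (y - x i)) * (y - z) = 1

/-- One factor of the multiplier. -/
def side (w x : ι → K) (z y : K) : K := 1 - (z - y) ^ 2 * ∑ i, w i / (z - x i) ^ 2

/-- The multiplier of the cycle `(z, y)`. -/
def mult (w x : ι → K) (z y : K) : K := side w x z y * side w x y z

end Pool.Agent.W522.Mult
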