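import Mathlib

/-!
# Two consequences of dimension theory for polynomial maps
-/

set_option autoImplicit false

namespace Pool.Agent.W522.Mult

open MvPolynomial Cardinal

variable {k : Type} [Field k]

/-- Polynomials in fewer variables satisfy a relation. -/
theorem exists_relation {V W : Type} [Fintype V] [Fintype W]
    (hcard : Fintype.card W < Fintype.card V) (Φ : V → MvPolynomial W k) :
    ∃ P : MvPolynomial V k, P ≠ 0 ∧ aeval Φ P = 0 := by
  by_contra hcon
  push Not at hcon
  have h1 : AlgebraicIndependent k Φ := by
    rw [algebraicIndependent_iff]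
    intro p hp
    by_contra h0
    exact hcon p h0 hp
  have h2 := h1.cardinalMk_le_trdeg
  rw [MvPolynomial.trdeg_of_isDomain, Cardinal.lift_id, Cardinal.mk_fintype, Cardinal.mk_fintype] at h2
  exact absurd (by exact_mod_cast h2) (not_le.2 hcard)

/-- For a polynomial map between affine spaces of the same dimension, a hypersurface is mapped
into a hypersurface. -/
theorem exists_dvd {V : Type} [Fintype V] (Ψ : V → MvPolynomial V k) (H : MvPolynomial V k)
    (hH : H ≠ 0) : ∃ P : MvPolynomial V k, P ≠ 0 ∧ H ∣ aeval Ψ P := by
  by_cases hind : AlgebraicIndependent k Ψ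
  · have h1 : ¬ AlgebraicIndependent k (fun o : Option V => o.elim H Ψ) := by
      intro h
      have h2 := h.cardinalMk_le_trdeg
      rw [MvPolynomial.trdeg_of_isDomain, Cardinal.lift_id, Cardinal.mk_fintype,
        Cardinal.mk_fintype, Fintype.card_option] at h2
      have h3 : Fintype.card V + 1 ≤ Fintype.card V := by exact_mod_cast h2
      omega
    rw [hind.option_iff_transcendental] at h1
    have h4 : IsAlgebraic (Algebra.adjoin k (Set.range Ψ)) H := by
      by_contra h
      exact h1 h
    obtain ⟨r, hr, hdvd⟩ := h4.exists_nonzero_dvd (mem_nonZeroDivisors_of_ne_zero hH)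
    have h5 : (r : MvPolynomial V k) ∈ (aeval Ψ : MvPolynomial V k →ₐ[k] MvPolynomial V k).range := by
      rw [← Algebra.adjoin_range_eq_range_aeval]
      exact r.2
    obtain ⟨P, hP⟩ := h5
    refine ⟨P, ?_, ?_⟩
    · rintro rfl
      rw [map_zero] at hP
      exact hr (Subtype.ext hP.symm)
    · have h6 : (aeval Ψ) P = (r : MvPolynomial V k) := hP
      rw [h6]; exact hdvd
  · rw [algebraicIndependent_iff] at hind
    push Not at hind
    obtain ⟨P, hP, hP0⟩ := hind
    exact ⟨P, hP0, by rw [hP]; exact dvd_zero _⟩

end Pool.Agent.W522.Mult
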