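import Pool.Agent.W522.Mult.Locate

/-!
# Existence of cycles near pairs of points
-/

set_option autoImplicit false

namespace Pool.Agent.W522.Mult

open Finset Polynomial

variable {K : Type*} [Field K] {ι : Type*} [Fintype ι] [DecidableEq ι]
variable {Γ₀ : Type*} [LinearOrderedCommGroupWithZero Γ₀] (v : Valuation K Γ₀)

/-- A polynomial over an algebraically closed valued field which is small at `u₀` and not small at
`u₁` (both integral) has a root near `u₀`. -/
theorem root_lift [IsAlgClosed K] (h : K[X]) {u₀ u₁ : K} (h0 : v u₀ ≤ 1) (h1 : v u₁ ≤ 1)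
    (hs : v (h.eval u₀) < 1) (hb : 1 ≤ v (h.eval u₁)) : ∃ r, h.eval r = 0 ∧ v (r - u₀) < 1 := by
  by_contra hcon
  push Not at hcon
  have hne : h ≠ 0 := by
    rintro rfl
    rw [eval_zero, map_zero] at hb
    exact absurd hb (not_le.2 zero_lt_one)
  have hsp := IsAlgClosed.splits h
  have heval : ∀ t, h.eval t = h.leadingCoeff * (h.roots.map fun r => t - r).prod := by
    intro t
    conv_lhs => rw [hsp.eq_prod_roots]
    rw [eval_mul, eval_C, eval_multiset_prod, Multiset.map_map]
    congr 2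
    refine Multiset.map_congr rfl fun r _ => ?_
    simp
  have hle : v (h.eval u₁) ≤ v (h.eval u₀) := by
    rw [heval, heval, map_mul, map_mul]
    refine mul_le_mul' le_rfl ?_
    rw [map_multiset_prod, map_multiset_prod, Multiset.map_map, Multiset.map_map]
    have : ∀ s : Multiset K, (∀ r ∈ s, 1 ≤ v (r - u₀)) →
        (s.map (v ∘ fun r => u₁ - r)).prod ≤ (s.map (v ∘ fun r => u₀ - r)).prod := by
      intro s
      induction s using Multiset.induction_on with
      | empty => intro _; simp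
      | cons r s ih =>
        intro hr
        rw [Multiset.map_cons, Multiset.map_cons, Multiset.prod_cons, Multiset.prod_cons]
        refine mul_le_mul' ?_ (ih fun r' hr' => hr r' (Multiset.mem_cons_of_mem hr'))
        have e1 := hr r (Multiset.mem_cons_self r s)
        have e2 : v (u₁ - r) ≤ max (v (u₁ - u₀)) (v (u₀ - r)) := by
          have : u₁ - r = (u₁ - u₀) + (u₀ - r) := by ring
          rw [this]; exact v.map_add _ _
        have e3 : v (u₁ - u₀) ≤ v (u₀ - r) :=
          (v_sub v h1 h0).trans (by rw [v.map_sub_swap]; exact e1)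
        exact e2.trans (max_le e3 le_rfl)
    exact this _ fun r hr => hcon r (isRoot_of_mem_roots hr)
  exact absurd (hb.trans hle) (not_le.2 hs)

lemma sum_prod_erase (S : Finset ι) (α g : ι → K) (hg : ∀ k ∈ S, g k ≠ 0) :
    ∑ k ∈ S, α k * ∏ l ∈ S.erase k, g l = (∏ l ∈ S, g l) * ∑ k ∈ S, α k / g k := by
  rw [mul_sum]
  refine sum_congr rfl fun k hk => ?_
  rw [← mul_prod_erase S g hk]
  have := hg k hk
  field_simp

lemma exists_nat_unit {κ : Type*} (S : Finset κ) (p q : κ → K) (hp : ∀ k ∈ S, v (p k) = 1)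
    (hchar : ∀ n : ℕ, n ≠ 0 → v (n : K) = 1) :
    ∃ n : ℕ, n ≠ 0 ∧ ∀ k ∈ S, 1 ≤ v (p k + q k * n) := by
  classical
  have hfin : (⋃ k ∈ S, {n : ℕ | v (p k + q k * n) < 1}).Finite := by
    refine Set.Finite.biUnion S.finite_toSet fun k hk => Set.Subsingleton.finite ?_
    intro n hn m hm
    by_contra hnm
    have hn : v (p k + q k * n) < 1 := hn
    have hm : v (p k + q k * m) < 1 := hm
    wlog hlt : m < n generalizing n m
    · exact this hm hn (Ne.symm hnm) hm hn (lt_of_le_of_ne (not_lt.1 hlt) hnm)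
    obtain ⟨j, rfl⟩ := Nat.exists_eq_add_of_lt hlt
    have e1 : v (q k * ((j + 1 : ℕ) : K)) < 1 := by
      have : q k * ((j + 1 : ℕ) : K) = (p k + q k * ((m + j + 1 : ℕ) : K)) - (p k + q k * m) := by
        push_cast; ring
      rw [this]
      exact v.map_sub_lt hn hm
    rw [map_mul, hchar _ (Nat.succ_ne_zero j), mul_one] at e1
    have e2 : v (q k * (m : K)) < 1 := by
      rw [map_mul]
      rcases Nat.eq_zero_or_pos m with rfl | hm0
      · simp
      · rw [hchar m hm0.ne', mul_one]; exact e1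
    have e3 : v (p k) < 1 := by
      have : p k = (p k + q k * m) - q k * m := by ring
      rw [this]
      exact v.map_sub_lt hm e2
    exact absurd (hp k hk) e3.ne
  obtain ⟨n, hn⟩ := ((hfin.union (Set.finite_singleton 0)).infinite_compl).nonempty
  rw [Set.mem_compl_iff, Set.mem_union, not_or] at hn
  refine ⟨n, by simpa using hn.2, fun k hk => ?_⟩
  by_contra hcon
  exact hn.1 (Set.mem_biUnion hk (not_le.1 hcon))

theorem exists_cycle [IsAlgClosed K] {c x : ι → K} {a b : ι} (hab : a ≠ b)
    (hc : ∀ k, v (c k) = 1) (hxa : ∀ k, k ≠ a → 1 ≤ v (x a - x k))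
    (hxb : ∀ k, k ≠ b → 1 ≤ v (x b - x k)) (hD : v (x a - x b) ≤ 1) {ε : K} (hε0 : ε ≠ 0)
    (hε : v ε < 1) (hchar : ∀ n : ℕ, n ≠ 0 → v (n : K) = 1) :
    ∃ u w, v u ≤ 1 ∧ v w ≤ 1 ∧ IsCycle (fun k => ε * c k) x (x a + ε * u) (x b + ε * w) := by
  classical
  have hD1 : v (x a - x b) = 1 := le_antisymm hD (hxa b hab.symm)
  set D := x a - x b with hDdef
  have hj : ∀ k, k ≠ a → v (x a - x k)⁻¹ ≤ 1 := fun k hk => v_inv v (hxa k hk)
  have hj' : ∀ k, k ≠ b → v (x b - x k)⁻¹ ≤ 1 := fun k hk => v_inv v (hxb k hk)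
  have hxa0 : ∀ k, k ≠ a → x a - x k ≠ 0 := by
    intro k hk h0
    have := hxa k hk
    rw [h0, map_zero] at this
    exact absurd this (not_le.2 zero_lt_one)
  have hxb0 : ∀ k, k ≠ b → x b - x k ≠ 0 := by
    intro k hk h0
    have := hxb k hk
    rw [h0, map_zero] at this
    exact absurd this (not_le.2 zero_lt_one)
  have hc0 : ∀ k, c k ≠ 0 := by
    intro k h0
    have := hc k
    rw [h0, map_zero] at this
    exact zero_ne_one this
  -- polynomials
  let g : ι → K[X] := fun k => 1 + C (ε * (x a - x k)⁻¹) * X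
  let pL : K[X] := ∏ k ∈ univ.erase a, g k
  let pN : K[X] := ∑ k ∈ univ.erase a, C (c k * (x a - x k)⁻¹) * ∏ l ∈ (univ.erase a).erase k, g l
  let pT : K[X] := C (c a) * pL + C ε * X * pN
  let pB : K[X] := (C D + C ε * X) * pT - X * pL
  let g' : ι → K[X] := fun k => pT + C (x b - x k)⁻¹ * pB
  let pP : K[X] := ∏ k ∈ univ.erase b, g' k
  let pQ : K[X] := ∑ k ∈ univ.erase b, C (c k * (x b - x k)⁻¹) *
    ∏ l ∈ (univ.erase b).erase k, g' l
  let h : K[X] := pB * pP + C ε * X * pL * (C (c b) * pP + pB * pQ)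
  -- values
  have hg : ∀ u, v u ≤ 1 → ∀ k ∈ univ.erase a, v ((g k).eval u) = 1 := by
    intro u hu k hk
    have hk' := (mem_erase.1 hk).1
    have e1 : (g k).eval u = 1 + ε * (x a - x k)⁻¹ * u := by simp [g]
    rw [e1, v.map_add_eq_of_lt_left, map_one]
    rw [map_one, mul_assoc, map_mul]
    exact lt_of_le_of_lt (mul_le_of_le_one_right' (v_mul v (hj k hk') hu)) hε
  have hne : ∀ t : K, v t = 1 → t ≠ 0 := by
    rintro t ht rfl
    rw [map_zero] at ht
    exact zero_ne_one ht
  have hLeval : ∀ u, pL.eval u = ∏ k ∈ univ.erase a, (g k).eval u := by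
    intro u; exact eval_prod _ _ _
  have hL1 : ∀ u, v u ≤ 1 → v (pL.eval u) = 1 := by
    intro u hu
    rw [hLeval, map_prod]
    exact prod_eq_one fun k hk => hg u hu k hk
  have heu : ∀ u, v u ≤ 1 → v (ε * u) < 1 := by
    intro u hu
    rw [map_mul]
    exact lt_of_le_of_lt (mul_le_of_le_one_right' hu) hε
  have hNeval : ∀ u, v u ≤ 1 → pN.eval u = pL.eval u * sS c x a (x a + ε * u) := by
    intro u hu
    have e1 : pN.eval u = ∑ k ∈ univ.erase a, (c k * (x a - x k)⁻¹) *
        ∏ l ∈ (univ.erase a).erase k, (g l).eval u := by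
      simp only [pN, eval_finsetSum, eval_mul, eval_C, eval_prod]
    rw [e1, sum_prod_erase _ _ _ fun k hk => hne _ (hg u hu k hk), hLeval, sS]
    congr 1
    refine sum_congr rfl fun k hk => ?_
    have hk' := (mem_erase.1 hk).1
    have e2 : (g k).eval u = 1 + ε * (x a - x k)⁻¹ * u := by simp [g]
    have e3 : x a + ε * u - x k = (x a - x k) * (g k).eval u := by
      rw [e2]
      have := hxa0 k hk'
      field_simp
      ring
    rw [e3, mul_inv, div_eq_mul_inv, mul_assoc]
  have hTeval : ∀ u, v u ≤ 1 → pT.eval u =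
      pL.eval u * (c a + ε * u * sS c x a (x a + ε * u)) := by
    intro u hu
    have : pT.eval u = c a * pL.eval u + ε * u * pN.eval u := by simp [pT]
    rw [this, hNeval u hu]; ring
  have hθ : ∀ u, v u ≤ 1 → v (c a + ε * u * sS c x a (x a + ε * u)) = 1 := by
    intro u hu
    rw [v.map_add_eq_of_lt_left, hc a]
    rw [hc a, map_mul]
    exact lt_of_le_of_lt (mul_le_of_le_one_right'
      (sS_le v (fun k => (hc k).le) hxa (heu u hu))) (heu u hu)
  have hBeval : ∀ u, v u ≤ 1 → pB.eval u = pL.eval u *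
      ((D + ε * u) * (c a + ε * u * sS c x a (x a + ε * u)) - u) := by
    intro u hu
    have : pB.eval u = (D + ε * u) * pT.eval u - u * pL.eval u := by simp [pB]
    rw [this, hTeval u hu]; ring
  have hβ : ∀ u, v u ≤ 1 → v (((D + ε * u) * (c a + ε * u * sS c x a (x a + ε * u)) - u) -
      (c a * D - u)) < 1 := by
    intro u hu
    have e1 : ((D + ε * u) * (c a + ε * u * sS c x a (x a + ε * u)) - u) - (c a * D - u) =
      (ε * u) * ((c a + ε * u * sS c x a (x a + ε * u)) + D * sS c x a (x a + ε * u)) := by ring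
    rw [e1, map_mul]
    exact lt_of_le_of_lt (mul_le_of_le_one_right' (v_add v (hθ u hu).le (v_mul v hD
      (sS_le v (fun k => (hc k).le) hxa (heu u hu))))) (heu u hu)
  have hg'eval : ∀ u k, (g' k).eval u = pT.eval u + (x b - x k)⁻¹ * pB.eval u := by
    intro u k; simp [g']
  have hPeval : ∀ u, pP.eval u = ∏ k ∈ univ.erase b, (g' k).eval u := by
    intro u; exact eval_prod _ _ _
  -- factored form
  have hheval : ∀ u, v u ≤ 1 → (∀ k ∈ univ.erase b, (g' k).eval u ≠ 0) → h.eval u =
      pP.eval u * (pB.eval u + ε * u * pL.eval u * (c b + pB.eval u *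
        ∑ k ∈ univ.erase b, (c k * (x b - x k)⁻¹) / (g' k).eval u)) := by
    intro u hu hg0
    have e1 : pQ.eval u = pP.eval u *
        ∑ k ∈ univ.erase b, (c k * (x b - x k)⁻¹) / (g' k).eval u := by
      rw [hPeval, ← sum_prod_erase _ _ _ hg0]
      simp only [pQ, eval_finsetSum, eval_mul, eval_C, eval_prod]
    have e2 : h.eval u = pB.eval u * pP.eval u + ε * u * pL.eval u *
        (c b * pP.eval u + pB.eval u * pQ.eval u) := by simp [h]
    rw [e2, e1]; ring
  have hsum : ∀ u, v u ≤ 1 → (∀ k ∈ univ.erase b, 1 ≤ v ((g' k).eval u)) →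
      v (ε * u * pL.eval u * (c b + pB.eval u *
        ∑ k ∈ univ.erase b, (c k * (x b - x k)⁻¹) / (g' k).eval u)) < 1 := by
    intro u hu hg1
    rw [map_mul]
    refine lt_of_le_of_lt (mul_le_of_le_one_right' (v_add v (hc b).le (v_mul v ?_ ?_))) ?_
    · rw [hBeval u hu]
      refine v_mul v (hL1 u hu).le ?_
      exact v_sub v (v_mul v (v_add v hD (heu u hu).le) (hθ u hu).le) hu
    · refine v.map_sum_le fun k hk => ?_
      rw [div_eq_mul_inv]
      exact v_mul v (v_mul v (hc k).le (hj' k (mem_erase.1 hk).1)) (v_inv v (hg1 k hk))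
    · rw [map_mul, hL1 u hu, mul_one]; exact heu u hu
  -- the starting point
  have hu0 : v (c a * D) ≤ 1 := v_mul v (hc a).le hD
  have near0 : ∀ u, v u ≤ 1 → v (u - c a * D) < 1 →
      v ((D + ε * u) * (c a + ε * u * sS c x a (x a + ε * u)) - u) < 1 := by
    intro u hu hlt
    have e1 := hβ u hu
    have e2 : (D + ε * u) * (c a + ε * u * sS c x a (x a + ε * u)) - u =
      (((D + ε * u) * (c a + ε * u * sS c x a (x a + ε * u)) - u) - (c a * D - u)) -
        (u - c a * D) := by ring
    rw [e2]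
    exact v.map_sub_lt e1 hlt
  have nearg : ∀ u, v u ≤ 1 → v (u - c a * D) < 1 → ∀ k ∈ univ.erase b, v ((g' k).eval u) = 1 := by
    intro u hu hlt k hk
    rw [hg'eval, hTeval u hu, hBeval u hu, v.map_add_eq_of_lt_left]
    · rw [map_mul, hL1 u hu, hθ u hu, mul_one]
    · rw [map_mul, map_mul, map_mul, hL1 u hu, hθ u hu, one_mul, mul_one]
      exact lt_of_le_of_lt (mul_le_of_le_one_left' (hj' k (mem_erase.1 hk).1)) (near0 u hu hlt)
  have hsm : v (h.eval (c a * D)) < 1 := by
    have hlt : v (c a * D - c a * D) < 1 := by simp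
    have hg1 := nearg _ hu0 hlt
    rw [hheval _ hu0 fun k hk => hne _ (hg1 k hk), map_mul]
    have e1 : v (pP.eval (c a * D)) = 1 := by
      rw [hPeval, map_prod]
      exact prod_eq_one fun k hk => hg1 k hk
    rw [e1, one_mul]
    refine v.map_add_lt ?_ (hsum _ hu0 fun k hk => (hg1 k hk).ge)
    rw [hBeval _ hu0, map_mul, hL1 _ hu0, one_mul]
    exact near0 _ hu0 hlt
  -- a point where `h` is a unit
  obtain ⟨n, hn0, hn⟩ := exists_nat_unit v (univ.erase b) (fun _ => c a) (fun k => (x b - x k)⁻¹)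
    (fun k _ => hc a) hchar
  have hu1 : v (c a * D - n) ≤ 1 := v_sub v hu0 (hchar n hn0).le
  have hβ1 : v (((D + ε * (c a * D - n)) * (c a + ε * (c a * D - n) *
      sS c x a (x a + ε * (c a * D - n))) - (c a * D - n)) - n) < 1 := by
    have := hβ _ hu1
    rwa [sub_sub_cancel] at this
  have hβ2 : v ((D + ε * (c a * D - n)) * (c a + ε * (c a * D - n) *
      sS c x a (x a + ε * (c a * D - n))) - (c a * D - n)) = 1 := by
    have e1 : (D + ε * (c a * D - n)) * (c a + ε * (c a * D - n) *
      sS c x a (x a + ε * (c a * D - n))) - (c a * D - n) = n + (((D + ε * (c a * D - n)) *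
      (c a + ε * (c a * D - n) * sS c x a (x a + ε * (c a * D - n))) - (c a * D - n)) - n) := by
      ring
    rw [e1, v.map_add_eq_of_lt_left, hchar n hn0]
    rw [hchar n hn0]; exact hβ1
  have hg1 : ∀ k ∈ univ.erase b, v ((g' k).eval (c a * D - n)) = 1 := by
    intro k hk
    rw [hg'eval, hTeval _ hu1, hBeval _ hu1]
    set β := (D + ε * (c a * D - n)) * (c a + ε * (c a * D - n) *
      sS c x a (x a + ε * (c a * D - n))) - (c a * D - n) with hβdef
    set s := sS c x a (x a + ε * (c a * D - n)) with hsdef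
    have e1 : pL.eval (c a * D - n) * (c a + ε * (c a * D - n) * s) + (x b - x k)⁻¹ *
        (pL.eval (c a * D - n) * β) = pL.eval (c a * D - n) *
        ((c a + (x b - x k)⁻¹ * n) + (ε * (c a * D - n) * s + (x b - x k)⁻¹ * (β - n))) := by
      ring
    have e2 : v (ε * (c a * D - n) * s + (x b - x k)⁻¹ * (β - n)) < 1 := by
      refine v.map_add_lt ?_ ?_
      · rw [map_mul]
        exact lt_of_le_of_lt (mul_le_of_le_one_right'
          (sS_le v (fun k => (hc k).le) hxa (heu _ hu1))) (heu _ hu1)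
      · rw [map_mul]
        exact lt_of_le_of_lt (mul_le_of_le_one_left' (hj' k (mem_erase.1 hk).1)) hβ1
    rw [e1, map_mul, hL1 _ hu1, one_mul, v.map_add_eq_of_lt_left (e2.trans_le (hn k hk))]
    exact le_antisymm (v_add v (hc a).le (v_mul v (hj' k (mem_erase.1 hk).1) (hchar n hn0).le))
      (hn k hk)
  have hbg : 1 ≤ v (h.eval (c a * D - n)) := by
    rw [hheval _ hu1 fun k hk => hne _ (hg1 k hk), map_mul]
    have e1 : v (pP.eval (c a * D - n)) = 1 := by
      rw [hPeval, map_prod]
      exact prod_eq_one fun k hk => hg1 k hk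
    rw [e1, one_mul, v.map_add_eq_of_lt_left]
    · rw [hBeval _ hu1, map_mul, hL1 _ hu1, one_mul, hβ2]
    · have e2 : v (pB.eval (c a * D - n)) = 1 := by
        rw [hBeval _ hu1, map_mul, hL1 _ hu1, one_mul, hβ2]
      rw [e2]
      exact hsum _ hu1 fun k hk => (hg1 k hk).ge
  obtain ⟨u, hu, hnear⟩ := root_lift v h hu0 hu1 hsm hbg
  have hu1' : v u ≤ 1 := by
    have : u = (u - c a * D) + c a * D := by ring
    rw [this]; exact v_add v hnear.le hu0
  have hvu : v u = 1 := by
    have : u = c a * D + (u - c a * D) := by ring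
    rw [this, v.map_add_eq_of_lt_left, map_mul, hc a, hD1, one_mul]
    rw [map_mul, hc a, hD1, one_mul]; exact hnear
  have hgu := nearg u hu1' hnear
  rw [hheval _ hu1' fun k hk => hne _ (hgu k hk)] at hu
  have hPu : pP.eval u ≠ 0 := by
    rw [hPeval]
    exact prod_ne_zero_iff.2 fun k hk => hne _ (hgu k hk)
  have hu2 := (mul_eq_zero.1 hu).resolve_left hPu
  have hL0 : pL.eval u ≠ 0 := hne _ (hL1 u hu1')
  set s := sS c x a (x a + ε * u) with hsdef
  set θ := c a + ε * u * s with hθdef
  set β := (D + ε * u) * θ - u with hβdef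
  have hβlt : v β < 1 := near0 u hu1' hnear
  have hθ1 : v θ = 1 := hθ u hu1'
  have hθ0 : θ ≠ 0 := hne _ hθ1
  have hgk : ∀ k ∈ univ.erase b, (g' k).eval u = pL.eval u * (θ + (x b - x k)⁻¹ * β) := by
    intro k hk
    rw [hg'eval, hTeval u hu1', hBeval u hu1']; ring
  have hgk0 : ∀ k ∈ univ.erase b, θ + (x b - x k)⁻¹ * β ≠ 0 := by
    intro k hk h0
    have := hgk k hk
    rw [h0, mul_zero] at this
    exact hne _ (hgu k hk) this
  rw [hBeval u hu1'] at hu2
  have e5 : ∑ k ∈ univ.erase b, (c k * (x b - x k)⁻¹) / (g' k).eval u =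
      (pL.eval u)⁻¹ * ∑ k ∈ univ.erase b, c k * (x b - x k)⁻¹ / (θ + (x b - x k)⁻¹ * β) := by
    rw [mul_sum]
    refine sum_congr rfl fun k hk => ?_
    rw [hgk k hk, div_eq_mul_inv, mul_inv, div_eq_mul_inv]; ring
  rw [e5] at hu2
  set σ := ∑ k ∈ univ.erase b, c k * (x b - x k)⁻¹ / (θ + (x b - x k)⁻¹ * β) with hσ
  have hu3 : β + ε * u * (c b + β * σ) = 0 := by
    have : pL.eval u * (β + ε * u * (c b + β * σ)) = 0 := by
      have hh : pL.eval u * (pL.eval u)⁻¹ = 1 := mul_inv_cancel₀ hL0
      linear_combination hu2 - (ε * u * pL.eval u * β * σ) * hh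
    exact (mul_eq_zero.1 this).resolve_left hL0
  have hσ1 : v σ ≤ 1 := by
    refine v.map_sum_le fun k hk => ?_
    rw [div_eq_mul_inv]
    refine v_mul v (v_mul v (hc k).le (hj' k (mem_erase.1 hk).1)) (v_inv v ?_)
    have := hgu k hk
    rw [hgk k hk, map_mul, hL1 u hu1', one_mul] at this
    exact this.ge
  have hβ0 : β ≠ 0 := by
    intro h0
    rw [h0, zero_mul, add_zero, zero_add] at hu3
    rcases mul_eq_zero.1 hu3 with h1 | h1
    · rcases mul_eq_zero.1 h1 with h2 | h2
      · exact hε0 h2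
      · exact hne _ hvu h2
    · exact hc0 b h1
  -- the second point
  have hyb : x a + ε * u - u / θ = x b + β / θ := by
    have : x a = D + x b := by rw [hDdef]; ring
    rw [this, hβdef]
    field_simp
    ring
  have hw : β / θ = ε * (-(u * (c b + β * σ)) / θ) := by
    field_simp
    linear_combination hu3
  refine ⟨u, -(u * (c b + β * σ)) / θ, hu1', ?_, ?_⟩
  · rw [div_eq_mul_inv]
    refine v_mul v ?_ (v_inv v hθ1.ge)
    rw [v.map_neg]
    exact v_mul v hu1' (v_add v (hc b).le (v_mul v hβlt.le hσ1))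
  rw [← hw]
  have hz : ∀ i, x a + ε * u ≠ x i := by
    intro i hi
    by_cases hia : i = a
    · subst hia
      have : ε * u = 0 := by linear_combination hi
      rcases mul_eq_zero.1 this with h2 | h2
      · exact hε0 h2
      · exact hne _ hvu h2
    · have e1 := far v hxa (heu u hu1') i hia
      rw [hi, sub_self, map_zero] at e1
      have := hxa i hia
      rw [← e1] at this
      exact absurd this (not_le.2 zero_lt_one)
  have hvβθ : v (β / θ) < 1 := by rw [map_div₀, hθ1, div_one]; exact hβlt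
  have hy : ∀ i, x b + β / θ ≠ x i := by
    intro i hi
    by_cases hib : i = b
    · subst hib
      have : β / θ = 0 := by linear_combination hi
      rcases div_eq_zero_iff.1 this with h2 | h2
      · exact hβ0 h2
      · exact hθ0 h2
    · have e1 := far v hxb hvβθ i hib
      rw [hi, sub_self, map_zero] at e1
      have := hxb i hib
      rw [← e1] at this
      exact absurd this (not_le.2 zero_lt_one)
  have hA : x a + ε * u - (x b + β / θ) = u / θ := by rw [← hyb]; ring
  have hu0' : u ≠ 0 := hne _ hvu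
  refine ⟨hz, hy, ?_, ?_⟩
  · rw [sum_div_eq c x a, hA]
    have e1 : x a + ε * u - x a = ε * u := by ring
    rw [e1, ← hsdef]
    have : ε * (c a / (ε * u) + s) = θ / u := by
      rw [hθdef]; field_simp
    rw [this]
    field_simp
  · rw [sum_div_eq c x b]
    have e1 : x b + β / θ - x b = β / θ := by ring
    have e2 : x b + β / θ - (x a + ε * u) = -(u / θ) := by rw [← hA]; ring
    have e3 : sS c x b (x b + β / θ) = θ * σ := by
      rw [hσ, sS, mul_sum]
      refine sum_congr rfl fun k hk => ?_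
      have hk' := (mem_erase.1 hk).1
      have h1 := hxb0 k hk'
      have h2 := hgk0 k hk
      have h3 : x b + β / θ - x k = (x b - x k) * (θ + (x b - x k)⁻¹ * β) / θ := by
        field_simp
        ring
      rw [h3, inv_div]
      set t := θ + (x b - x k)⁻¹ * β with ht
      clear_value t
      field_simp
    rw [e1, e2, e3]
    field_simp
    linear_combination (-1) * hu3

end Pool.Agent.W522.Mult
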