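import Pool.Agent.W522.Mult.Side

/-!
# First order expansion of the multiplier, with valuations
-/

set_option autoImplicit false

namespace Pool.Agent.W522.Mult

open Finset

variable {K : Type*} [Field K] {ι : Type*} [Fintype ι] [DecidableEq ι]
variable {Γ₀ : Type*} [LinearOrderedCommGroupWithZero Γ₀] (v : Valuation K Γ₀)

lemma v_add {a b : K} {g : Γ₀} (ha : v a ≤ g) (hb : v b ≤ g) : v (a + b) ≤ g :=
  v.map_add_le ha hb

lemma v_sub {a b : K} {g : Γ₀} (ha : v a ≤ g) (hb : v b ≤ g) : v (a - b) ≤ g :=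
  v.map_sub_le ha hb

lemma v_mul {a b : K} (ha : v a ≤ 1) (hb : v b ≤ 1) : v (a * b) ≤ 1 := by
  rw [map_mul]; exact mul_le_one' ha hb

lemma v_mul_le {a b : K} {g : Γ₀} (ha : v a ≤ g) (hb : v b ≤ 1) : v (a * b) ≤ g := by
  rw [map_mul]
  calc v a * v b ≤ g * 1 := mul_le_mul' ha hb
    _ = g := mul_one g

lemma v_mul_le' {a b : K} {g : Γ₀} (ha : v a ≤ 1) (hb : v b ≤ g) : v (a * b) ≤ g := by
  rw [mul_comm]; exact v_mul_le v hb ha

lemma v_pow {a : K} (ha : v a ≤ 1) (n : ℕ) : v (a ^ n) ≤ 1 := by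
  rw [map_pow]; exact pow_le_one' ha n

lemma v_inv {a : K} (ha : 1 ≤ v a) : v a⁻¹ ≤ 1 := by
  rw [map_inv₀]; exact inv_le_one_of_one_le₀ ha

lemma v_two : v (2 : K) ≤ 1 := by
  have h : (2 : K) = 1 + 1 := by norm_num
  rw [h]; exact v_add v (by simp) (by simp)

/-- adding something smaller does not change the valuation -/
lemma v_add_small {a e : K} (h : v e < v a) : v (a + e) = v a := by
  exact v.map_add_eq_of_lt_left h

lemma far {x : ι → K} {a : ι} (hx : ∀ k, k ≠ a → 1 ≤ v (x a - x k)) {e : K} (he : v e < 1)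
    (k : ι) (hk : k ≠ a) : v (x a + e - x k) = v (x a - x k) := by
  have : x a + e - x k = (x a - x k) + e := by ring
  rw [this]
  exact v_add_small v (he.trans_le (hx k hk))

lemma sS_le {c x : ι → K} {a : ι} (hc : ∀ k, v (c k) ≤ 1)
    (hx : ∀ k, k ≠ a → 1 ≤ v (x a - x k)) {e : K} (he : v e < 1) :
    v (sS c x a (x a + e)) ≤ 1 := by
  refine v.map_sum_le fun k hk => v_mul v (hc k) (v_inv v ?_)
  rw [far v hx he k (mem_erase.1 hk).1]
  exact hx k (mem_erase.1 hk).1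

lemma sT_le {c x : ι → K} {a : ι} (hc : ∀ k, v (c k) ≤ 1)
    (hx : ∀ k, k ≠ a → 1 ≤ v (x a - x k)) {e : K} (he : v e < 1) :
    v (sT c x a (x a + e)) ≤ 1 := by
  refine v.map_sum_le fun k hk => v_mul v (hc k) (v_pow v (v_inv v ?_) 2)
  rw [far v hx he k (mem_erase.1 hk).1]
  exact hx k (mem_erase.1 hk).1

lemma sM_le {c x : ι → K} {a : ι} (hc : ∀ k, v (c k) ≤ 1)
    (hx : ∀ k, k ≠ a → 1 ≤ v (x a - x k)) {e : K} (he : v e < 1) :
    v (sM c x a (x a + e)) ≤ 1 := by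
  refine v.map_sum_le fun k hk => v_mul v (v_mul v (hc k) (v_inv v ?_)) (v_inv v ?_)
  · rw [far v hx he k (mem_erase.1 hk).1]
    exact hx k (mem_erase.1 hk).1
  · exact hx k (mem_erase.1 hk).1

lemma force_le {c x : ι → K} {a : ι} (hc : ∀ k, v (c k) ≤ 1)
    (hx : ∀ k, k ≠ a → 1 ≤ v (x a - x k)) : v (force c x a) ≤ 1 := by
  rw [force_eq]
  exact v.map_sum_le fun k hk => v_mul v (hc k) (v_inv v (hx k (mem_erase.1 hk).1))

lemma rem_le {c x : ι → K} {a : ι} (hc : ∀ k, v (c k) ≤ 1)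
    (hx : ∀ k, k ≠ a → 1 ≤ v (x a - x k)) {ε u w D : K} (hε : v ε < 1) (hu : v u ≤ 1)
    (hw : v w ≤ 1) (hD : v D ≤ 1) : v (rem c x a ε u w D) ≤ 1 := by
  have he : v (ε * u) < 1 := by
    rw [map_mul]
    calc v ε * v u ≤ v ε * 1 := mul_le_mul' le_rfl hu
      _ = v ε := mul_one _
      _ < 1 := hε
  have h1 := sS_le v hc hx he
  have h2 := sT_le v hc hx he
  have h3 := sM_le v hc hx he
  unfold rem
  refine v_add v (v_sub v (v_mul v (v_pow v (v_add v hD (v_mul v hε.le (v_sub v hu hw))) 2)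
    (v_add v (v_pow v h1 2) (v_mul v (hc a) h2))) ?_) ?_
  · exact v_mul v (v_mul v (v_two v) (v_sub v hu hw)) h1
  · exact v_mul v (v_mul v (v_mul v (v_two v) hD) hu) h3

/-- total remainder -/
def remT (c x : ι → K) (a b : ι) (ε u w : K) : K :=
  rem c x a ε u w (x a - x b) + rem c x b ε w u (x b - x a) +
    (c a + 2 * (x a - x b) * force c x a) * (c b + 2 * (x b - x a) * force c x b) -
    ε * ((c a + 2 * (x a - x b) * force c x a) * rem c x b ε w u (x b - x a) +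
      (c b + 2 * (x b - x a) * force c x b) * rem c x a ε u w (x a - x b)) +
    ε ^ 2 * (rem c x a ε u w (x a - x b) * rem c x b ε w u (x b - x a))

/-- First order expansion of the multiplier of the cycle `(x_a + ε u, x_b + ε w)`. -/
lemma mult_expand (c x : ι → K) (a b : ι) {ε u w : K} (hε : ε ≠ 0) (hu : u ≠ 0) (hw : w ≠ 0)
    (h1 : ∀ k, k ≠ a → x a - x k ≠ 0) (h2 : ∀ k, k ≠ a → x a + ε * u - x k ≠ 0)
    (h3 : ∀ k, k ≠ b → x b - x k ≠ 0) (h4 : ∀ k, k ≠ b → x b + ε * w - x k ≠ 0)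
    (h : IsCycle (fun k => ε * c k) x (x a + ε * u) (x b + ε * w)) :
    c a * c b * (ε ^ 2 * mult (fun k => ε * c k) x (x a + ε * u) (x b + ε * w)) =
      1 - ε * (c a + c b + 2 * T c x a b) + ε ^ 2 * remT c x a b ε u w := by
  have e1 := side_expand c x a hε hu h1 h2 h.2.2.1
  have e2 := side_expand c x b hε hw h3 h4 h.2.2.2
  have e3 : c a * c b * (ε ^ 2 * mult (fun k => ε * c k) x (x a + ε * u) (x b + ε * w)) =
    (-(c a) * (ε * side (fun k => ε * c k) x (x a + ε * u) (x b + ε * w))) *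
    (-(c b) * (ε * side (fun k => ε * c k) x (x b + ε * w) (x a + ε * u))) := by
    unfold mult; ring
  rw [e3, e1, e2]
  unfold remT T
  ring

lemma remT_le {c x : ι → K} {a b : ι} (hc : ∀ k, v (c k) ≤ 1)
    (hxa : ∀ k, k ≠ a → 1 ≤ v (x a - x k)) (hxb : ∀ k, k ≠ b → 1 ≤ v (x b - x k))
    (hab : v (x a - x b) ≤ 1) {ε u w : K} (hε : v ε < 1) (hu : v u ≤ 1)
    (hw : v w ≤ 1) : v (remT c x a b ε u w) ≤ 1 := by
  have hba : v (x b - x a) ≤ 1 := by rw [← v.map_neg]; simpa using hab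
  have r1 := rem_le v hc hxa hε hu hw hab
  have r2 := rem_le v hc hxb hε hw hu hba
  have f1 : v (c a + 2 * (x a - x b) * force c x a) ≤ 1 :=
    v_add v (hc a) (v_mul v (v_mul v (v_two v) hab) (force_le v hc hxa))
  have f2 : v (c b + 2 * (x b - x a) * force c x b) ≤ 1 :=
    v_add v (hc b) (v_mul v (v_mul v (v_two v) hba) (force_le v hc hxb))
  unfold remT
  exact v_add v (v_sub v (v_add v (v_add v r1 r2) (v_mul v f1 f2))
    (v_mul v hε.le (v_add v (v_mul v f1 r2) (v_mul v f2 r1))))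
    (v_mul v (v_pow v hε.le 2) (v_mul v r1 r2))

end Pool.Agent.W522.Mult
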