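import Pool.Agent.W522.Mult.Lagr
import Pool.Agent.W522.Mult.Defs

/-!
# Fixed points, cycles of period two and multipliers of rational maps
-/

set_option autoImplicit false

namespace Pool.Agent.W522.Mult

open Polynomial Finset

section gen

variable {K : Type*} [Field K] {m : ℕ}

theorem num_gen (x v : Fin m → K) :
    X * qpol x v - ppol x v = C (∑ j, v j) * Nod x := by
  unfold qpol ppol
  rw [Finset.mul_sum, ← Finset.sum_sub_distrib, map_sum, Finset.sum_mul]
  refine Finset.sum_congr rfl fun j _ => ?_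
  rw [← mul_NN x j, C_mul]
  ring

theorem Nod_eval_ne {x : Fin m → K} {z : K} (hz : ∀ j, z ≠ x j) : (Nod x).eval z ≠ 0 := by
  unfold Nod
  rw [eval_prod]
  refine Finset.prod_ne_zero_iff.2 fun j _ => ?_
  simp only [eval_sub, eval_X, eval_C]
  exact sub_ne_zero.2 (hz j)

theorem Nod_eval_self (x : Fin m → K) (j : Fin m) : (Nod x).eval (x j) = 0 := by
  rw [← mul_NN x j]; simp

theorem NN_eval {x : Fin m → K} {z : K} (hz : ∀ j, z ≠ x j) (j : Fin m) :
    (NN x j).eval z = (Nod x).eval z / (z - x j) := by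
  rw [← mul_NN x j]
  have := sub_ne_zero.2 (hz j)
  simp only [eval_mul, eval_sub, eval_X, eval_C]
  field_simp

theorem Nod_der (x : Fin m → K) (j : Fin m) (z : K) :
    (derivative (Nod x)).eval z = (NN x j).eval z + (z - x j) * (derivative (NN x j)).eval z := by
  rw [← mul_NN x j, derivative_mul]
  simp

theorem NN_der_eval {x : Fin m → K} {z : K} (hz : ∀ j, z ≠ x j) (j : Fin m) :
    (derivative (NN x j)).eval z = (derivative (Nod x)).eval z / (z - x j) -
      (Nod x).eval z / (z - x j) ^ 2 := by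
  have h1 := sub_ne_zero.2 (hz j)
  rw [Nod_der x j, NN_eval hz j]
  field_simp
  ring

theorem qpol_eval_out {x : Fin m → K} (v : Fin m → K) {z : K} (hz : ∀ j, z ≠ x j) :
    (qpol x v).eval z = (Nod x).eval z * ∑ j, v j / (z - x j) := by
  unfold qpol
  rw [eval_finsetSum, Finset.mul_sum]
  refine Finset.sum_congr rfl fun j _ => ?_
  rw [eval_mul, eval_C, NN_eval hz j]
  ring

theorem qpol_der_eval_out {x : Fin m → K} (v : Fin m → K) {z : K} (hz : ∀ j, z ≠ x j) :
    (derivative (qpol x v)).eval z = (derivative (Nod x)).eval z * ∑ j, v j / (z - x j) -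
      (Nod x).eval z * ∑ j, v j / (z - x j) ^ 2 := by
  unfold qpol
  rw [derivative_sum, eval_finsetSum, Finset.mul_sum, Finset.mul_sum, ← Finset.sum_sub_distrib]
  refine Finset.sum_congr rfl fun j _ => ?_
  rw [derivative_C_mul, eval_mul, eval_C, NN_der_eval hz j]
  ring

end gen

/-- the derivative of `p / q` -/
noncomputable def der (p q : ℂ[X]) (z : ℂ) : ℂ :=
  ((derivative p).eval z * q.eval z - p.eval z * (derivative q).eval z) / (q.eval z) ^ 2

variable {d : ℕ} {p q : ℂ[X]} {x w : Fin (d + 1) → ℂ}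

theorem Fix.num (h : Fix d p q x w) : X * q - p = C (q.coeff d) * Nod x := by
  have h1 := num_gen x (fun j => q.coeff d * w j)
  rw [← h.hq, ← h.hp, ← Finset.mul_sum, h.sum, mul_one] at h1
  exact h1

theorem Fix.num_eval (h : Fix d p q x w) (z : ℂ) :
    z * q.eval z - p.eval z = q.coeff d * (Nod x).eval z := by
  have h1 := congrArg (fun P => P.eval z) h.num
  simpa using h1

theorem Fix.num_der (h : Fix d p q x w) (z : ℂ) :
    q.eval z + z * (derivative q).eval z - (derivative p).eval z =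
      q.coeff d * (derivative (Nod x)).eval z := by
  have h1 := congrArg (fun P => (derivative P).eval z) h.num
  simpa using h1

theorem Fix.der_eq (h : Fix d p q x w) (z : ℂ) :
    (derivative p).eval z * q.eval z - p.eval z * (derivative q).eval z =
      (q.eval z) ^ 2 - q.coeff d * ((derivative (Nod x)).eval z * q.eval z -
        (Nod x).eval z * (derivative q).eval z) := by
  have h1 := h.num_eval z
  have h2 := h.num_der z
  linear_combination (-q.eval z) * h2 + (derivative q).eval z * h1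

theorem Fix.q_at (h : Fix d p q x w) (j : Fin (d + 1)) :
    q.eval (x j) = q.coeff d * w j * (NN x j).eval (x j) := by
  have h1 := qpol_eval x (fun j => q.coeff d * w j) j
  rw [← h.hq] at h1
  exact h1

theorem Fix.q_at_ne (h : Fix d p q x w) (j : Fin (d + 1)) : q.eval (x j) ≠ 0 := by
  rw [h.q_at]
  exact mul_ne_zero (mul_ne_zero h.l0 (h.w0 j)) (NN_eval_self h.inj j)

theorem Fix.p_at (h : Fix d p q x w) (j : Fin (d + 1)) : p.eval (x j) = x j * q.eval (x j) := by
  have h1 := h.num_eval (x j)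
  rw [Nod_eval_self, mul_zero] at h1
  linear_combination -h1

theorem Fix.der_at (h : Fix d p q x w) (j : Fin (d + 1)) : der p q (x j) = 1 - 1 / w j := by
  unfold der
  have h0 := h.q_at_ne j
  have h1 : (derivative (Nod x)).eval (x j) = (NN x j).eval (x j) := by
    rw [Nod_der x j]; simp
  rw [h.der_eq, Nod_eval_self, zero_mul, sub_zero, h1]
  have h2 := h.q_at j
  have h3 := h.w0 j
  have h4 := h.l0
  have h5 := NN_eval_self h.inj j
  rw [h2]
  field_simp

theorem Fix.fixed_iff (h : Fix d p q x w) (z : ℂ) :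
    (q.eval z ≠ 0 ∧ p.eval z = z * q.eval z) ↔ ∃ j, z = x j := by
  constructor
  · rintro ⟨_, h2⟩
    by_contra hcon
    push Not at hcon
    have h3 := h.num_eval z
    rw [h2, sub_self] at h3
    exact (mul_ne_zero h.l0 (Nod_eval_ne hcon)) h3.symm
  · rintro ⟨j, rfl⟩
    exact ⟨h.q_at_ne j, h.p_at j⟩

theorem Fix.q_out (h : Fix d p q x w) {z : ℂ} (hz : ∀ j, z ≠ x j) :
    q.eval z = q.coeff d * (Nod x).eval z * ∑ j, w j / (z - x j) := by
  have h1 := qpol_eval_out (fun j => q.coeff d * w j) hz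
  rw [← h.hq] at h1
  rw [h1, Finset.mul_sum, Finset.mul_sum]
  refine Finset.sum_congr rfl fun j _ => ?_
  ring

theorem Fix.q_der_out (h : Fix d p q x w) {z : ℂ} (hz : ∀ j, z ≠ x j) :
    (derivative q).eval z = q.coeff d * ((derivative (Nod x)).eval z * ∑ j, w j / (z - x j) -
      (Nod x).eval z * ∑ j, w j / (z - x j) ^ 2) := by
  have h1 := qpol_der_eval_out (fun j => q.coeff d * w j) hz
  rw [← h.hq] at h1
  rw [h1]
  simp only [mul_div_assoc, ← Finset.mul_sum]
  ring

/-- The value of the map off the fixed points. -/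
theorem Fix.val_out (h : Fix d p q x w) {z : ℂ} (hz : ∀ j, z ≠ x j) (hq : q.eval z ≠ 0) :
    (∑ j, w j / (z - x j)) * (z - p.eval z / q.eval z) = 1 := by
  have h1 := h.num_eval z
  have h2 := h.q_out hz
  have h3 := h.l0
  have h4 := Nod_eval_ne hz
  have h5 : z - p.eval z / q.eval z = q.coeff d * (Nod x).eval z / q.eval z := by
    rw [← h1]; field_simp
  rw [h5]
  have h6 : (∑ j, w j / (z - x j)) * (q.coeff d * (Nod x).eval z) = q.eval z := by
    rw [h2]; ring
  rw [← mul_div_assoc, h6, div_self hq]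

theorem Fix.q_ne (h : Fix d p q x w) {z : ℂ} (hz : ∀ j, z ≠ x j)
    (hS : ∑ j, w j / (z - x j) ≠ 0) : q.eval z ≠ 0 := by
  rw [h.q_out hz]
  exact mul_ne_zero (mul_ne_zero h.l0 (Nod_eval_ne hz)) hS

theorem Fix.S_ne (h : Fix d p q x w) {z : ℂ} (hz : ∀ j, z ≠ x j)
    (hS : q.eval z ≠ 0) : ∑ j, w j / (z - x j) ≠ 0 := by
  rw [h.q_out hz] at hS
  exact right_ne_zero_of_mul hS

/-- The derivative off the fixed points. -/
theorem Fix.der_out (h : Fix d p q x w) {z : ℂ} (hz : ∀ j, z ≠ x j) (hq : q.eval z ≠ 0) :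
    der p q z = side w x z (p.eval z / q.eval z) := by
  have h1 := h.val_out hz hq
  set S := ∑ j, w j / (z - x j) with hS
  have hS0 : S ≠ 0 := left_ne_zero_of_mul_eq_one h1
  have h2 : z - p.eval z / q.eval z = 1 / S := eq_one_div_of_mul_eq_one_right h1
  unfold side
  rw [h2]
  unfold der
  rw [h.der_eq, h.q_der_out hz, ← hS]
  have h3 := h.q_out hz
  rw [← hS] at h3
  have h4 := h.l0
  have h5 := Nod_eval_ne hz
  rw [h3]
  field_simp
  ring

/-- The two-cycles. -/
theorem Fix.cycle_iff (h : Fix d p q x w) (z y : ℂ) :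
    IsCycle w x z y ↔ (q.eval z ≠ 0 ∧ q.eval y ≠ 0 ∧ p.eval z / q.eval z = y ∧
      p.eval y / q.eval y = z ∧ y ≠ z) := by
  constructor
  · rintro ⟨hz, hy, h1, h2⟩
    have hSz : ∑ j, w j / (z - x j) ≠ 0 := left_ne_zero_of_mul_eq_one h1
    have hSy : ∑ j, w j / (y - x j) ≠ 0 := left_ne_zero_of_mul_eq_one h2
    have hqz := h.q_ne hz hSz
    have hqy := h.q_ne hy hSy
    refine ⟨hqz, hqy, ?_, ?_, ?_⟩
    · have h3 := h.val_out hz hqz
      have h4 := mul_left_cancel₀ hSz (h3.trans h1.symm)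
      linear_combination -h4
    · have h3 := h.val_out hy hqy
      have h4 := mul_left_cancel₀ hSy (h3.trans h2.symm)
      linear_combination -h4
    · rintro rfl
      simp at h1
  · rintro ⟨hqz, hqy, h1, h2, h3⟩
    have hz : ∀ j, z ≠ x j := by
      rintro j rfl
      rw [h.p_at, mul_div_assoc, div_self hqz, mul_one] at h1
      exact h3 h1.symm
    have hy : ∀ j, y ≠ x j := by
      rintro j rfl
      rw [h.p_at, mul_div_assoc, div_self hqy, mul_one] at h2
      exact h3 h2
    refine ⟨hz, hy, ?_, ?_⟩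
    · rw [← h1]; exact h.val_out hz hqz
    · rw [← h2]; exact h.val_out hy hqy

theorem Fix.mult_eq (h : Fix d p q x w) {z y : ℂ} (hc : IsCycle w x z y) :
    mult w x z y = der p q z * der p q y := by
  obtain ⟨hqz, hqy, h1, h2, _⟩ := (h.cycle_iff z y).1 hc
  rw [h.der_out hc.1 hqz, h.der_out hc.2.1 hqy, h1, h2]
  rfl

end Pool.Agent.W522.Mult
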