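import Pool.Agent.W522.Mult.Defs

/-!
# Rigidity of the numbers `T`
-/

set_option autoImplicit false

namespace Pool.Agent.W522.Mult

open Finset

variable {k : Type*} [Field k] {ι : Type*} [Fintype ι] [DecidableEq ι]

/-- An identity for the numbers `T` of a subset of the points. -/
lemma sum_T_sub (c x : ι → k) (C : Finset ι) (hinj : ∀ a ∈ C, ∀ b ∈ C, x a = x b → a = b)
    (h2 : (2 : k) ≠ 0) :
    ∑ a ∈ C, ∑ b ∈ C, c a * c b * ((x a - x b) *
      (∑ l ∈ C, c l / (x a - x l) - ∑ l ∈ C, c l / (x b - x l))) =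
    (∑ a ∈ C, c a) * ∑ a ∈ C, ∑ b ∈ C.erase a, c a * c b := by
  set F : ι → k := fun a => ∑ l ∈ C, c l / (x a - x l) with hF
  have hP : ∑ a ∈ C, c a * F a = 0 := by
    have h1 : ∑ a ∈ C, c a * F a = ∑ a ∈ C, ∑ b ∈ C, c a * c b / (x a - x b) := by
      refine sum_congr rfl fun a _ => ?_
      rw [hF, mul_sum]
      exact sum_congr rfl fun b _ => by ring
    have h3 : ∑ a ∈ C, ∑ b ∈ C, c a * c b / (x a - x b) =
        -∑ a ∈ C, ∑ b ∈ C, c a * c b / (x a - x b) := by
      conv_lhs => rw [sum_comm]
      rw [← sum_neg_distrib]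
      refine sum_congr rfl fun a _ => ?_
      rw [← sum_neg_distrib]
      refine sum_congr rfl fun b _ => ?_
      rw [← neg_sub (x a) (x b), div_neg, mul_comm (c b)]
    rw [h1]
    have h4 : (2 : k) * ∑ a ∈ C, ∑ b ∈ C, c a * c b / (x a - x b) = 0 := by
      rw [two_mul]; nth_rewrite 1 [h3]; ring
    exact (mul_eq_zero.1 h4).resolve_left h2
  have hQ : 2 * ∑ a ∈ C, c a * x a * F a = ∑ a ∈ C, ∑ b ∈ C.erase a, c a * c b := by
    have h1 : ∑ a ∈ C, c a * x a * F a = ∑ a ∈ C, ∑ b ∈ C, c a * c b * (x a / (x a - x b)) := by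
      refine sum_congr rfl fun a _ => ?_
      rw [hF, mul_sum]
      exact sum_congr rfl fun b _ => by ring
    have h3 : ∑ a ∈ C, c a * x a * F a = ∑ a ∈ C, ∑ b ∈ C, c a * c b * (x b / (x b - x a)) := by
      rw [h1, sum_comm]
      refine sum_congr rfl fun a _ => sum_congr rfl fun b _ => by ring
    rw [two_mul]
    nth_rewrite 1 [h1]
    rw [h3, ← sum_add_distrib]
    refine sum_congr rfl fun a ha => ?_
    rw [← sum_add_distrib, ← add_sum_erase _ _ ha]
    simp only [sub_self, div_zero, mul_zero, add_zero, zero_add]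
    refine sum_congr rfl fun b hb => ?_
    have hb' := mem_erase.1 hb
    have hne : x a - x b ≠ 0 := sub_ne_zero.2 fun h => hb'.1 (hinj a ha b hb'.2 h).symm
    have hne' : x b - x a ≠ 0 := sub_ne_zero.2 fun h => hb'.1 (hinj b hb'.2 a ha h)
    have : x b / (x b - x a) = -(x b) / (x a - x b) := by
      rw [← neg_sub (x a) (x b), div_neg, neg_div]
    rw [this, ← mul_add, ← add_div, ← sub_eq_add_neg, div_self hne, mul_one]
  have e1 : ∑ a ∈ C, ∑ b ∈ C, c a * c b * ((x a - x b) * (F a - F b)) =
      (∑ a ∈ C, c a) * (2 * ∑ a ∈ C, c a * x a * F a) -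
        2 * (∑ a ∈ C, c a * x a) * ∑ a ∈ C, c a * F a := by
    have : ∀ a b, c a * c b * ((x a - x b) * (F a - F b)) =
        (c a * x a * F a) * c b - (c a * x a) * (c b * F b) - (c a * F a) * (c b * x b) +
          c a * (c b * x b * F b) := by intro a b; ring
    simp only [this, sum_add_distrib, sum_sub_distrib, ← mul_sum, ← sum_mul]
    ring
  rw [e1, hP, hQ, mul_zero, sub_zero]

/-- Two-dimensional rigidity, with the exceptional solution in which the two coordinates are
exchanged. -/
lemma gram_rigid (x F x' F' : ι → k) (hx' : Function.Injective x') {i₀ i₁ i₂ : ι}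
    (h01 : i₁ ≠ i₀) (h02 : i₂ ≠ i₀)
    (hΔ : (x i₁ - x i₀) * (F i₂ - F i₀) - (x i₂ - x i₀) * (F i₁ - F i₀) ≠ 0)
    (h : ∀ a b, (x' a - x' b) * (F' a - F' b) = (x a - x b) * (F a - F b)) :
    (∃ α, α ≠ 0 ∧ ∀ a, x' a - x' i₀ = α * (x a - x i₀)) ∨
      (∃ α, α ≠ 0 ∧ ∀ a, x' a - x' i₀ = α * (F a - F i₀) ∧ x a - x i₀ = α * (F' a - F' i₀)) := by
  have hpol : ∀ a b, (x' a - x' i₀) * (F' b - F' i₀) + (x' b - x' i₀) * (F' a - F' i₀) =
      (x a - x i₀) * (F b - F i₀) + (x b - x i₀) * (F a - F i₀) := by
    intro a b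
    linear_combination h a i₀ + h b i₀ - h a b
  have hX1 : x' i₁ - x' i₀ ≠ 0 := sub_ne_zero.2 fun e => h01 (hx' e)
  have hX2 : x' i₂ - x' i₀ ≠ 0 := sub_ne_zero.2 fun e => h02 (hx' e)
  have q11 := h i₁ i₀
  have q22 := h i₂ i₀
  have q12 := hpol i₁ i₂
  have q1 : ∀ a, _ := fun a => hpol a i₁
  have q2 : ∀ a, _ := fun a => hpol a i₂
  generalize hu1 : x' i₁ - x' i₀ = u1 at *
  generalize hu2 : x' i₂ - x' i₀ = u2 at *
  generalize hv1 : F' i₁ - F' i₀ = v1 at *
  generalize hv2 : F' i₂ - F' i₀ = v2 at *
  generalize hX1' : x i₁ - x i₀ = X1 at *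
  generalize hX2' : x i₂ - x i₀ = X2 at *
  generalize hY1 : F i₁ - F i₀ = Y1 at *
  generalize hY2 : F i₂ - F i₀ = Y2 at *
  have hprod : (u1 * v2 - X1 * Y2) * (u1 * v2 - X2 * Y1) = 0 := by
    have : (u1 * v2) * (u2 * v1) = (X1 * Y2) * (X2 * Y1) := by
      calc (u1 * v2) * (u2 * v1) = (u1 * v1) * (u2 * v2) := by ring
        _ = (X1 * Y1) * (X2 * Y2) := by rw [q11, q22]
        _ = _ := by ring
    have e : u2 * v1 = X1 * Y2 + X2 * Y1 - u1 * v2 := by linear_combination q12
    rw [e] at this
    linear_combination -this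
  rcases mul_eq_zero.1 hprod with hcase | hcase
  · -- first case
    left
    have e12 : u1 * v2 = X1 * Y2 := by linear_combination hcase
    have e21 : u2 * v1 = X2 * Y1 := by linear_combination q12 - hcase
    -- α with u1 = α X1, v1 α = Y1, u2 = α X2, v2 α = Y2
    have hα : ∃ α, α ≠ 0 ∧ u1 = α * X1 ∧ u2 = α * X2 ∧ v1 * α = Y1 ∧ v2 * α = Y2 := by
      by_cases hX : X1 = 0
      · have hv1 : v1 = 0 := by
          have : u1 * v1 = 0 := by rw [q11, hX, zero_mul]
          exact (mul_eq_zero.1 this).resolve_left hX1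
        have hv2 : v2 = 0 := by
          have : u1 * v2 = 0 := by rw [e12, hX, zero_mul]
          exact (mul_eq_zero.1 this).resolve_left hX1
        exfalso
        have hX2 : X2 ≠ 0 := by rintro rfl; apply hΔ; rw [hX]; ring
        have hY1 : Y1 = 0 := by
          have : X2 * Y1 = 0 := by rw [← e21, hv1, mul_zero]
          exact (mul_eq_zero.1 this).resolve_left hX2
        apply hΔ; rw [hX, hY1]; ring
      · refine ⟨u1 / X1, div_ne_zero hX1 hX, by field_simp, ?_, ?_, ?_⟩
        · by_cases hY : Y2 = 0
          · have hY1 : Y1 ≠ 0 := by rintro rfl; apply hΔ; rw [hY]; ring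
            have hv10 : v1 ≠ 0 := by
              rintro rfl
              rw [mul_zero] at q11
              rcases mul_eq_zero.1 q11.symm with h | h
              · exact hX h
              · exact hY1 h
            have : v1 * (u2 * X1 - u1 * X2) = 0 := by
              linear_combination X1 * e21 - X2 * q11
            have := (mul_eq_zero.1 this).resolve_left hv10
            field_simp
            linear_combination this
          · have hv20 : v2 ≠ 0 := by
              rintro rfl
              rw [mul_zero] at e12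
              rcases mul_eq_zero.1 e12.symm with h | h
              · exact hX h
              · exact hY h
            have : v2 * (u2 * X1 - u1 * X2) = 0 := by
              linear_combination X1 * q22 - X2 * e12
            have := (mul_eq_zero.1 this).resolve_left hv20
            field_simp
            linear_combination this
        · field_simp
          linear_combination q11
        · field_simp
          linear_combination e12
    obtain ⟨α, hα0, a1, a2, b1, b2⟩ := hα
    refine ⟨α, hα0, fun a => ?_⟩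
    have r1 := q1 a
    have r2 := q2 a
    rw [a1, ← b1] at r1
    rw [a2, ← b2] at r2
    have hv : X1 * v2 - X2 * v1 ≠ 0 := by
      intro h0; apply hΔ; rw [← b1, ← b2]; linear_combination α * h0
    have : (X1 * v2 - X2 * v1) * (x' a - x' i₀ - α * (x a - x i₀)) = 0 := by
      linear_combination X1 * r2 - X2 * r1
    have := (mul_eq_zero.1 this).resolve_left hv
    linear_combination this
  · -- second case: exchanged
    right
    have e12 : u1 * v2 = X2 * Y1 := by linear_combination hcase
    have e21 : u2 * v1 = X1 * Y2 := by linear_combination q12 - hcase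
    have hα : ∃ α, α ≠ 0 ∧ u1 = α * Y1 ∧ u2 = α * Y2 ∧ v1 * α = X1 ∧ v2 * α = X2 := by
      by_cases hY : Y1 = 0
      · have hv1 : v1 = 0 := by
          have : u1 * v1 = 0 := by rw [q11, hY, mul_zero]
          exact (mul_eq_zero.1 this).resolve_left hX1
        have hv2 : v2 = 0 := by
          have : u1 * v2 = 0 := by rw [e12, hY, mul_zero]
          exact (mul_eq_zero.1 this).resolve_left hX1
        exfalso
        have hY2 : Y2 ≠ 0 := by rintro rfl; apply hΔ; rw [hY]; ring
        have hX1 : X1 = 0 := by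
          have : X1 * Y2 = 0 := by rw [← e21, hv1, mul_zero]
          exact (mul_eq_zero.1 this).resolve_right hY2
        apply hΔ; rw [hX1, hY]; ring
      · refine ⟨u1 / Y1, div_ne_zero hX1 hY, by field_simp, ?_, ?_, ?_⟩
        · by_cases hX : X2 = 0
          · have hX1' : X1 ≠ 0 := by rintro rfl; apply hΔ; rw [hX]; ring
            have hv10 : v1 ≠ 0 := by
              rintro rfl
              rw [mul_zero] at q11
              rcases mul_eq_zero.1 q11.symm with h | h
              · exact hX1' h
              · exact hY h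
            have : v1 * (u2 * Y1 - u1 * Y2) = 0 := by
              linear_combination Y1 * e21 - Y2 * q11
            have := (mul_eq_zero.1 this).resolve_left hv10
            field_simp
            linear_combination this
          · have hv20 : v2 ≠ 0 := by
              rintro rfl
              rw [mul_zero] at e12
              rcases mul_eq_zero.1 e12.symm with h | h
              · exact hX h
              · exact hY h
            have : v2 * (u2 * Y1 - u1 * Y2) = 0 := by
              linear_combination Y1 * q22 - Y2 * e12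
            have := (mul_eq_zero.1 this).resolve_left hv20
            field_simp
            linear_combination this
        · field_simp
          linear_combination q11
        · field_simp
          linear_combination e12
    obtain ⟨α, hα0, a1, a2, b1, b2⟩ := hα
    have hv : Y2 * v1 - Y1 * v2 ≠ 0 := by
      intro h0; apply hΔ; rw [← b1, ← b2]; linear_combination α * h0
    refine ⟨α, hα0, fun a => ?_⟩
    have r1 := q1 a
    have r2 := q2 a
    rw [a1, ← b1] at r1
    rw [a2, ← b2] at r2
    constructor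
    · have : (Y2 * v1 - Y1 * v2) * (x' a - x' i₀ - α * (F a - F i₀)) = 0 := by
        linear_combination Y2 * r1 - Y1 * r2
      have := (mul_eq_zero.1 this).resolve_left hv
      linear_combination this
    · have : (Y2 * v1 - Y1 * v2) * (x a - x i₀ - α * (F' a - F' i₀)) = 0 := by
        linear_combination v2 * r1 - v1 * r2
      have := (mul_eq_zero.1 this).resolve_left hv
      linear_combination this

/-- Infinitesimal rigidity. -/
lemma inf_rigid (x F s φ : ι → k) {i₀ i₁ i₂ : ι} (hx1 : x i₁ ≠ x i₀) (h2 : (2 : k) ≠ 0)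
    (hΔ : (x i₁ - x i₀) * (F i₂ - F i₀) - (x i₂ - x i₀) * (F i₁ - F i₀) ≠ 0)
    (h : ∀ a b, (s a - s b) * (F a - F b) + (x a - x b) * (φ a - φ b) = 0) :
    ∃ α, ∀ a, s a - s i₀ = α * (x a - x i₀) := by
  have hpol : ∀ a b, (s a - s i₀) * (F b - F i₀) + (s b - s i₀) * (F a - F i₀) +
      (x a - x i₀) * (φ b - φ i₀) + (x b - x i₀) * (φ a - φ i₀) = 0 := by
    intro a b
    linear_combination h a i₀ + h b i₀ - h a b
  have hX : x i₁ - x i₀ ≠ 0 := sub_ne_zero.2 hx1
  set α := (s i₁ - s i₀) / (x i₁ - x i₀) with hα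
  have e1 : s i₁ - s i₀ = α * (x i₁ - x i₀) := by rw [hα]; field_simp
  have e2 : φ i₁ - φ i₀ = -α * (F i₁ - F i₀) := by
    have := h i₁ i₀
    rw [e1] at this
    have h3 : (x i₁ - x i₀) * ((φ i₁ - φ i₀) + α * (F i₁ - F i₀)) = 0 := by
      linear_combination this
    have := (mul_eq_zero.1 h3).resolve_left hX
    linear_combination this
  have main : ∀ a, (s a - s i₀) = α * (x a - x i₀) ∧ (φ a - φ i₀) = -α * (F a - F i₀) := by
    have step : ∀ a, (s a - s i₀ - α * (x a - x i₀)) * (F i₁ - F i₀) +
        (x i₁ - x i₀) * (φ a - φ i₀ + α * (F a - F i₀)) = 0 := by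
      intro a
      have := hpol a i₁
      rw [e1, e2] at this
      linear_combination this
    have m2 : (s i₂ - s i₀) = α * (x i₂ - x i₀) ∧ (φ i₂ - φ i₀) = -α * (F i₂ - F i₀) := by
      have r1 := step i₂
      have r2 := h i₂ i₀
      have r3 : (s i₂ - s i₀ - α * (x i₂ - x i₀)) * (F i₂ - F i₀) +
        (x i₂ - x i₀) * (φ i₂ - φ i₀ + α * (F i₂ - F i₀)) = 0 := by linear_combination r2
      constructor
      · have : ((x i₁ - x i₀) * (F i₂ - F i₀) - (x i₂ - x i₀) * (F i₁ - F i₀)) *
            (s i₂ - s i₀ - α * (x i₂ - x i₀)) = 0 := by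
          linear_combination (x i₁ - x i₀) * r3 - (x i₂ - x i₀) * r1
        have := (mul_eq_zero.1 this).resolve_left hΔ
        linear_combination this
      · have : ((x i₁ - x i₀) * (F i₂ - F i₀) - (x i₂ - x i₀) * (F i₁ - F i₀)) *
            (φ i₂ - φ i₀ + α * (F i₂ - F i₀)) = 0 := by
          linear_combination (F i₂ - F i₀) * r1 - (F i₁ - F i₀) * r3
        have := (mul_eq_zero.1 this).resolve_left hΔ
        linear_combination this
    intro a
    have r1 := step a
    have r3 : (s a - s i₀ - α * (x a - x i₀)) * (F i₂ - F i₀) +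
        (x i₂ - x i₀) * (φ a - φ i₀ + α * (F a - F i₀)) = 0 := by
      have := hpol a i₂
      rw [m2.1, m2.2] at this
      linear_combination this
    constructor
    · have : ((x i₁ - x i₀) * (F i₂ - F i₀) - (x i₂ - x i₀) * (F i₁ - F i₀)) *
          (s a - s i₀ - α * (x a - x i₀)) = 0 := by
        linear_combination (x i₁ - x i₀) * r3 - (x i₂ - x i₀) * r1
      have := (mul_eq_zero.1 this).resolve_left hΔ
      linear_combination this
    · have : ((x i₁ - x i₀) * (F i₂ - F i₀) - (x i₂ - x i₀) * (F i₁ - F i₀)) *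
          (φ a - φ i₀ + α * (F a - F i₀)) = 0 := by
        linear_combination (F i₂ - F i₀) * r1 - (F i₁ - F i₀) * r3
      have := (mul_eq_zero.1 this).resolve_left hΔ
      linear_combination this
  exact ⟨α, fun a => (main a).1⟩

end Pool.Agent.W522.Mult
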