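import Pool.Agent.W522.Mult.Exist
import Pool.Agent.W522.Mult.Rigid

/-!
# Generic weights
-/

set_option autoImplicit false

namespace Pool.Agent.W522.Mult

open Finset

/-- The conditions on the limit configuration. -/
structure Gen {k : Type*} [Field k] {ι : Type*} [Fintype ι] [DecidableEq ι] (c x : ι → k)
    (i₀ i₁ i₂ : ι) : Prop where
  inj : Function.Injective x
  c0 : ∀ a, c a ≠ 0
  tot : ∑ a, c a ≠ 0
  prod : ∀ a b a' b', a ≠ b → a' ≠ b' → c a * c b = c a' * c b' →
    (a = a' ∧ b = b') ∨ (a = b' ∧ b = a')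
  sub : ∀ C : Finset ι, C ≠ univ → (∃ a ∈ C, ∃ b ∈ C, a ≠ b) →
    ∑ a ∈ C, ∑ b ∈ C, c a * c b * T c x a b ≠
      (∑ a ∈ C, c a) * ∑ a ∈ C, ∑ b ∈ C.erase a, c a * c b
  det : (x i₁ - x i₀) * (force c x i₂ - force c x i₀) -
    (x i₂ - x i₀) * (force c x i₁ - force c x i₀) ≠ 0
  swap : Function.Injective (force c x) →
    ∑ l ∈ univ.erase i₂, c l / (force c x i₂ - force c x l) -
      ∑ l ∈ univ.erase i₀, c l / (force c x i₀ - force c x l) ≠ x i₂ - x i₀

section map

variable {k k' : Type*} [Field k] [Field k'] {ι : Type*} [Fintype ι] [DecidableEq ι]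

lemma force_map (f : k →+* k') (c x : ι → k) (a : ι) :
    force (fun i => f (c i)) (fun i => f (x i)) a = f (force c x a) := by
  unfold force
  rw [map_sum]
  exact sum_congr rfl fun l _ => by rw [map_div₀, map_sub]

lemma T_map (f : k →+* k') (c x : ι → k) (a b : ι) :
    T (fun i => f (c i)) (fun i => f (x i)) a b = f (T c x a b) := by
  unfold T
  rw [force_map, force_map, map_mul, map_sub, map_sub]

lemma Gen.map (f : k →+* k') {c x : ι → k} {i₀ i₁ i₂ : ι} (h : Gen c x i₀ i₁ i₂) :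
    Gen (fun i => f (c i)) (fun i => f (x i)) i₀ i₁ i₂ where
  inj := f.injective.comp h.inj
  c0 := fun a => (map_ne_zero f).2 (h.c0 a)
  tot := by rw [← map_sum]; exact (map_ne_zero f).2 h.tot
  prod := fun a b a' b' h1 h2 h3 => h.prod a b a' b' h1 h2 (f.injective (by
    rw [map_mul, map_mul]; exact h3))
  sub := fun C h1 h2 h3 => h.sub C h1 h2 (f.injective (by
    simp only [map_mul, map_sum, ← T_map f c x]
    exact h3))
  det := by
    intro h3
    apply h.det
    apply f.injective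
    simp only [force_map] at h3
    simp only [map_sub, map_mul, map_zero]
    exact h3
  swap := by
    intro h1 h2
    have h1' : Function.Injective (force c x) := by
      intro a b hab
      apply h1
      rw [force_map, force_map, hab]
    apply h.swap h1'
    apply f.injective
    simp only [force_map] at h2
    simp only [map_sub, map_sum, map_div₀]
    exact h2

end map

section exist

open MvPolynomial

variable {ι : Type} [Fintype ι] [DecidableEq ι]

/-- force as a polynomial in the weights -/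
noncomputable def pF (x : ι → ℚ) (a : ι) : MvPolynomial ι ℚ := ∑ l, C (x a - x l)⁻¹ * X l

lemma eval_pF (c x : ι → ℚ) (a : ι) : eval c (pF x a) = force c x a := by
  unfold pF force
  rw [map_sum]
  refine sum_congr rfl fun l _ => ?_
  rw [map_mul, eval_C, eval_X, div_eq_mul_inv, mul_comm]

lemma ne_zero_of_eval {p : MvPolynomial ι ℚ} (c : ι → ℚ) (h : eval c p ≠ 0) : p ≠ 0 := by
  rintro rfl; exact h (map_zero _)

lemma exists_eval_ne {p : MvPolynomial ι ℚ} (h : p ≠ 0) : ∃ c : ι → ℚ, eval c p ≠ 0 := by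
  by_contra hcon
  push Not at hcon
  exact h (MvPolynomial.funext fun c => by rw [hcon c, map_zero])

/-- indicator weights -/
def ind (S : Finset ι) (i : ι) : ℚ := if i ∈ S then 1 else 0

lemma sum_ind (S R : Finset ι) (f : ι → ℚ) : ∑ i ∈ R, ind S i * f i = ∑ i ∈ R ∩ S, f i := by
  unfold ind
  simp only [ite_mul, one_mul, zero_mul]
  rw [sum_ite_mem]

lemma force_ind (S : Finset ι) (x : ι → ℚ) (a : ι) :
    force (ind S) x a = ∑ l ∈ S, 1 / (x a - x l) := by
  unfold force
  have : ∀ l, ind S l / (x a - x l) = ind S l * (1 / (x a - x l)) := fun l => by ring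
  simp only [this]
  rw [sum_ind, univ_inter]

/-- the polynomial for proper subsets -/
noncomputable def pSub (x : ι → ℚ) (S : Finset ι) : MvPolynomial ι ℚ :=
  ∑ a ∈ S, ∑ b ∈ S, X a * X b * (C (x a - x b) * (pF x a - pF x b)) -
    (∑ a ∈ S, X a) * ∑ a ∈ S, ∑ b ∈ S.erase a, X a * X b

lemma eval_pSub (c x : ι → ℚ) (S : Finset ι) : eval c (pSub x S) =
    ∑ a ∈ S, ∑ b ∈ S, c a * c b * T c x a b -
      (∑ a ∈ S, c a) * ∑ a ∈ S, ∑ b ∈ S.erase a, c a * c b := by
  unfold pSub T
  simp only [map_sub, map_sum, map_mul, eval_X, eval_C, eval_pF]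

lemma pSub_ne (x : ι → ℚ) (hx : Function.Injective x) (S : Finset ι) (hS : S ≠ univ)
    (h2 : ∃ a ∈ S, ∃ b ∈ S, a ≠ b) : pSub x S ≠ 0 := by
  obtain ⟨a, ha, b, hb, hab⟩ := h2
  obtain ⟨l, hl⟩ : ∃ l, l ∉ S := by
    by_contra hcon
    push Not at hcon
    exact hS (eq_univ_iff_forall.2 hcon)
  have hal : a ≠ l := fun h => hl (h ▸ ha)
  have hbl : b ≠ l := fun h => hl (h ▸ hb)
  have hd : ∀ i j, i ≠ j → x i - x j ≠ 0 := fun i j hij => sub_ne_zero.2 fun h => hij (hx h)
  apply ne_zero_of_eval (ind {a, b, l})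
  rw [eval_pSub]
  have hSS : S ∩ {a, b, l} = {a, b} := by
    ext i
    simp only [mem_inter, mem_insert, mem_singleton]
    constructor
    · rintro ⟨h1, rfl | rfl | rfl⟩
      · left; rfl
      · right; rfl
      · exact absurd h1 hl
    · rintro (rfl | rfl)
      · exact ⟨ha, Or.inl rfl⟩
      · exact ⟨hb, Or.inr (Or.inl rfl)⟩
  have e1 : ∑ i ∈ S, ∑ j ∈ S, ind {a, b, l} i * ind {a, b, l} j * T (ind {a, b, l}) x i j =
      ∑ i ∈ ({a, b} : Finset ι), ∑ j ∈ ({a, b} : Finset ι), T (ind {a, b, l}) x i j := by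
    have : ∀ i, ∑ j ∈ S, ind {a, b, l} i * ind {a, b, l} j * T (ind {a, b, l}) x i j =
        ind {a, b, l} i * ∑ j ∈ ({a, b} : Finset ι), T (ind {a, b, l}) x i j := by
      intro i
      rw [← hSS, ← sum_ind, mul_sum]
      exact sum_congr rfl fun j _ => by ring
    simp only [this]
    rw [sum_ind, hSS]
  have e2 : ∑ i ∈ S, ind {a, b, l} i = 2 := by
    have : ∑ i ∈ S, ind {a, b, l} i = ∑ i ∈ S, ind {a, b, l} i * 1 := by simp
    rw [this, sum_ind, hSS, sum_pair hab]; norm_num
  have e3 : ∑ i ∈ S, ∑ j ∈ S.erase i, ind {a, b, l} i * ind {a, b, l} j = 2 := by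
    have : ∀ i, ∑ j ∈ S.erase i, ind {a, b, l} i * ind {a, b, l} j =
        ind {a, b, l} i * ∑ j ∈ (S.erase i) ∩ {a, b, l}, 1 := by
      intro i
      rw [← sum_ind, mul_sum]
      exact sum_congr rfl fun j _ => by ring
    simp only [this]
    rw [sum_ind, hSS, sum_pair hab, erase_inter, erase_inter, hSS]
    have h1 : ({a, b} : Finset ι).erase a = {b} := by
      rw [erase_insert]; simpa using hab
    have h2 : ({a, b} : Finset ι).erase b = {a} := by
      rw [pair_comm, erase_insert]; simpa using hab.symm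
    rw [h1, h2]; norm_num
  rw [e1, e2, e3, sum_pair hab, sum_pair hab, sum_pair hab]
  have h3 : ∀ i, T (ind {a, b, l}) x i i = 0 := fun i => by unfold T; ring
  have h4 : T (ind {a, b, l}) x b a = T (ind {a, b, l}) x a b := by unfold T; ring
  rw [h3, h3, h4]
  have hF : ∀ i, force (ind {a, b, l}) x i = 1 / (x i - x a) + (1 / (x i - x b) + 1 / (x i - x l)) := by
    intro i
    rw [force_ind, sum_insert, sum_pair hbl]
    simp only [mem_insert, mem_singleton, not_or]
    exact ⟨hab, hal⟩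
  have h5 : T (ind {a, b, l}) x a b = 2 - (x a - x b) ^ 2 / ((x a - x l) * (x b - x l)) := by
    unfold T
    rw [hF, hF, sub_self, sub_self]
    have h6 := hd a b hab
    have h7 := hd a l hal
    have h8 := hd b l hbl
    have h9 : x b - x a = -(x a - x b) := by ring
    rw [h9]
    field_simp
    ring
  rw [h5]
  have h6 := hd a b hab
  have h7 := hd a l hal
  have h8 := hd b l hbl
  have : (x a - x b) ^ 2 / ((x a - x l) * (x b - x l)) ≠ 0 := by positivity
  intro h9
  apply this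
  linarith

/-- the product of differences of forces -/
noncomputable def pD (x : ι → ℚ) (a : ι) : MvPolynomial ι ℚ :=
  ∏ l ∈ univ.erase a, (pF x a - pF x l)

noncomputable def pN (x : ι → ℚ) (a : ι) : MvPolynomial ι ℚ :=
  ∑ l ∈ univ.erase a, X l * ∏ m ∈ (univ.erase a).erase l, (pF x a - pF x m)

noncomputable def pSwap (x : ι → ℚ) (i₀ i₂ : ι) : MvPolynomial ι ℚ :=
  pN x i₂ * pD x i₀ - pN x i₀ * pD x i₂ - C (x i₂ - x i₀) * (pD x i₀ * pD x i₂)

lemma eval_pD (c x : ι → ℚ) (a : ι) : eval c (pD x a) =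
    ∏ l ∈ univ.erase a, (force c x a - force c x l) := by
  unfold pD
  simp only [map_prod, map_sub, eval_pF]

lemma eval_pN (c x : ι → ℚ) (a : ι) (h : ∀ l ∈ univ.erase a, force c x a - force c x l ≠ 0) :
    eval c (pN x a) = (∏ l ∈ univ.erase a, (force c x a - force c x l)) *
      ∑ l ∈ univ.erase a, c l / (force c x a - force c x l) := by
  rw [← sum_prod_erase _ _ _ h]
  unfold pN
  simp only [map_sum, map_mul, eval_X, map_prod, map_sub, eval_pF]

lemma eval_pSwap (c x : ι → ℚ) (i₀ i₂ : ι)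
    (h0 : ∀ l ∈ univ.erase i₀, force c x i₀ - force c x l ≠ 0)
    (h2 : ∀ l ∈ univ.erase i₂, force c x i₂ - force c x l ≠ 0) :
    eval c (pSwap x i₀ i₂) = (∏ l ∈ univ.erase i₀, (force c x i₀ - force c x l)) *
      (∏ l ∈ univ.erase i₂, (force c x i₂ - force c x l)) *
      (∑ l ∈ univ.erase i₂, c l / (force c x i₂ - force c x l) -
      ∑ l ∈ univ.erase i₀, c l / (force c x i₀ - force c x l) - (x i₂ - x i₀)) := by
  unfold pSwap
  rw [map_sub, map_sub, map_mul, map_mul, map_mul, map_mul, eval_C, eval_pN _ _ _ h0,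
    eval_pN _ _ _ h2, eval_pD, eval_pD]
  ring

/-- The main existence statement, for points `x` such that for the weights `1, 1, 0, 0, …` the
two last conditions hold. -/
theorem exists_gen_of (x : ι → ℚ) (hx : Function.Injective x) (i₀ i₁ i₂ : ι)
    (hdet : (C (x i₁ - x i₀) * (pF x i₂ - pF x i₀) -
      C (x i₂ - x i₀) * (pF x i₁ - pF x i₀) : MvPolynomial ι ℚ) ≠ 0)
    (hswap : pSwap x i₀ i₂ ≠ 0) (htot : Nonempty ι) :
    ∃ c : ι → ℚ, Gen c x i₀ i₁ i₂ := by
  classical
  let P1 : MvPolynomial ι ℚ := ∏ a, X a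
  let P2 : MvPolynomial ι ℚ := ∑ a, X a
  let P3 : MvPolynomial ι ℚ := ∏ q : ι × ι × ι × ι,
    if q.1 ≠ q.2.1 ∧ q.2.2.1 ≠ q.2.2.2 ∧ ¬ ((q.1 = q.2.2.1 ∧ q.2.1 = q.2.2.2) ∨
      (q.1 = q.2.2.2 ∧ q.2.1 = q.2.2.1)) then X q.1 * X q.2.1 - X q.2.2.1 * X q.2.2.2 else 1
  let P4 : MvPolynomial ι ℚ := ∏ S : Finset ι,
    if S ≠ univ ∧ (∃ a ∈ S, ∃ b ∈ S, a ≠ b) then pSub x S else 1
  have h1 : P1 ≠ 0 := prod_ne_zero_iff.2 fun a _ => X_ne_zero a
  have h2 : P2 ≠ 0 := by
    obtain ⟨a⟩ := htot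
    apply ne_zero_of_eval (ind {a})
    have : eval (ind {a}) P2 = ∑ i, ind {a} i * 1 := by
      simp only [P2, map_sum, eval_X, mul_one]
    rw [this, sum_ind]
    simp
  have h3 : P3 ≠ 0 := by
    refine prod_ne_zero_iff.2 fun q _ => ?_
    split_ifs with hq
    · obtain ⟨ha, hb, hc⟩ := hq
      apply ne_zero_of_eval (ind {q.1, q.2.1})
      rw [map_sub, map_mul, map_mul, eval_X, eval_X, eval_X, eval_X]
      have e1 : ind {q.1, q.2.1} q.1 = 1 := by simp [ind]
      have e2 : ind {q.1, q.2.1} q.2.1 = 1 := by simp [ind]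
      have e3 : ind {q.1, q.2.1} q.2.2.1 * ind {q.1, q.2.1} q.2.2.2 = 0 := by
        by_contra hne
        have hne1 := left_ne_zero_of_mul hne
        have hne2 := right_ne_zero_of_mul hne
        have m1 : q.2.2.1 ∈ ({q.1, q.2.1} : Finset ι) := by
          by_contra hm; exact hne1 (by simp only [ind, if_neg hm])
        have m2 : q.2.2.2 ∈ ({q.1, q.2.1} : Finset ι) := by
          by_contra hm; exact hne2 (by simp only [ind, if_neg hm])
        rw [mem_insert, mem_singleton] at m1 m2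
        rcases m1 with m1 | m1 <;> rcases m2 with m2 | m2
        · exact hb (m1.trans m2.symm)
        · exact hc (Or.inl ⟨m1.symm, m2.symm⟩)
        · exact hc (Or.inr ⟨m2.symm, m1.symm⟩)
        · exact hb (m1.trans m2.symm)
      rw [e1, e2, e3]; norm_num
    · exact one_ne_zero
  have h4 : P4 ≠ 0 := by
    refine prod_ne_zero_iff.2 fun S _ => ?_
    split_ifs with hS
    · exact pSub_ne x hx S hS.1 hS.2
    · exact one_ne_zero
  obtain ⟨c, hc⟩ := exists_eval_ne (mul_ne_zero (mul_ne_zero (mul_ne_zero (mul_ne_zero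
    (mul_ne_zero h1 h2) h3) h4) hdet) hswap)
  simp only [map_mul] at hc
  have c6 := right_ne_zero_of_mul hc
  have c5 := right_ne_zero_of_mul (left_ne_zero_of_mul hc)
  have c4 := right_ne_zero_of_mul (left_ne_zero_of_mul (left_ne_zero_of_mul hc))
  have c3 := right_ne_zero_of_mul (left_ne_zero_of_mul (left_ne_zero_of_mul
    (left_ne_zero_of_mul hc)))
  have c2 := right_ne_zero_of_mul (left_ne_zero_of_mul (left_ne_zero_of_mul
    (left_ne_zero_of_mul (left_ne_zero_of_mul hc))))
  have c1 := left_ne_zero_of_mul (left_ne_zero_of_mul (left_ne_zero_of_mul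
    (left_ne_zero_of_mul (left_ne_zero_of_mul hc))))
  refine ⟨c, hx, ?_, ?_, ?_, ?_, ?_, ?_⟩
  · intro a
    simp only [P1, map_prod, eval_X] at c1
    exact prod_ne_zero_iff.1 c1 a (mem_univ a)
  · simpa only [P2, map_sum, eval_X] using c2
  · intro a b a' b' hab hab' he
    by_contra hcon
    simp only [P3, map_prod] at c3
    have := prod_ne_zero_iff.1 c3 (a, b, a', b') (mem_univ _)
    rw [if_pos ⟨hab, hab', hcon⟩, map_sub, map_mul, map_mul, eval_X, eval_X, eval_X, eval_X] at this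
    exact this (sub_eq_zero.2 he)
  · intro S hS h2 he
    simp only [P4, map_prod] at c4
    have := prod_ne_zero_iff.1 c4 S (mem_univ _)
    rw [if_pos ⟨hS, h2⟩, eval_pSub] at this
    exact this (sub_eq_zero.2 he)
  · simp only [map_sub, map_mul, eval_C, eval_pF] at c5
    exact c5
  · intro hinj he
    have hne : ∀ a, ∀ l ∈ univ.erase a, force c x a - force c x l ≠ 0 := by
      intro a l hl h0
      exact (mem_erase.1 hl).1 (hinj (sub_eq_zero.1 h0)).symm
    rw [eval_pSwap _ _ _ _ (hne _) (hne _)] at c6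
    exact right_ne_zero_of_mul c6 (sub_eq_zero.2 he)

end exist

end Pool.Agent.W522.Mult
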