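import Mathlib

/-!
# Rational maps in terms of the fixed points
-/

set_option autoImplicit false

namespace Pool.Agent.W522.Mult

open Polynomial Finset

section ring

variable {R : Type*} [CommRing R] {m : ℕ}

/-- the product of the `X - x_k` with `k ≠ j` -/
noncomputable def NN (x : Fin m → R) (j : Fin m) : R[X] := ∏ k ∈ univ.erase j, (X - C (x k))

/-- the product of all the `X - x_k` -/
noncomputable def Nod (x : Fin m → R) : R[X] := ∏ k, (X - C (x k))

/-- the denominator -/
noncomputable def qpol (x v : Fin m → R) : R[X] := ∑ j, C (v j) * NN x j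

/-- the numerator -/
noncomputable def ppol (x v : Fin m → R) : R[X] := ∑ j, C (v j * x j) * NN x j

theorem mul_NN (x : Fin m → R) (j : Fin m) : (X - C (x j)) * NN x j = Nod x := by
  unfold NN Nod
  exact Finset.mul_prod_erase Finset.univ (fun k => (X - C (x k) : R[X])) (Finset.mem_univ j)

theorem NN_map {S : Type*} [CommRing S] (φ : R →+* S) (x : Fin m → R) (j : Fin m) :
    (NN x j).map φ = NN (fun k => φ (x k)) j := by
  unfold NN
  rw [Polynomial.map_prod]
  simp

theorem qpol_map {S : Type*} [CommRing S] (φ : R →+* S) (x v : Fin m → R) :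
    (qpol x v).map φ = qpol (fun k => φ (x k)) (fun k => φ (v k)) := by
  unfold qpol
  rw [Polynomial.map_sum]
  simp [NN_map]

theorem ppol_map {S : Type*} [CommRing S] (φ : R →+* S) (x v : Fin m → R) :
    (ppol x v).map φ = ppol (fun k => φ (x k)) (fun k => φ (v k)) := by
  unfold ppol
  rw [Polynomial.map_sum]
  simp [NN_map]

theorem NN_eval_ne (x : Fin m → R) {j k : Fin m} (h : k ≠ j) : (NN x j).eval (x k) = 0 := by
  unfold NN
  rw [Polynomial.eval_prod]
  exact Finset.prod_eq_zero (Finset.mem_erase.2 ⟨h, Finset.mem_univ k⟩) (by simp)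

theorem NN_monic (x : Fin m → R) (j : Fin m) : (NN x j).Monic :=
  Polynomial.monic_prod_of_monic _ _ fun _ _ => Polynomial.monic_X_sub_C _

theorem NN_natDegree [Nontrivial R] (x : Fin (m + 1) → R) (j : Fin (m + 1)) :
    (NN x j).natDegree = m := by
  unfold NN
  rw [Polynomial.natDegree_prod_of_monic _ _ fun k _ => Polynomial.monic_X_sub_C _]
  simp [Finset.card_erase_of_mem]

theorem NN_coeff [Nontrivial R] (x : Fin (m + 1) → R) (j : Fin (m + 1)) :
    (NN x j).coeff m = 1 := by
  have h := (NN_monic x j).coeff_natDegree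
  rwa [NN_natDegree] at h

end ring

variable {d : ℕ}

/-- The rational map `p / q` of degree `d`, in which all fixed points `x_j` are finite and simple,
with weights `w_j = 1 / (1 - multiplier)`. -/
structure Fix (d : ℕ) (p q : ℂ[X]) (x w : Fin (d + 1) → ℂ) : Prop where
  inj : Function.Injective x
  l0 : q.coeff d ≠ 0
  w0 : ∀ j, w j ≠ 0
  sum : ∑ j, w j = 1
  hq : q = qpol x (fun j => q.coeff d * w j)
  hp : p = ppol x (fun j => q.coeff d * w j)

theorem NN_eval_self {K : Type*} [Field K] {m : ℕ} {x : Fin m → K} (hx : Function.Injective x)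
    (j : Fin m) : (NN x j).eval (x j) ≠ 0 := by
  unfold NN
  rw [Polynomial.eval_prod]
  refine Finset.prod_ne_zero_iff.2 fun k hk => ?_
  simp only [Finset.mem_erase, Finset.mem_univ, and_true] at hk
  simp only [eval_sub, eval_X, eval_C]
  exact sub_ne_zero.2 fun h => hk (hx h).symm

theorem qpol_natDegree_le {R : Type*} [CommRing R] [Nontrivial R] (x v : Fin (d + 1) → R) :
    (qpol x v).natDegree ≤ d := by
  unfold qpol
  refine Polynomial.natDegree_sum_le_of_forall_le _ _ fun j _ => ?_
  refine (Polynomial.natDegree_C_mul_le _ _).trans ?_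
  rw [NN_natDegree]

theorem qpol_eval {R : Type*} [CommRing R] (x v : Fin (d + 1) → R) (k : Fin (d + 1)) :
    (qpol x v).eval (x k) = v k * (NN x k).eval (x k) := by
  unfold qpol
  rw [Polynomial.eval_finsetSum, Finset.sum_eq_single k]
  · simp
  · intro j _ hj
    rw [eval_mul, NN_eval_ne x hj.symm, mul_zero]
  · simp

theorem ppol_eq_qpol {R : Type*} [CommRing R] (x v : Fin (d + 1) → R) :
    ppol x v = qpol x (fun j => v j * x j) := rfl

theorem qpol_coeff {R : Type*} [CommRing R] [Nontrivial R] (x v : Fin (d + 1) → R) :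
    (qpol x v).coeff d = ∑ j, v j := by
  unfold qpol
  rw [Polynomial.finsetSum_coeff]
  refine Finset.sum_congr rfl fun j _ => ?_
  rw [Polynomial.coeff_C_mul, NN_coeff, mul_one]

/-- Existence of the normal form. -/
theorem exists_fix {p q : ℂ[X]} (hc : IsCoprime p q) (hp : p.natDegree ≤ d) (hq : q.natDegree ≤ d)
    (hl : q.coeff d ≠ 0)
    (hns : ¬ ∃ r, p.eval r = r * q.eval r ∧
      (derivative p).eval r = q.eval r + r * (derivative q).eval r) :
    ∃ x w, Fix d p q x w := by
  classical
  set R : ℂ[X] := X * q - p with hR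
  have hRc : R.coeff (d + 1) = q.coeff d := by
    rw [hR, coeff_sub, coeff_X_mul, coeff_eq_zero_of_natDegree_lt (p := p) (by omega), sub_zero]
  have hR0 : R ≠ 0 := by
    intro h
    rw [h, coeff_zero] at hRc
    exact hl hRc.symm
  have hRd : R.natDegree = d + 1 := by
    apply le_antisymm
    · rw [hR]
      refine (natDegree_sub_le _ _).trans (max_le ?_ (hp.trans (Nat.le_succ d)))
      refine natDegree_mul_le.trans ?_
      rw [natDegree_X]; omega
    · exact le_natDegree_of_ne_zero (by rw [hRc]; exact hl)
  have hnd : R.roots.Nodup := by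
    rw [Multiset.nodup_iff_count_le_one]
    intro a
    rw [count_roots]
    by_contra hlt
    push Not at hlt
    rw [one_lt_rootMultiplicity_iff_isRoot hR0] at hlt
    obtain ⟨h1, h2⟩ := hlt
    apply hns
    refine ⟨a, ?_, ?_⟩
    · simp only [hR, IsRoot, eval_sub, eval_mul, eval_X] at h1
      linear_combination -h1
    · simp only [hR, IsRoot, derivative_sub, derivative_mul, derivative_X, eval_sub, eval_add,
        eval_mul, eval_X, one_mul] at h2
      linear_combination -h2
  have hcard : R.roots.toFinset.card = d + 1 := by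
    rw [Multiset.toFinset_card_of_nodup hnd, ← hRd]
    exact (IsAlgClosed.splits R).natDegree_eq_card_roots.symm
  let E := R.roots.toFinset.equivFinOfCardEq hcard
  let x : Fin (d + 1) → ℂ := fun j => (E.symm j : ℂ)
  have hx : Function.Injective x := fun i j h => E.symm.injective (Subtype.ext h)
  have hroot : ∀ j, p.eval (x j) = x j * q.eval (x j) := by
    intro j
    have h1 : (E.symm j : ℂ) ∈ R.roots.toFinset := (E.symm j).2
    rw [Multiset.mem_toFinset, mem_roots hR0] at h1
    simp only [hR, IsRoot, eval_sub, eval_mul, eval_X] at h1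
    linear_combination -h1
  have hq0 : ∀ j, q.eval (x j) ≠ 0 := by
    intro j h
    obtain ⟨a, b, hab⟩ := hc
    have h1 := hroot j
    rw [h, mul_zero] at h1
    have h2 := congrArg (fun P => P.eval (x j)) hab
    simp only [eval_add, eval_mul, h, h1, mul_zero, add_zero, eval_one] at h2
    exact zero_ne_one h2
  let w : Fin (d + 1) → ℂ := fun j => q.eval (x j) / (q.coeff d * (NN x j).eval (x j))
  have hw : ∀ j, q.coeff d * w j * (NN x j).eval (x j) = q.eval (x j) := by
    intro j
    have h1 := NN_eval_self hx j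
    simp only [w]
    field_simp
  have key : ∀ g h : ℂ[X], g.natDegree ≤ d → h.natDegree ≤ d →
      (∀ j, g.eval (x j) = h.eval (x j)) → g = h := by
    intro g h hg hh hgh
    rw [← sub_eq_zero]
    refine eq_zero_of_natDegree_lt_card_of_eval_eq_zero (g - h) hx (fun j => ?_) ?_
    · rw [eval_sub, hgh, sub_self]
    · rw [Fintype.card_fin]
      exact Nat.lt_succ_of_le ((natDegree_sub_le _ _).trans (max_le hg hh))
  have hqq : q = qpol x (fun j => q.coeff d * w j) := by
    refine key _ _ hq (qpol_natDegree_le _ _) fun j => ?_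
    rw [qpol_eval, hw]
  refine ⟨x, w, hx, hl, ?_, ?_, hqq, ?_⟩
  · intro j
    exact div_ne_zero (hq0 j) (mul_ne_zero hl (NN_eval_self hx j))
  · have h1 : q.coeff d = (qpol x (fun j => q.coeff d * w j)).coeff d :=
      congrArg (fun P => P.coeff d) hqq
    rw [qpol_coeff, ← Finset.mul_sum] at h1
    exact (mul_left_cancel₀ hl (by rw [← h1, mul_one]))
  · refine key _ _ hp ?_ fun j => ?_
    · rw [ppol_eq_qpol]; exact qpol_natDegree_le _ _
    · rw [ppol_eq_qpol, qpol_eval, hroot, ← hw]
      ring

end Pool.Agent.W522.Mult
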