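import Pool.Agent.W522.Mult.Exist

/-!
# Dependence of the multipliers on the configuration
-/

set_option autoImplicit false

namespace Pool.Agent.W522.Mult

open Finset

variable {K : Type*} [Field K] {ι : Type*} [Fintype ι] [DecidableEq ι]
variable {Γ₀ : Type*} [LinearOrderedCommGroupWithZero Γ₀] (v : Valuation K Γ₀)

/-- Two integral elements at distance at most `g`. -/
def Cl (g : Γ₀) (p' p : K) : Prop := v p' ≤ 1 ∧ v p ≤ 1 ∧ v (p' - p) ≤ g

variable {v} {g : Γ₀} {p' p q' q : K}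

lemma Cl.add (h : Cl v g p' p) (k : Cl v g q' q) : Cl v g (p' + q') (p + q) := by
  refine ⟨v_add v h.1 k.1, v_add v h.2.1 k.2.1, ?_⟩
  have : p' + q' - (p + q) = (p' - p) + (q' - q) := by ring
  rw [this]; exact v_add v h.2.2 k.2.2

lemma Cl.sub (h : Cl v g p' p) (k : Cl v g q' q) : Cl v g (p' - q') (p - q) := by
  refine ⟨v_sub v h.1 k.1, v_sub v h.2.1 k.2.1, ?_⟩
  have : p' - q' - (p - q) = (p' - p) - (q' - q) := by ring
  rw [this]; exact v_sub v h.2.2 k.2.2

lemma Cl.mul (h : Cl v g p' p) (k : Cl v g q' q) : Cl v g (p' * q') (p * q) := by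
  refine ⟨v_mul v h.1 k.1, v_mul v h.2.1 k.2.1, ?_⟩
  have : p' * q' - p * q = (p' - p) * q' + p * (q' - q) := by ring
  rw [this]; exact v_add v (v_mul_le v h.2.2 k.1) (v_mul_le' v h.2.1 k.2.2)

lemma Cl.const (h : v p ≤ 1) : Cl v g p p := ⟨h, h, by simp⟩

lemma Cl.sq (h : Cl v g p' p) : Cl v g (p' ^ 2) (p ^ 2) := by
  rw [pow_two, pow_two]; exact h.mul h

lemma Cl.inv (h1 : 1 ≤ v p') (h2 : 1 ≤ v p) (h : v (p' - p) ≤ g) : Cl v g p'⁻¹ p⁻¹ := by
  refine ⟨v_inv v h1, v_inv v h2, ?_⟩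
  have h1' : p' ≠ 0 := by
    rintro rfl; rw [map_zero] at h1; exact absurd h1 (not_le.2 zero_lt_one)
  have h2' : p ≠ 0 := by
    rintro rfl; rw [map_zero] at h2; exact absurd h2 (not_le.2 zero_lt_one)
  have : p'⁻¹ - p⁻¹ = -(p' - p) * (p'⁻¹ * p⁻¹) := by field_simp; ring
  rw [this]
  refine v_mul_le v ?_ (v_mul v (v_inv v h1) (v_inv v h2))
  rw [v.map_neg]; exact h

lemma Cl.sum {S : Finset ι} {f' f : ι → K} (h : ∀ k ∈ S, Cl v g (f' k) (f k)) :
    Cl v g (∑ k ∈ S, f' k) (∑ k ∈ S, f k) := by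
  refine ⟨v.map_sum_le fun k hk => (h k hk).1, v.map_sum_le fun k hk => (h k hk).2.1, ?_⟩
  rw [← sum_sub_distrib]
  exact v.map_sum_le fun k hk => (h k hk).2.2

variable (v)

/-- Data of two near configurations and an index `a`. -/
structure Near (g : Γ₀) (c x' x : ι → K) (a : ι) : Prop where
  hc : ∀ k, v (c k) ≤ 1
  hx : ∀ k, k ≠ a → 1 ≤ v (x a - x k)
  hx' : ∀ k, k ≠ a → 1 ≤ v (x' a - x' k)
  hxx : ∀ k, v (x' k - x k) ≤ g

variable {v}

lemma Near.diff {c x' x : ι → K} {a : ι} (h : Near v g c x' x a) (k : ι) :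
    v (x' a - x' k - (x a - x k)) ≤ g := by
  have : x' a - x' k - (x a - x k) = (x' a - x a) - (x' k - x k) := by ring
  rw [this]; exact v_sub v (h.hxx a) (h.hxx k)

lemma Near.inv1 {c x' x : ι → K} {a : ι} (h : Near v g c x' x a) (k : ι) (hk : k ≠ a) :
    Cl v g (x' a - x' k)⁻¹ (x a - x k)⁻¹ :=
  Cl.inv (h.hx' k hk) (h.hx k hk) (h.diff k)

lemma Near.inv2 {c x' x : ι → K} {a : ι} (h : Near v g c x' x a) {e' e : K} (he' : v e' < 1)
    (he : v e < 1) (hee : v (e' - e) ≤ g) (k : ι) (hk : k ≠ a) :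
    Cl v g (x' a + e' - x' k)⁻¹ (x a + e - x k)⁻¹ := by
  refine Cl.inv ?_ ?_ ?_
  · rw [far v h.hx' he' k hk]; exact h.hx' k hk
  · rw [far v h.hx he k hk]; exact h.hx k hk
  · have : x' a + e' - x' k - (x a + e - x k) = (x' a - x' k - (x a - x k)) + (e' - e) := by ring
    rw [this]; exact v_add v (h.diff k) hee

lemma Near.sS {c x' x : ι → K} {a : ι} (h : Near v g c x' x a) {e' e : K} (he' : v e' < 1)
    (he : v e < 1) (hee : v (e' - e) ≤ g) :
    Cl v g (sS c x' a (x' a + e')) (sS c x a (x a + e)) :=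
  Cl.sum fun k hk => (Cl.const (h.hc k)).mul (h.inv2 he' he hee k (mem_erase.1 hk).1)

lemma Near.sT {c x' x : ι → K} {a : ι} (h : Near v g c x' x a) {e' e : K} (he' : v e' < 1)
    (he : v e < 1) (hee : v (e' - e) ≤ g) :
    Cl v g (sT c x' a (x' a + e')) (sT c x a (x a + e)) :=
  Cl.sum fun k hk => (Cl.const (h.hc k)).mul (h.inv2 he' he hee k (mem_erase.1 hk).1).sq

lemma Near.sM {c x' x : ι → K} {a : ι} (h : Near v g c x' x a) {e' e : K} (he' : v e' < 1)
    (he : v e < 1) (hee : v (e' - e) ≤ g) :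
    Cl v g (sM c x' a (x' a + e')) (sM c x a (x a + e)) :=
  Cl.sum fun k hk => ((Cl.const (h.hc k)).mul (h.inv2 he' he hee k (mem_erase.1 hk).1)).mul
    (h.inv1 k (mem_erase.1 hk).1)

lemma Near.force {c x' x : ι → K} {a : ι} (h : Near v g c x' x a) :
    Cl v g (force c x' a) (force c x a) := by
  rw [force_eq, force_eq]
  exact Cl.sum fun k hk => (Cl.const (h.hc k)).mul (h.inv1 k (mem_erase.1 hk).1)

lemma Near.rem {c x' x : ι → K} {a : ι} (h : Near v g c x' x a) {ε u' u w' w D' D : K}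
    (hε : v ε < 1) (hu : Cl v g u' u) (hw : Cl v g w' w) (hD : Cl v g D' D) :
    Cl v g (rem c x' a ε u' w' D') (rem c x a ε u w D) := by
  have he : v (ε * u) < 1 := by
    rw [map_mul]; exact lt_of_le_of_lt (mul_le_of_le_one_right' hu.2.1) hε
  have he' : v (ε * u') < 1 := by
    rw [map_mul]; exact lt_of_le_of_lt (mul_le_of_le_one_right' hu.1) hε
  have hεc : Cl v g ε ε := Cl.const hε.le
  have h2 : Cl v g (2 : K) 2 := Cl.const (v_two v)
  have hee : v (ε * u' - ε * u) ≤ g := (hεc.mul hu).2.2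
  have h1 := h.sS he' he hee
  have h3 := h.sT he' he hee
  have h4 := h.sM he' he hee
  unfold Mult.rem
  exact (((hD.add (hεc.mul (hu.sub hw))).sq.mul (h1.sq.add ((Cl.const (h.hc a)).mul h3))).sub
    ((h2.mul (hu.sub hw)).mul h1)).add (((h2.mul hD).mul hu).mul h4)

lemma Near.remT {c x' x : ι → K} {a b : ι} (h : Near v g c x' x a) (k : Near v g c x' x b)
    {ε u' u w' w : K} (hε : v ε < 1) (hu : Cl v g u' u) (hw : Cl v g w' w)
    (hD : Cl v g (x' a - x' b) (x a - x b)) :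
    Cl v g (remT c x' a b ε u' w') (remT c x a b ε u w) := by
  have hD' : Cl v g (x' b - x' a) (x b - x a) := by
    have := (Cl.const (g := g) (p := (0 : K)) (v := v) (by simp)).sub hD
    simpa using this
  have r1 := h.rem hε hu hw hD
  have r2 := k.rem hε hw hu hD'
  have h2 : Cl v g (2 : K) 2 := Cl.const (v_two v)
  have hεc : Cl v g ε ε := Cl.const hε.le
  have f1 := (Cl.const (h.hc a)).add ((h2.mul hD).mul h.force)
  have f2 := (Cl.const (h.hc b)).add ((h2.mul hD').mul k.force)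
  unfold Mult.remT
  exact (((r1.add r2).add (f1.mul f2)).sub (hεc.mul ((f1.mul r2).add (f2.mul r1)))).add
    (hεc.sq.mul (r1.mul r2))

/-- the equation satisfied by the position of a point of a cycle -/
lemma pos_eq (c x : ι → K) (a : ι) {ε u y : K} (hε : ε ≠ 0) (hu : u ≠ 0)
    (h : (∑ k, ε * c k / (x a + ε * u - x k)) * (x a + ε * u - y) = 1) :
    (x a + ε * u - y) * (c a + ε * u * sS c x a (x a + ε * u)) = u := by
  rw [sum_div_eq c x a] at h
  have e1 : x a + ε * u - x a = ε * u := by ring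
  rw [e1] at h
  have : ε * (c a / (ε * u) + sS c x a (x a + ε * u)) =
      (c a + ε * u * sS c x a (x a + ε * u)) / u := by
    field_simp
  rw [this] at h
  field_simp at h
  linear_combination h

lemma Near.pos {c x' x : ι → K} {a b : ι} (h : Near v g c x' x a) {G : Γ₀} (hgG : g ≤ G)
    {ε u' u w' w : K} (hε0 : ε ≠ 0) (hε : v ε < 1) (hu0 : u ≠ 0) (hu0' : u' ≠ 0)
    (hu : v u ≤ 1) (hu' : v u' ≤ 1) (hw : v w ≤ 1) (hw' : v w' ≤ 1)
    (hD : Cl v g (x' a - x' b) (x a - x b))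
    (hxb : v (x' b - x b) ≤ g)
    (huG : v (ε * (u' - u)) ≤ G) (hwG : v (ε * (w' - w)) ≤ G)
    (e : (∑ k, ε * c k / (x a + ε * u - x k)) * (x a + ε * u - (x b + ε * w)) = 1)
    (e' : (∑ k, ε * c k / (x' a + ε * u' - x' k)) * (x' a + ε * u' - (x' b + ε * w')) = 1) :
    v (u' - u) ≤ G := by
  have he : v (ε * u) < 1 := by
    rw [map_mul]; exact lt_of_le_of_lt (mul_le_of_le_one_right' hu) hε
  have he' : v (ε * u') < 1 := by
    rw [map_mul]; exact lt_of_le_of_lt (mul_le_of_le_one_right' hu') hε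
  have hG : Near v G c x' x a := ⟨h.hc, h.hx, h.hx', fun k => (h.hxx k).trans hgG⟩
  have heu : Cl v G (ε * u') (ε * u) := ⟨he'.le, he.le, by rw [← mul_sub]; exact huG⟩
  have hew : Cl v G (ε * w') (ε * w) := by
    refine ⟨v_mul v hε.le hw', v_mul v hε.le hw, by rw [← mul_sub]; exact hwG⟩
  have hDG : Cl v G (x' a - x' b) (x a - x b) := ⟨hD.1, hD.2.1, hD.2.2.trans hgG⟩
  have hs := hG.sS he' he heu.2.2
  have p1 := pos_eq c x a hε0 hu0 e
  have p2 := pos_eq c x' a hε0 hu0' e'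
  have hA : Cl v G (x' a + ε * u' - (x' b + ε * w')) (x a + ε * u - (x b + ε * w)) := by
    have := (hDG.add heu).sub hew
    have e1 : x' a + ε * u' - (x' b + ε * w') = x' a - x' b + ε * u' - ε * w' := by ring
    have e2 : x a + ε * u - (x b + ε * w) = x a - x b + ε * u - ε * w := by ring
    rw [e1, e2]; exact this
  have hfin := hA.mul ((Cl.const (h.hc a)).add (heu.mul hs))
  rw [p1, p2] at hfin
  exact hfin.2.2

lemma IsCycle.symm' {w x : ι → K} {z y : K} (h : IsCycle w x z y) : IsCycle w x y z :=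
  ⟨h.2.1, h.1, h.2.2.2, h.2.2.1⟩

lemma IsCycle.ne_zero {c x : ι → K} {a : ι} {ε u y : K}
    (h : IsCycle (fun k => ε * c k) x (x a + ε * u) y) : u ≠ 0 := by
  rintro rfl
  exact h.1 a (by ring)

/-- Lipschitz dependence of the positions. -/
lemma Near.pos_both {c x' x : ι → K} {a b : ι} (h : Near v g c x' x a) (k : Near v g c x' x b)
    {ε u' u w' w : K} (hε0 : ε ≠ 0) (hε : v ε < 1)
    (hu : v u ≤ 1) (hu' : v u' ≤ 1) (hw : v w ≤ 1) (hw' : v w' ≤ 1)
    (hD : Cl v g (x' a - x' b) (x a - x b))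
    (e : IsCycle (fun k => ε * c k) x (x a + ε * u) (x b + ε * w))
    (e' : IsCycle (fun k => ε * c k) x' (x' a + ε * u') (x' b + ε * w')) :
    Cl v g u' u ∧ Cl v g w' w := by
  have hD' : Cl v g (x' b - x' a) (x b - x a) := by
    have := (Cl.const (g := g) (p := (0 : K)) (v := v) (by simp)).sub hD
    simpa using this
  have hu0 := e.ne_zero
  have hu0' := e'.ne_zero
  have hw0 := e.symm'.ne_zero
  have hw0' := e'.symm'.ne_zero
  by_contra hcon
  have hlt : g < max (v (u' - u)) (v (w' - w)) := by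
    by_contra hle
    push Not at hle
    exact hcon ⟨⟨hu', hu, (le_max_left _ _).trans hle⟩, ⟨hw', hw, (le_max_right _ _).trans hle⟩⟩
  set ρ := max (v (u' - u)) (v (w' - w)) with hρ
  have hρ0 : 0 < ρ := lt_of_le_of_lt zero_le hlt
  set G := max g (v ε * ρ) with hG
  have huG : v (ε * (u' - u)) ≤ G := by
    rw [map_mul]
    exact (mul_le_mul' le_rfl (le_max_left _ _)).trans (le_max_right _ _)
  have hwG : v (ε * (w' - w)) ≤ G := by
    rw [map_mul]
    exact (mul_le_mul' le_rfl (le_max_right _ _)).trans (le_max_right _ _)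
  have k1 := h.pos (le_max_left _ _) hε0 hε hu0 hu0' hu hu' hw hw' hD (h.hxx b) huG hwG
    e.2.2.1 e'.2.2.1
  have k2 := k.pos (le_max_left _ _) hε0 hε hw0 hw0' hw hw' hu hu' hD' (h.hxx a) hwG huG
    e.2.2.2 e'.2.2.2
  have k3 : ρ ≤ G := max_le k1 k2
  have k4 : v ε * ρ < ρ := by
    calc v ε * ρ < 1 * ρ := mul_lt_mul_of_pos_right hε hρ0
      _ = ρ := one_mul _
  exact absurd k3 (not_le.2 (max_lt hlt k4))

/-- If two near configurations have cycles at `(a, b)` with the same multiplier, the numbers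
`T` are nearer. -/
theorem Near.T_close {c x' x : ι → K} {a b : ι} (h : Near v g c x' x a) (k : Near v g c x' x b)
    (h2 : v (2 : K) = 1)
    {ε u' u w' w : K} (hε0 : ε ≠ 0) (hε : v ε < 1)
    (hu : v u ≤ 1) (hu' : v u' ≤ 1) (hw : v w ≤ 1) (hw' : v w' ≤ 1)
    (hD : Cl v g (x' a - x' b) (x a - x b))
    (e : IsCycle (fun k => ε * c k) x (x a + ε * u) (x b + ε * w))
    (e' : IsCycle (fun k => ε * c k) x' (x' a + ε * u') (x' b + ε * w'))
    (hm : mult (fun k => ε * c k) x (x a + ε * u) (x b + ε * w) =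
      mult (fun k => ε * c k) x' (x' a + ε * u') (x' b + ε * w')) :
    v (T c x' a b - T c x a b) ≤ v ε * g := by
  obtain ⟨hu1, hw1⟩ := h.pos_both k hε0 hε hu hu' hw hw' hD e e'
  have hr := h.remT k hε hu1 hw1 hD
  have he : ∀ t : K, v t ≤ 1 → v (ε * t) < 1 := by
    intro t ht
    rw [map_mul]; exact lt_of_le_of_lt (mul_le_of_le_one_right' ht) hε
  have nz : ∀ t : K, 1 ≤ v t → t ≠ 0 := by
    rintro t ht rfl
    rw [map_zero] at ht; exact absurd ht (not_le.2 zero_lt_one)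
  have m1 := mult_expand c x a b hε0 e.ne_zero e.symm'.ne_zero (fun i hi => nz _ (h.hx i hi))
    (fun i hi => nz _ (by rw [far v h.hx (he u hu) i hi]; exact h.hx i hi))
    (fun i hi => nz _ (k.hx i hi))
    (fun i hi => nz _ (by rw [far v k.hx (he w hw) i hi]; exact k.hx i hi)) e
  have m2 := mult_expand c x' a b hε0 e'.ne_zero e'.symm'.ne_zero
    (fun i hi => nz _ (h.hx' i hi))
    (fun i hi => nz _ (by rw [far v h.hx' (he u' hu') i hi]; exact h.hx' i hi))
    (fun i hi => nz _ (k.hx' i hi))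
    (fun i hi => nz _ (by rw [far v k.hx' (he w' hw') i hi]; exact k.hx' i hi)) e'
  rw [← hm, m1] at m2
  have key : 2 * (T c x' a b - T c x a b) =
      ε * (Mult.remT c x' a b ε u' w' - Mult.remT c x a b ε u w) := by
    have : ε * (2 * (T c x' a b - T c x a b)) =
        ε * (ε * (Mult.remT c x' a b ε u' w' - Mult.remT c x a b ε u w)) := by
      linear_combination m2
    exact mul_left_cancel₀ hε0 this
  have := congrArg v key
  rw [map_mul, h2, one_mul] at this
  rw [this, map_mul]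
  exact mul_le_mul' le_rfl hr.2.2

end Pool.Agent.W522.Mult
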