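import Pool.Agent.W522.Mult.Expand

/-!
# Location of the cycles of a nondegenerate configuration
-/

set_option autoImplicit false

namespace Pool.Agent.W522.Mult

open Finset

variable {K : Type*} [Field K] {ι : Type*} [Fintype ι] [DecidableEq ι]
variable {Γ₀ : Type*} [LinearOrderedCommGroupWithZero Γ₀] (v : Valuation K Γ₀)

lemma big {c x : ι → K} (hc : ∀ k, v (c k) ≤ 1) (htot : v (∑ k, c k) = 1)
    (hx1 : ∀ k, v (x k) ≤ 1) {ε z A : K} (hz : 1 < v z)
    (h : (∑ k, ε * c k / (z - x k)) * A = 1) : v ε * v A = v z := by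
  have hz0 : z ≠ 0 := by
    rintro rfl
    rw [map_zero] at hz
    exact absurd hz (not_lt.2 zero_le')
  have hd : ∀ k, v (z - x k) = v z := fun k =>
    v.map_sub_eq_of_lt_left ((hx1 k).trans_lt hz)
  have hd0 : ∀ k, z - x k ≠ 0 := by
    intro k hk
    have := hd k
    rw [hk, map_zero] at this
    rw [← this] at hz
    exact absurd hz (not_lt.2 zero_le')
  have e1 : z * ∑ k, c k / (z - x k) = ∑ k, c k + ∑ k, c k * x k / (z - x k) := by
    rw [mul_sum, ← sum_add_distrib]
    refine sum_congr rfl fun k _ => ?_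
    have := hd0 k
    field_simp
    ring
  have e2 : v (∑ k, c k * x k / (z - x k)) < 1 := by
    refine v.map_sum_lt one_ne_zero fun k _ => ?_
    rw [map_div₀, map_mul, hd k]
    have hvz : 0 < v z := lt_trans zero_lt_one hz
    rw [div_lt_one₀ hvz]
    exact (mul_le_one' (hc k) (hx1 k)).trans_lt hz
  have e3 : v (z * ∑ k, c k / (z - x k)) = 1 := by
    rw [e1, v.map_add_eq_of_lt_left (by rw [htot]; exact e2), htot]
  have e4 : ∑ k, ε * c k / (z - x k) = ε * ∑ k, c k / (z - x k) := by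
    rw [mul_sum]; exact sum_congr rfl fun k _ => by ring
  rw [e4] at h
  have e5 : v ε * v (∑ k, c k / (z - x k)) * v A = 1 := by
    rw [← map_mul, ← map_mul, h, map_one]
  rw [map_mul] at e3
  calc v ε * v A = (v z * v (∑ k, c k / (z - x k))) * (v ε * v A) := by rw [e3, one_mul]
    _ = v z * (v ε * v (∑ k, c k / (z - x k)) * v A) := by
        rw [mul_assoc, mul_assoc, mul_left_comm (v (∑ k, c k / (z - x k)))]
    _ = v z := by rw [e5, mul_one]

lemma near {c x : ι → K} (hc : ∀ k, v (c k) ≤ 1) {ε z A : K} (hA : v A ≤ 1)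
    (h : (∑ k, ε * c k / (z - x k)) * A = 1) : ∃ a, v (z - x a) ≤ v ε := by
  by_contra hcon
  push Not at hcon
  have h1 : v (∑ k, ε * c k / (z - x k)) < 1 := by
    refine v.map_sum_lt one_ne_zero fun k _ => ?_
    have h2 : 0 < v (z - x k) := lt_of_le_of_lt zero_le' (hcon k)
    rw [map_div₀, map_mul, div_lt_one₀ h2]
    exact lt_of_le_of_lt (mul_le_of_le_one_right' (hc k)) (hcon k)
  have h3 : v ((∑ k, ε * c k / (z - x k)) * A) < 1 := by
    rw [map_mul]
    exact lt_of_le_of_lt (mul_le_of_le_one_right' hA) h1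
  rw [h, map_one] at h3
  exact lt_irrefl _ h3

lemma size {c x : ι → K} (hc : ∀ k, v (c k) ≤ 1) {a : ι} (hca : v (c a) = 1)
    (hx : ∀ k, k ≠ a → 1 ≤ v (x a - x k)) {ε z A : K} (hε : v ε < 1) (hA : v A ≤ 1)
    (hz : v (z - x a) ≤ v ε) (hza : z ≠ x a)
    (h : (∑ k, ε * c k / (z - x k)) * A = 1) : v (z - x a) = v ε * v A := by
  have hs : v (sS c x a z) ≤ 1 := by
    have := sS_le v hc hx (e := z - x a) (hz.trans_lt hε)
    rwa [add_sub_cancel] at this
  rw [sum_div_eq c x a] at h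
  have h0 : z - x a ≠ 0 := sub_ne_zero.2 hza
  have e1 : c a * (ε * A) = (z - x a) * (1 - ε * A * sS c x a z) := by
    field_simp at h
    linear_combination h
  have e2 : v (1 - ε * A * sS c x a z) = 1 := by
    rw [v.map_sub_eq_of_lt_left, map_one]
    rw [map_one, map_mul, map_mul]
    calc v ε * v A * v (sS c x a z) ≤ v ε * 1 * 1 := mul_le_mul' (mul_le_mul' le_rfl hA) hs
      _ = v ε := by simp
      _ < 1 := hε
  have e3 := congrArg v e1
  rw [map_mul, map_mul, map_mul, hca, one_mul, e2, mul_one] at e3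
  exact e3.symm

/-- All cycles of period two of a nondegenerate configuration. -/
theorem locate {c x : ι → K} (hc : ∀ k, v (c k) = 1) (htot : v (∑ k, c k) = 1)
    (hx1 : ∀ k, v (x k) ≤ 1) (hx : ∀ a k, k ≠ a → 1 ≤ v (x a - x k)) {ε : K} (hε0 : ε ≠ 0)
    (hε : v ε < 1) {z y : K} (h : IsCycle (fun k => ε * c k) x z y) :
    ∃ a b, a ≠ b ∧ ∃ u w, z = x a + ε * u ∧ y = x b + ε * w ∧ v u ≤ 1 ∧ v w ≤ 1 := by
  obtain ⟨h1, h2, h3, h4⟩ := h
  have hc' : ∀ k, v (c k) ≤ 1 := fun k => (hc k).le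
  have hvε : 0 < v ε := by
    rw [← map_zero v]
    exact lt_of_le_of_ne (by rw [map_zero]; exact zero_le')
      (by rw [map_zero]; exact ((v.ne_zero_iff).2 hε0).symm)
  have hzy : z - y ≠ 0 := by
    intro h0; rw [h0, mul_zero] at h3; exact zero_ne_one h3
  have hvA : 0 < v (z - y) := lt_of_le_of_ne zero_le' ((v.ne_zero_iff).2 hzy).symm
  have hyz : v (y - z) = v (z - y) := v.map_sub_swap y z
  have lt1 : v ε * v (z - y) < v (z - y) := by
    calc v ε * v (z - y) < 1 * v (z - y) := mul_lt_mul_of_pos_right hε hvA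
      _ = v (z - y) := one_mul _
  have key : ∀ z y : K, z - y ≠ 0 → (∑ k, ε * c k / (z - x k)) * (z - y) = 1 →
      (∑ k, ε * c k / (y - x k)) * (y - z) = 1 → v ε * v (z - y) < v (z - y) → v z ≤ 1 := by
    intro z y hzy h3 h4 lt1
    by_contra hz
    push Not at hz
    have e1 := big v hc' htot hx1 hz h3
    have hzA : v z < v (z - y) := by rw [← e1]; exact lt1
    have hyA : v y = v (z - y) := by
      have hy : v z < v y := by
        by_contra hy
        push Not at hy
        exact absurd (v_sub v le_rfl hy) (not_le.2 hzA)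
      rw [v.map_sub_eq_of_lt_right hy]
    have e2 := big v hc' htot hx1 (hz.trans (hzA.trans_eq hyA.symm)) h4
    rw [v.map_sub_swap y z, hyA] at e2
    exact lt_irrefl _ (e2 ▸ lt1)
  have hz1 : v z ≤ 1 := key z y hzy h3 h4 lt1
  have hy1 : v y ≤ 1 := key y z (by rwa [← neg_sub, neg_ne_zero]) h4 h3 (by rwa [hyz])
  have hA1 : v (z - y) ≤ 1 := v_sub v hz1 hy1
  obtain ⟨a, ha⟩ := near v hc' hA1 h3
  obtain ⟨b, hb⟩ := near v hc' (by rwa [hyz]) h4
  refine ⟨a, b, ?_, (z - x a) / ε, (y - x b) / ε, by field_simp; ring, by field_simp; ring, ?_, ?_⟩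
  · rintro rfl
    have e1 := size v hc' (hc a) (hx a) hε hA1 ha (h1 a) h3
    have e2 := size v hc' (hc a) (hx a) hε (by rwa [hyz]) hb (h2 a) h4
    have e3 : z - y = (z - x a) - (y - x a) := by ring
    have e4 : v (z - y) ≤ v ε * v (z - y) := by
      conv_lhs => rw [e3]
      exact v_sub v e1.le (by rw [e2, hyz])
    exact absurd lt1 (not_lt.2 e4)
  · rw [map_div₀]; exact (div_le_one₀ hvε).2 ha
  · rw [map_div₀]; exact (div_le_one₀ hvε).2 hb

end Pool.Agent.W522.Mult
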