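import Pool.Agent.W522.Mult.Defs

/-!
# Moving one fixed point to infinity
-/

set_option autoImplicit false

namespace Pool.Agent.W522.Mult

open Finset

variable {K : Type*} [Field K] {d : ℕ}

/-- the normalised points -/
def nx (x : Fin (d + 1) → K) (i : Fin d) : K := (x i.succ - x 0)⁻¹

theorem nx_inj {x : Fin (d + 1) → K} (hx : Function.Injective x) :
    Function.Injective (nx x) := by
  intro i j hij
  unfold nx at hij
  have h1 := inv_injective hij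
  have h2 : x i.succ = x j.succ := by linear_combination h1
  exact Fin.succ_injective _ (hx h2)

theorem norm_term {x : Fin (d + 1) → K} (hx : Function.Injective x) {Z : K}
    (hZ : ∀ j, Z ≠ x j) (i : Fin d) :
    ((Z - x 0)⁻¹ - nx x i)⁻¹ = (Z - x 0) * (1 - (Z - x 0) / (Z - x i.succ)) := by
  have h0 : Z - x 0 ≠ 0 := sub_ne_zero.2 (hZ 0)
  have h1 : Z - x i.succ ≠ 0 := sub_ne_zero.2 (hZ _)
  have h2 : x i.succ - x 0 ≠ 0 := sub_ne_zero.2 fun h => Fin.succ_ne_zero i (hx h)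
  unfold nx
  have h3 : (Z - x 0)⁻¹ - (x i.succ - x 0)⁻¹ =
      -(Z - x i.succ) / ((Z - x 0) * (x i.succ - x 0)) := by
    field_simp; ring
  rw [h3, inv_div]
  field_simp
  ring

theorem sum_eq {w : Fin (d + 1) → K} (hw : ∑ j, w j = 1) : ∑ i : Fin d, w i.succ = 1 - w 0 := by
  rw [Fin.sum_univ_succ] at hw
  linear_combination hw

theorem norm_sum {x w : Fin (d + 1) → K} (hx : Function.Injective x) (hw : ∑ j, w j = 1) {Z : K}
    (hZ : ∀ j, Z ≠ x j) :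
    ∑ i : Fin d, w i.succ / ((Z - x 0)⁻¹ - nx x i) =
      (Z - x 0) * (1 - (Z - x 0) * ∑ j, w j / (Z - x j)) := by
  have h0 : Z - x 0 ≠ 0 := sub_ne_zero.2 (hZ 0)
  have h1 : ∀ i : Fin d, w i.succ / ((Z - x 0)⁻¹ - nx x i) =
      (Z - x 0) * w i.succ - (Z - x 0) ^ 2 * (w i.succ / (Z - x i.succ)) := by
    intro i
    rw [div_eq_mul_inv, norm_term hx hZ]
    ring
  rw [Finset.sum_congr rfl fun i _ => h1 i, Finset.sum_sub_distrib, ← Finset.mul_sum,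
    ← Finset.mul_sum, sum_eq hw, Fin.sum_univ_succ]
  field_simp
  ring

theorem norm_sum2 {x w : Fin (d + 1) → K} (hx : Function.Injective x) (hw : ∑ j, w j = 1) {Z : K}
    (hZ : ∀ j, Z ≠ x j) :
    ∑ i : Fin d, w i.succ / ((Z - x 0)⁻¹ - nx x i) ^ 2 =
      (Z - x 0) ^ 2 * (1 - 2 * (Z - x 0) * ∑ j, w j / (Z - x j) +
        (Z - x 0) ^ 2 * ∑ j, w j / (Z - x j) ^ 2) := by
  have h0 : Z - x 0 ≠ 0 := sub_ne_zero.2 (hZ 0)
  have h1 : ∀ i : Fin d, w i.succ / ((Z - x 0)⁻¹ - nx x i) ^ 2 =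
      (Z - x 0) ^ 2 * w i.succ - 2 * (Z - x 0) ^ 3 * (w i.succ / (Z - x i.succ)) +
        (Z - x 0) ^ 4 * (w i.succ / (Z - x i.succ) ^ 2) := by
    intro i
    have h2 : Z - x i.succ ≠ 0 := sub_ne_zero.2 (hZ _)
    rw [div_eq_mul_inv, ← inv_pow, norm_term hx hZ]
    generalize Z - x 0 = B
    generalize Z - x i.succ = A at h2
    field_simp
    ring
  rw [Finset.sum_congr rfl fun i _ => h1 i, Finset.sum_add_distrib, Finset.sum_sub_distrib,
    ← Finset.mul_sum, ← Finset.mul_sum, ← Finset.mul_sum, sum_eq hw,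
    Fin.sum_univ_succ (fun j => w j / (Z - x j)), Fin.sum_univ_succ (fun j => w j / (Z - x j) ^ 2)]
  field_simp
  ring

/-- one half of the equations -/
theorem norm_half {x w : Fin (d + 1) → K} (hx : Function.Injective x) (hw : ∑ j, w j = 1) {Z Y : K}
    (hZ : ∀ j, Z ≠ x j) (hY : Y ≠ x 0) :
    (∑ i : Fin d, w i.succ / ((Z - x 0)⁻¹ - nx x i)) * ((Z - x 0)⁻¹ - (Y - x 0)⁻¹) = 1 ↔
      (∑ j, w j / (Z - x j)) * (Z - Y) = 1 := by
  have h0 : Z - x 0 ≠ 0 := sub_ne_zero.2 (hZ 0)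
  have h1 : Y - x 0 ≠ 0 := sub_ne_zero.2 hY
  rw [norm_sum hx hw hZ]
  set S := ∑ j, w j / (Z - x j)
  have h2 : (Z - x 0) * (1 - (Z - x 0) * S) * ((Z - x 0)⁻¹ - (Y - x 0)⁻¹) - 1 =
      (Z - x 0) * (S * (Z - Y) - 1) / (Y - x 0) := by
    field_simp; ring
  constructor
  · intro h
    rw [h, sub_self, eq_comm, div_eq_zero_iff] at h2
    rcases h2 with h2 | h2
    · rcases mul_eq_zero.1 h2 with h3 | h3
      · exact absurd h3 h0
      · linear_combination h3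
    · exact absurd h2 h1
  · intro h
    rw [h, sub_self, mul_zero, zero_div] at h2
    linear_combination h2

theorem nx_ne_iff {x : Fin (d + 1) → K} {Z : K} (hZ : Z ≠ x 0) :
    (∀ i, (Z - x 0)⁻¹ ≠ nx x i) ↔ ∀ j, Z ≠ x j := by
  constructor
  · intro h j
    refine Fin.cases hZ (fun i hi => ?_) j
    apply h i
    rw [hi]; rfl
  · intro h i hi
    unfold nx at hi
    have h1 := inv_injective hi
    exact h i.succ (by linear_combination h1)

theorem norm_cycle {x w : Fin (d + 1) → K} (hx : Function.Injective x) (hw : ∑ j, w j = 1) {Z Y : K}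
    (hZ : Z ≠ x 0) (hY : Y ≠ x 0) :
    IsCycle (fun i : Fin d => w i.succ) (nx x) (Z - x 0)⁻¹ (Y - x 0)⁻¹ ↔ IsCycle w x Z Y := by
  unfold IsCycle
  rw [nx_ne_iff hZ, nx_ne_iff hY]
  constructor
  · rintro ⟨h1, h2, h3, h4⟩
    exact ⟨h1, h2, (norm_half hx hw h1 hY).1 h3, (norm_half hx hw h2 hZ).1 h4⟩
  · rintro ⟨h1, h2, h3, h4⟩
    exact ⟨h1, h2, (norm_half hx hw h1 hY).2 h3, (norm_half hx hw h2 hZ).2 h4⟩

theorem norm_side {x w : Fin (d + 1) → K} (hx : Function.Injective x) (hw : ∑ j, w j = 1) {Z Y : K}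
    (hZ : ∀ j, Z ≠ x j) (hY : Y ≠ x 0) (hS : (∑ j, w j / (Z - x j)) * (Z - Y) = 1) :
    side (fun i : Fin d => w i.succ) (nx x) (Z - x 0)⁻¹ (Y - x 0)⁻¹ =
      (Z - x 0) ^ 2 / (Y - x 0) ^ 2 * side w x Z Y := by
  have h0 : Z - x 0 ≠ 0 := sub_ne_zero.2 (hZ 0)
  have h1 : Y - x 0 ≠ 0 := sub_ne_zero.2 hY
  unfold side
  rw [norm_sum2 hx hw hZ]
  set S := ∑ j, w j / (Z - x j)
  set S₂ := ∑ j, w j / (Z - x j) ^ 2
  have hS0 : S ≠ 0 := left_ne_zero_of_mul_eq_one hS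
  have h3 : ((Z - x 0)⁻¹ - (Y - x 0)⁻¹) ^ 2 = (Z - Y) ^ 2 / ((Z - x 0) ^ 2 * (Y - x 0) ^ 2) := by
    field_simp; ring
  rw [h3]
  have h4 : 1 - (Z - Y) ^ 2 / ((Z - x 0) ^ 2 * (Y - x 0) ^ 2) *
      ((Z - x 0) ^ 2 * (1 - 2 * (Z - x 0) * S + (Z - x 0) ^ 2 * S₂)) -
      (Z - x 0) ^ 2 / (Y - x 0) ^ 2 * (1 - (Z - Y) ^ 2 * S₂) =
      2 * (Z - x 0) * (Z - Y) * (S * (Z - Y) - 1) / (Y - x 0) ^ 2 := by
    field_simp; ring
  rw [hS, sub_self, mul_zero, zero_div] at h4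
  linear_combination h4

theorem norm_mult {x w : Fin (d + 1) → K} (hx : Function.Injective x) (hw : ∑ j, w j = 1) {Z Y : K}
    (h : IsCycle w x Z Y) :
    mult (fun i : Fin d => w i.succ) (nx x) (Z - x 0)⁻¹ (Y - x 0)⁻¹ = mult w x Z Y := by
  obtain ⟨h1, h2, h3, h4⟩ := h
  unfold mult
  rw [norm_side hx hw h1 (h2 0) h3, norm_side hx hw h2 (h1 0) h4]
  have h5 : Z - x 0 ≠ 0 := sub_ne_zero.2 (h1 0)
  have h6 : Y - x 0 ≠ 0 := sub_ne_zero.2 (h2 0)
  field_simp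

/-- A cycle through the point at infinity of the original coordinate. -/
theorem norm_zero {x w : Fin (d + 1) → K} (hx : Function.Injective x) (hw : ∑ j, w j = 1) {v : K}
    (h : IsCycle (fun i : Fin d => w i.succ) (nx x) 0 v) :
    (∀ j, ∑ j, w j * x j ≠ x j) ∧ ∑ k, w k / ((∑ j, w j * x j) - x k) = 0 := by
  set M := ∑ j, w j * x j with hM
  obtain ⟨h1, h2, h3, h4⟩ := h
  have e1 : ∑ i : Fin d, w i.succ / (0 - nx x i) = -(M - x 0) := by
    have e2 : ∀ i : Fin d, w i.succ / (0 - nx x i) = -(w i.succ * x i.succ - w i.succ * x 0) := by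
      intro i
      have h2 : x i.succ - x 0 ≠ 0 := sub_ne_zero.2 fun h => Fin.succ_ne_zero i (hx h)
      unfold nx
      rw [zero_sub, div_neg, div_inv_eq_mul]
      ring
    rw [Finset.sum_congr rfl fun i _ => e2 i, Finset.sum_neg_distrib, Finset.sum_sub_distrib,
      ← Finset.sum_mul, sum_eq hw, hM, Fin.sum_univ_succ]
    ring
  rw [e1] at h3
  have h5 : (M - x 0) * v = 1 := by linear_combination h3
  have h6 : M - x 0 ≠ 0 := left_ne_zero_of_mul_eq_one h5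
  have h7 : v = (M - x 0)⁻¹ := eq_inv_of_mul_eq_one_right h5
  have h8 : ∀ j, M ≠ x j := (nx_ne_iff (sub_ne_zero.1 h6)).1 (h7 ▸ h2)
  refine ⟨h8, ?_⟩
  rw [h7, norm_sum hx hw h8, sub_zero] at h4
  set S := ∑ j, w j / (M - x j)
  have h9 : (M - x 0) * (1 - (M - x 0) * S) * (M - x 0)⁻¹ = 1 - (M - x 0) * S := by
    field_simp
  rw [h9] at h4
  have h10 : (M - x 0) * S = 0 := by linear_combination -h4
  exact (mul_eq_zero.1 h10).resolve_left h6

end Pool.Agent.W522.Mult
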