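import Pool.Agent.W522.Mult.FixMult
import Pool.Agent.W522.Mult.Norm

/-!
# The Möbius conjugacy
-/

set_option autoImplicit false

namespace Pool.Agent.W522.Mult

open Polynomial Finset

variable {d : ℕ}

theorem aux_cancel {A D : ℂ} (hA : A ≠ 0) (hD : D ≠ 0) (B T Z : ℂ) :
    A / D * T * (D * Z / (A * B)) = T * Z / B := by
  field_simp

/-- From an affine equivalence of the normalised fixed points to a conjugacy. -/
theorem mobius {p₁ q₁ p₂ q₂ : ℂ[X]} {x x' w : Fin (d + 1) → ℂ} (h₁ : Fix d p₁ q₁ x w)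
    (h₂ : Fix d p₂ q₂ x' w) {α β : ℂ} (hα : α ≠ 0) (hαβ : ∀ i, nx x' i = α * nx x i + β) :
    ∃ a b c e : ℂ, a * e - b * c ≠ 0 ∧
      ∀ z : ℂ, q₁.eval z ≠ 0 → c * z + e ≠ 0 →
        c * (p₁.eval z / q₁.eval z) + e ≠ 0 →
        q₂.eval ((a * z + b) / (c * z + e)) ≠ 0 →
        p₂.eval ((a * z + b) / (c * z + e)) / q₂.eval ((a * z + b) / (c * z + e))
          = (a * (p₁.eval z / q₁.eval z) + b) / (c * (p₁.eval z / q₁.eval z) + e) := by
  obtain ⟨a, ha⟩ : ∃ a, a = x' 0 * β + 1 := ⟨_, rfl⟩
  obtain ⟨b, hb⟩ : ∃ b, b = x' 0 * (α - β * x 0) - x 0 := ⟨_, rfl⟩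
  obtain ⟨c, hc⟩ : ∃ c, c = β := ⟨_, rfl⟩
  obtain ⟨e, he⟩ : ∃ e, e = α - β * x 0 := ⟨_, rfl⟩
  have hD : a * e - b * c = α := by rw [ha, hb, hc, he]; ring
  have hD0 : a * e - b * c ≠ 0 := by rw [hD]; exact hα
  have hne : ∀ j, c * x j + e ≠ 0 := by
    intro j
    refine Fin.cases ?_ (fun i => ?_) j
    · rw [hc, he]
      intro h; apply hα; linear_combination h
    · have h1 : x i.succ - x 0 ≠ 0 := sub_ne_zero.2 fun h => Fin.succ_ne_zero i (h₁.inj h)
      have h2 : x' i.succ - x' 0 ≠ 0 := sub_ne_zero.2 fun h => Fin.succ_ne_zero i (h₂.inj h)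
      have h3 := hαβ i
      unfold nx at h3
      intro h
      rw [hc, he] at h
      have h4 : (x' i.succ - x' 0)⁻¹ * (x i.succ - x 0) = 0 := by
        rw [h3, add_mul, mul_assoc, inv_mul_cancel₀ h1]
        linear_combination h
      exact (mul_ne_zero (inv_ne_zero h2) h1) h4
  have hpt : ∀ j, a * x j + b = x' j * (c * x j + e) := by
    intro j
    refine Fin.cases ?_ (fun i => ?_) j
    · rw [ha, hb, hc, he]; ring
    · have h1 : x i.succ - x 0 ≠ 0 := sub_ne_zero.2 fun h => Fin.succ_ne_zero i (h₁.inj h)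
      have h2 : x' i.succ - x' 0 ≠ 0 := sub_ne_zero.2 fun h => Fin.succ_ne_zero i (h₂.inj h)
      have h3 := hαβ i
      unfold nx at h3
      have h4 : x i.succ - x 0 = (x' i.succ - x' 0) * (α + β * (x i.succ - x 0)) := by
        have h5 : (x' i.succ - x' 0) * ((x' i.succ - x' 0)⁻¹ * (x i.succ - x 0)) =
          (x' i.succ - x' 0) * ((α * (x i.succ - x 0)⁻¹ + β) * (x i.succ - x 0)) := by rw [h3]
        rw [mul_inv_cancel_left₀ h2, add_mul, mul_assoc α, inv_mul_cancel₀ h1, mul_one] at h5
        exact h5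
      rw [ha, hb, hc, he]
      linear_combination h4
  refine ⟨a, b, c, e, hD0, ?_⟩
  intro z hq₁ hcz hcy hq₂
  set y := p₁.eval z / q₁.eval z with hy
  by_cases hz : ∃ j, z = x j
  · obtain ⟨j, rfl⟩ := hz
    have h1 : y = x j := by rw [hy, h₁.p_at, mul_div_assoc, div_self hq₁, mul_one]
    have h2 : (a * x j + b) / (c * x j + e) = x' j := by
      rw [hpt j, mul_div_assoc, div_self hcz, mul_one]
    rw [h1, h2, h₂.p_at, mul_div_assoc, div_self (h₂.q_at_ne j), mul_one]
  · push Not at hz
    have hS := h₁.val_out hz hq₁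
    rw [← hy] at hS
    set S := ∑ j, w j / (z - x j) with hSd
    -- difference of values of the Möbius map
    have hdiff : ∀ u, c * u + e ≠ 0 → (a * z + b) / (c * z + e) - (a * u + b) / (c * u + e) =
        (a * e - b * c) * (z - u) / ((c * z + e) * (c * u + e)) := by
      intro u hu
      rw [div_sub_div _ _ hcz hu]
      congr 1
      ring
    have hj : ∀ j, (a * z + b) / (c * z + e) - x' j =
        (a * e - b * c) * (z - x j) / ((c * z + e) * (c * x j + e)) := by
      intro j
      rw [← hdiff (x j) (hne j), hpt j, mul_div_assoc (x' j), div_self (hne j), mul_one]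
    have hout : ∀ j, (a * z + b) / (c * z + e) ≠ x' j := by
      intro j h
      have h1 := hj j
      rw [h, sub_self] at h1
      exact (div_ne_zero (mul_ne_zero hD0 (sub_ne_zero.2 (hz j)))
        (mul_ne_zero hcz (hne j))) h1.symm
    have hS2 : ∑ j, w j / ((a * z + b) / (c * z + e) - x' j) =
        (c * z + e) / (a * e - b * c) * ((c * z + e) * S - c) := by
      have h1 : ∀ j, w j / ((a * z + b) / (c * z + e) - x' j) =
          (c * z + e) / (a * e - b * c) * ((c * z + e) * (w j / (z - x j)) - c * w j) := by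
        intro j
        have h2 := sub_ne_zero.2 (hz j)
        have h3 := hne j
        rw [hj j]
        field_simp
        ring
      rw [Finset.sum_congr rfl fun j _ => h1 j, ← Finset.mul_sum, Finset.sum_sub_distrib,
        ← Finset.mul_sum, ← Finset.mul_sum, h₁.sum, mul_one]
    have h3 := h₂.val_out hout hq₂
    have h4 : (∑ j, w j / ((a * z + b) / (c * z + e) - x' j)) *
        ((a * z + b) / (c * z + e) - (a * y + b) / (c * y + e)) = 1 := by
      rw [hS2, hdiff y hcy]
      have h5 : ((c * z + e) * S - c) * (z - y) = c * y + e := by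
        linear_combination (c * z + e) * hS
      have h6 : (c * z + e) / (a * e - b * c) * ((c * z + e) * S - c) *
          ((a * e - b * c) * (z - y) / ((c * z + e) * (c * y + e))) =
          (((c * z + e) * S - c) * (z - y)) / (c * y + e) := aux_cancel hcz hD0 _ _ _
      rw [h6, h5, div_self hcy]
    have h7 : ∑ j, w j / ((a * z + b) / (c * z + e) - x' j) ≠ 0 := left_ne_zero_of_mul_eq_one h4
    have h8 := mul_left_cancel₀ h7 (h3.trans h4.symm)
    linear_combination -h8

end Pool.Agent.W522.Mult
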