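import Pool.Agent.W522.Mult.Mob

/-!
# Transfer of multipliers
-/

set_option autoImplicit false

namespace Pool.Agent.W522.Mult

open Polynomial Finset

variable {d : ℕ} {p q : ℂ[X]} {x w : Fin (d + 1) → ℂ}

/-- The set of fixed points with a given multiplier. -/
theorem Fix.fixset (h : Fix d p q x w) (c : ℂ) :
    {z : ℂ | q.eval z ≠ 0 ∧ p.eval z = z * q.eval z ∧ der p q z = c} =
      x '' {j | 1 - 1 / w j = c} := by
  ext z
  simp only [Set.mem_ofPred_eq, Set.mem_image]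
  constructor
  · rintro ⟨h1, h2, h3⟩
    obtain ⟨j, rfl⟩ := (h.fixed_iff z).1 ⟨h1, h2⟩
    exact ⟨j, by rw [← h.der_at j]; exact h3, rfl⟩
  · rintro ⟨j, h1, rfl⟩
    obtain ⟨h2, h3⟩ := (h.fixed_iff (x j)).2 ⟨j, rfl⟩
    exact ⟨h2, h3, by rw [h.der_at j]; exact h1⟩

theorem exists_perm {n : ℕ} {f g : Fin n → ℂ}
    (h : ∀ c, Set.ncard {j | f j = c} = Set.ncard {j | g j = c}) :
    ∃ σ : Fin n ≃ Fin n, ∀ j, g (σ j) = f j := by
  have e : ∀ c, Nonempty ({a // f a = c} ≃ {b // g b = c}) := by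
    intro c
    have h1 := h c
    rw [← Nat.card_coe_set_eq, ← Nat.card_coe_set_eq] at h1
    exact Finite.card_eq.mp h1
  exact ⟨Equiv.ofFiberEquiv fun c => (e c).some, fun j => Equiv.ofFiberEquiv_map _ _⟩

theorem NN_comp {R : Type*} [CommRing R] {m : ℕ} (x : Fin m → R) (σ : Fin m ≃ Fin m) (j : Fin m) :
    NN (fun k => x (σ k)) j = NN x (σ j) := by
  unfold NN
  refine Finset.prod_equiv σ (fun k => ?_) fun k _ => rfl
  simp

theorem qpol_comp {R : Type*} [CommRing R] {m : ℕ} (x v : Fin m → R) (σ : Fin m ≃ Fin m) :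
    qpol (fun k => x (σ k)) (fun k => v (σ k)) = qpol x v := by
  unfold qpol
  simp only [NN_comp]
  exact Equiv.sum_comp σ fun j => C (v j) * NN x j

theorem Fix.reindex (h : Fix d p q x w) (σ : Fin (d + 1) ≃ Fin (d + 1)) :
    Fix d p q (fun k => x (σ k)) (fun k => w (σ k)) where
  inj := h.inj.comp σ.injective
  l0 := h.l0
  w0 := fun j => h.w0 (σ j)
  sum := by rw [Equiv.sum_comp σ w]; exact h.sum
  hq := by
    have h1 := qpol_comp x (fun j => q.coeff d * w j) σ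
    rw [← h.hq] at h1
    exact h1.symm
  hp := by
    have h1 := qpol_comp x (fun j => q.coeff d * w j * x j) σ
    have h2 := h.hp
    rw [ppol_eq_qpol] at h2
    rw [← h2] at h1
    exact h1.symm

/-- Matching the fixed points of two maps with the same multipliers. -/
theorem match_fix {p₁ q₁ p₂ q₂ : ℂ[X]} {x w x' w' : Fin (d + 1) → ℂ} (h₁ : Fix d p₁ q₁ x w)
    (h₂ : Fix d p₂ q₂ x' w')
    (H : ∀ c : ℂ, Set.ncard {z : ℂ | q₁.eval z ≠ 0 ∧ p₁.eval z = z * q₁.eval z ∧ der p₁ q₁ z = c} =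
      Set.ncard {z : ℂ | q₂.eval z ≠ 0 ∧ p₂.eval z = z * q₂.eval z ∧ der p₂ q₂ z = c}) :
    ∃ x'' : Fin (d + 1) → ℂ, Fix d p₂ q₂ x'' w := by
  obtain ⟨σ, hσ⟩ := exists_perm (f := fun j => 1 - 1 / w j) (g := fun j => 1 - 1 / w' j) (by
    intro c
    have h3 := H c
    rw [h₁.fixset c, h₂.fixset c, Set.ncard_image_of_injective _ h₁.inj,
      Set.ncard_image_of_injective _ h₂.inj] at h3
    exact h3)
  refine ⟨fun k => x' (σ k), ?_⟩
  have h3 : w = fun k => w' (σ k) := by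
    funext j
    have h4 : 1 - 1 / w' (σ j) = 1 - 1 / w j := hσ j
    have h5 : w' (σ j) ≠ 0 := h₂.w0 _
    have h6 := h₁.w0 j
    field_simp at h4
    linear_combination -h4
  rw [h3]
  exact h₂.reindex σ

/-- The polynomial whose roots are the points of period one and two. -/
noncomputable def per (d : ℕ) (p q : ℂ[X]) : ℂ[X] :=
  X * ∑ i ∈ range (d + 1), C (q.coeff i) * (p ^ i * q ^ (d - i)) -
    ∑ i ∈ range (d + 1), C (p.coeff i) * (p ^ i * q ^ (d - i))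

theorem hom_eval (g p q : ℂ[X]) (hg : g.natDegree ≤ d) {z : ℂ} (hz : q.eval z ≠ 0) :
    (∑ i ∈ range (d + 1), C (g.coeff i) * (p ^ i * q ^ (d - i))).eval z =
      (q.eval z) ^ d * g.eval (p.eval z / q.eval z) := by
  rw [eval_finsetSum, eval_eq_sum_range' (Nat.lt_succ_of_le hg), Finset.mul_sum]
  refine Finset.sum_congr rfl fun i hi => ?_
  have hi' : i ≤ d := Nat.lt_succ_iff.1 (Finset.mem_range.1 hi)
  simp only [eval_mul, eval_C, eval_pow]
  rw [div_pow]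
  have h1 : (q.eval z) ^ d = (q.eval z) ^ i * (q.eval z) ^ (d - i) := by
    rw [← pow_add]; congr 1; omega
  rw [h1]
  field_simp

theorem hom_eval_zero (g p q : ℂ[X]) {z : ℂ} (hz : q.eval z = 0) :
    (∑ i ∈ range (d + 1), C (g.coeff i) * (p ^ i * q ^ (d - i))).eval z =
      g.coeff d * (p.eval z) ^ d := by
  rw [eval_finsetSum, Finset.sum_eq_single d]
  · simp
  · intro i hi hne
    have hi' : i ≤ d := Nat.lt_succ_iff.1 (Finset.mem_range.1 hi)
    simp only [eval_mul, eval_C, eval_pow, hz]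
    rw [zero_pow (by omega), mul_zero, mul_zero]
  · simp

theorem per_ne_zero (hc : IsCoprime p q) (hd : 1 ≤ d) (hq : q.natDegree ≤ d)
    (hl : q.coeff d ≠ 0) (hM : q.eval (p.coeff d / q.coeff d) ≠ 0) : per d p q ≠ 0 := by
  have hdeg : q.degree ≠ 0 := by
    have h1 : q.natDegree = d := le_antisymm hq (le_natDegree_of_ne_zero hl)
    intro h
    have h2 := natDegree_eq_of_degree_eq_some (n := 0) (by simpa using h)
    omega
  obtain ⟨z, hz⟩ := IsAlgClosed.exists_root q hdeg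
  have hz' : q.eval z = 0 := hz
  have hp : p.eval z ≠ 0 := by
    intro h
    obtain ⟨a, b, hab⟩ := hc
    have h2 := congrArg (fun P => P.eval z) hab
    simp only [eval_add, eval_mul, h, hz', mul_zero, add_zero, eval_one] at h2
    exact zero_ne_one h2
  intro h
  have h1 := congrArg (fun P => P.eval z) h
  simp only [per, eval_sub, eval_mul, eval_X, eval_zero] at h1
  rw [hom_eval_zero q p q hz', hom_eval_zero p p q hz'] at h1
  have h2 : (z * q.coeff d - p.coeff d) * (p.eval z) ^ d = 0 := by linear_combination h1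
  rcases mul_eq_zero.1 h2 with h3 | h3
  · apply hM
    have h4 : p.coeff d / q.coeff d = z := by
      rw [div_eq_iff hl]; linear_combination -h3
    rw [h4]; exact hz'
  · exact hp (eq_zero_of_pow_eq_zero h3)

/-- There are finitely many points of period two. -/
theorem two_finite (hc : IsCoprime p q) (hd : 1 ≤ d) (hp : p.natDegree ≤ d) (hq : q.natDegree ≤ d)
    (hl : q.coeff d ≠ 0) (hM : q.eval (p.coeff d / q.coeff d) ≠ 0) :
    Set.Finite {z : ℂ | q.eval z ≠ 0 ∧ q.eval (p.eval z / q.eval z) ≠ 0 ∧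
      p.eval (p.eval z / q.eval z) / q.eval (p.eval z / q.eval z) = z} := by
  refine Set.Finite.subset (per d p q).roots.toFinset.finite_toSet fun z hz => ?_
  obtain ⟨h1, h2, h3⟩ := hz
  simp only [Finset.mem_coe, Multiset.mem_toFinset]
  rw [mem_roots (per_ne_zero hc hd hq hl hM)]
  unfold per
  simp only [IsRoot, eval_sub, eval_mul, eval_X]
  rw [hom_eval q p q hq h1, hom_eval p p q hp h1]
  rw [div_eq_iff h2] at h3
  rw [h3]; ring

/-- `q` at the image of infinity. -/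
theorem Fix.mean (h : Fix d p q x w) : p.coeff d / q.coeff d = ∑ j, w j * x j := by
  have h1 : p.coeff d = ∑ j, q.coeff d * w j * x j := by
    have h2 := qpol_coeff x (fun j => q.coeff d * w j * x j)
    have h3 := h.hp
    rw [ppol_eq_qpol] at h3
    rw [← h3] at h2
    exact h2
  have h4 := h.l0
  rw [h1, Finset.sum_div]
  refine Finset.sum_congr rfl fun j _ => ?_
  field_simp

/-- Transfer of multipliers of cycles of period two in the normalised coordinates. -/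
theorem transfer {p₁ q₁ p₂ q₂ : ℂ[X]} {x x' w : Fin (d + 1) → ℂ} (h₁ : Fix d p₁ q₁ x w)
    (h₂ : Fix d p₂ q₂ x' w) (hc : IsCoprime p₂ q₂) (hd : 1 ≤ d) (hp : p₂.natDegree ≤ d)
    (hq : q₂.natDegree ≤ d) (hM : q₂.eval (p₂.coeff d / q₂.coeff d) ≠ 0)
    (H : ∀ c : ℂ,
      Set.ncard {z : ℂ | q₁.eval z ≠ 0 ∧ q₁.eval (p₁.eval z / q₁.eval z) ≠ 0 ∧
        p₁.eval (p₁.eval z / q₁.eval z) / q₁.eval (p₁.eval z / q₁.eval z) = z ∧
        p₁.eval z / q₁.eval z ≠ z ∧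
        der p₁ q₁ z * der p₁ q₁ (p₁.eval z / q₁.eval z) = c} =
      Set.ncard {z : ℂ | q₂.eval z ≠ 0 ∧ q₂.eval (p₂.eval z / q₂.eval z) ≠ 0 ∧
        p₂.eval (p₂.eval z / q₂.eval z) / q₂.eval (p₂.eval z / q₂.eval z) = z ∧
        p₂.eval z / q₂.eval z ≠ z ∧
        der p₂ q₂ z * der p₂ q₂ (p₂.eval z / q₂.eval z) = c})
    {u v : ℂ} (huv : IsCycle (fun i : Fin d => w i.succ) (nx x') u v) :
    ∃ u' v', IsCycle (fun i : Fin d => w i.succ) (nx x) u' v' ∧
      mult (fun i : Fin d => w i.succ) (nx x) u' v' =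
        mult (fun i : Fin d => w i.succ) (nx x') u v := by
  have hzero : ∀ v, ¬ IsCycle (fun i : Fin d => w i.succ) (nx x') 0 v := by
    intro v hv
    obtain ⟨h3, h4⟩ := norm_zero h₂.inj h₂.sum hv
    apply hM
    rw [h₂.mean, h₂.q_out h3, h4, mul_zero]
  have hswap : ∀ {u v : ℂ}, IsCycle (fun i : Fin d => w i.succ) (nx x') u v →
      IsCycle (fun i : Fin d => w i.succ) (nx x') v u := fun h => ⟨h.2.1, h.1, h.2.2.2, h.2.2.1⟩
  have hu : u ≠ 0 := by rintro rfl; exact hzero _ huv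
  have hv : v ≠ 0 := by rintro rfl; exact hzero _ (hswap huv)
  obtain ⟨Z, hZ⟩ : ∃ Z, Z = x' 0 + u⁻¹ := ⟨_, rfl⟩
  obtain ⟨Y, hY⟩ : ∃ Y, Y = x' 0 + v⁻¹ := ⟨_, rfl⟩
  have hZ0 : Z ≠ x' 0 := by
    intro h; apply inv_ne_zero hu; rw [hZ] at h; linear_combination h
  have hY0 : Y ≠ x' 0 := by
    intro h; apply inv_ne_zero hv; rw [hY] at h; linear_combination h
  have hu' : u = (Z - x' 0)⁻¹ := by rw [hZ, add_sub_cancel_left, inv_inv]
  have hv' : v = (Y - x' 0)⁻¹ := by rw [hY, add_sub_cancel_left, inv_inv]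
  rw [hu', hv'] at huv ⊢
  have hcyc := (norm_cycle h₂.inj h₂.sum hZ0 hY0).1 huv
  rw [norm_mult h₂.inj h₂.sum hcyc]
  obtain ⟨g1, g2, g3, g4, g5⟩ := (h₂.cycle_iff Z Y).1 hcyc
  set c := mult w x' Z Y with hcdef
  have hmem : Z ∈ {z : ℂ | q₂.eval z ≠ 0 ∧ q₂.eval (p₂.eval z / q₂.eval z) ≠ 0 ∧
        p₂.eval (p₂.eval z / q₂.eval z) / q₂.eval (p₂.eval z / q₂.eval z) = z ∧
        p₂.eval z / q₂.eval z ≠ z ∧
        der p₂ q₂ z * der p₂ q₂ (p₂.eval z / q₂.eval z) = c} := by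
    refine ⟨g1, ?_, ?_, ?_, ?_⟩
    · rw [g3]; exact g2
    · rw [g3]; exact g4
    · rw [g3]; exact g5
    · rw [g3, hcdef, h₂.mult_eq hcyc]
  have hfin : Set.Finite {z : ℂ | q₂.eval z ≠ 0 ∧ q₂.eval (p₂.eval z / q₂.eval z) ≠ 0 ∧
        p₂.eval (p₂.eval z / q₂.eval z) / q₂.eval (p₂.eval z / q₂.eval z) = z ∧
        p₂.eval z / q₂.eval z ≠ z ∧
        der p₂ q₂ z * der p₂ q₂ (p₂.eval z / q₂.eval z) = c} :=
    (two_finite hc hd hp hq h₂.l0 hM).subset fun z hz => ⟨hz.1, hz.2.1, hz.2.2.1⟩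
  have hpos := (Set.ncard_pos hfin).2 ⟨Z, hmem⟩
  rw [← H c] at hpos
  obtain ⟨Z₁, f1, f2, f3, f4, f5⟩ := Set.nonempty_of_ncard_ne_zero hpos.ne'
  have hcyc₁ : IsCycle w x Z₁ (p₁.eval Z₁ / q₁.eval Z₁) :=
    (h₁.cycle_iff _ _).2 ⟨f1, f2, rfl, f3, f4⟩
  refine ⟨(Z₁ - x 0)⁻¹, (p₁.eval Z₁ / q₁.eval Z₁ - x 0)⁻¹,
    (norm_cycle h₁.inj h₁.sum (hcyc₁.1 0) (hcyc₁.2.1 0)).2 hcyc₁, ?_⟩
  rw [norm_mult h₁.inj h₁.sum hcyc₁, h₁.mult_eq hcyc₁]
  exact f5

end Pool.Agent.W522.Mult
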