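import Pool.Agent.W522.Mult.Core
import Pool.Agent.W522.Mult.Dim
import Pool.Agent.W522.Mult.Trans

/-!
# Parameters and the exceptional hypersurfaces
-/

set_option autoImplicit false

namespace Pool.Agent.W522.Mult

open Finset

section par

variable {R : Type*} [CommRing R] {d : ℕ} [NeZero d]

/-- the coefficients in the fixed point coordinates -/
def vv (t : Var d → R) : Fin (d + 1) → R :=
  Fin.cons (t (Sum.inl 0) * (1 - eps t * ∑ i, cc t i)) (fun i => t (Sum.inl 0) * (eps t * cc t i))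

/-- the coefficients of numerator and denominator -/
noncomputable def coeffs (t : Var d → R) : Var d → R :=
  Sum.elim (fun k => (ppol (fun j => t (Sum.inr j)) (vv t)).coeff k)
    (fun k => (qpol (fun j => t (Sum.inr j)) (vv t)).coeff k)

theorem map_vv {S : Type*} [CommRing S] (φ : R →+* S) (t : Var d → R) (k : Fin (d + 1)) :
    φ (vv t k) = vv (fun v => φ (t v)) k := by
  have h1 : ∀ i : Fin d, φ (cc t i) = cc (fun v => φ (t v)) i := by
    intro i
    unfold cc
    split_ifs <;> simp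
  unfold vv
  refine Fin.cases ?_ (fun i => ?_) k
  · simp only [Fin.cons_zero, map_mul, map_sub, map_one, map_sum, h1]
    rfl
  · simp only [Fin.cons_succ, map_mul, h1]
    rfl

theorem map_coeffs {S : Type*} [CommRing S] (φ : R →+* S) (t : Var d → R) (v : Var d) :
    φ (coeffs t v) = coeffs (fun v => φ (t v)) v := by
  unfold coeffs
  rcases v with k | k
  · simp only [Sum.elim_inl]
    rw [← Polynomial.coeff_map, ppol_map]
    simp only [map_vv]
  · simp only [Sum.elim_inr]
    rw [← Polynomial.coeff_map, qpol_map]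
    simp only [map_vv]

end par

/-- A polynomial in the coefficients detecting that the parameters avoid a given hypersurface. -/
theorem exists_detect {d : ℕ} [NeZero d] (H : MvPolynomial (Var d) ℚ) (hH : H ≠ 0) :
    ∃ P : MvPolynomial (Var d) ℂ, P ≠ 0 ∧ ∀ t : Var d → ℂ,
      MvPolynomial.eval (coeffs t) P ≠ 0 → MvPolynomial.aeval t H ≠ 0 := by
  let H' : MvPolynomial (Var d) ℂ := MvPolynomial.map (algebraMap ℚ ℂ) H
  have hH' : H' ≠ 0 := by
    intro h
    apply hH
    exact MvPolynomial.map_injective (algebraMap ℚ ℂ) (algebraMap ℚ ℂ).injective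
      (h.trans (map_zero _).symm)
  obtain ⟨P, hP, G, hG⟩ := exists_dvd
    (coeffs (MvPolynomial.X : Var d → MvPolynomial (Var d) ℂ)) H' hH'
  refine ⟨P, hP, fun t ht h0 => ht ?_⟩
  have h1 : coeffs t = fun v => MvPolynomial.aeval t
      (coeffs (MvPolynomial.X : Var d → MvPolynomial (Var d) ℂ) v) := by
    funext v
    have h2 := map_coeffs (MvPolynomial.aeval t : MvPolynomial (Var d) ℂ →ₐ[ℂ] ℂ).toRingHom
      (MvPolynomial.X : Var d → MvPolynomial (Var d) ℂ) v
    have h3 : (fun v => (MvPolynomial.aeval t : MvPolynomial (Var d) ℂ →ₐ[ℂ] ℂ).toRingHom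
        ((MvPolynomial.X : Var d → MvPolynomial (Var d) ℂ) v)) = t := by
      funext v
      exact MvPolynomial.aeval_X t v
    rw [h3] at h2
    exact h2.symm
  have h4 : MvPolynomial.aeval t H' = MvPolynomial.aeval t H := by
    simp only [H']
    exact MvPolynomial.aeval_map_algebraMap ℂ t H
  have h5 : MvPolynomial.eval (coeffs t) P = MvPolynomial.aeval t
      (MvPolynomial.aeval (coeffs (MvPolynomial.X : Var d → MvPolynomial (Var d) ℂ)) P) := by
    rw [← MvPolynomial.aeval_eq_eval, h1, ← MvPolynomial.comp_aeval_apply]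
  rw [h5, hG, map_mul, h4, h0, zero_mul]

/-- The parameters of a map. -/
theorem Fix.param {d : ℕ} [NeZero d] {p q : Polynomial ℂ} {x w : Fin (d + 1) → ℂ}
    (h : Fix d p q x w) : ∃ t : Var d → ℂ,
      coeffs t = Sum.elim (fun i : Fin (d + 1) => p.coeff i) (fun i : Fin (d + 1) => q.coeff i) ∧
      (∀ i, eps t * cc t i = w i.succ) ∧ xx t = nx x := by
  have hd : 0 < d := Nat.pos_of_ne_zero (NeZero.ne d)
  have h1s : (0 : Fin d).succ = 1 := by
    obtain ⟨m, rfl⟩ : ∃ m, d = m + 1 := ⟨d - 1, by omega⟩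
    rfl
  let t : Var d → ℂ := Sum.elim
    (fun j => if j = 0 then q.coeff d else if j = 1 then w 1 else w j / w 1) x
  have hw1 := h.w0 1
  have e0 : t (Sum.inl 0) = q.coeff d := by simp [t]
  have e1 : eps t = w 1 := by
    have h10 : (1 : Fin (d + 1)) ≠ 0 := by rw [← h1s]; exact Fin.succ_ne_zero _
    simp only [eps, t, Sum.elim_inl, if_neg h10, if_true]
  have e2 : ∀ i, eps t * cc t i = w i.succ := by
    intro i
    rw [e1]
    unfold cc
    split_ifs with hi
    · rw [hi, h1s, mul_one]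
    · have h2 : i.succ ≠ 0 := Fin.succ_ne_zero i
      have h3 : i.succ ≠ 1 := by
        rw [← h1s]; intro h4; exact hi (Fin.succ_injective _ h4)
      simp only [t, Sum.elim_inl, if_neg h2, if_neg h3]
      field_simp
  have e3 : vv t = fun j => q.coeff d * w j := by
    funext j
    unfold vv
    refine Fin.cases ?_ (fun i => ?_) j
    · rw [Fin.cons_zero, e0, Finset.mul_sum, Finset.sum_congr rfl fun i _ => e2 i, sum_eq h.sum]
      ring
    · rw [Fin.cons_succ, e0, e2]
  have e4 : (fun j => t (Sum.inr j)) = x := rfl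
  refine ⟨t, ?_, e2, ?_⟩
  · unfold coeffs
    rw [e3, e4, ← h.hp, ← h.hq]
  · rfl

section disc

variable (m : ℕ)

/-- The sum in the numerator. -/
noncomputable def Qs {R : Type*} [CommRing R] {m : ℕ} (b : Fin (m + 3) → R) (r : R) : R :=
  ∑ k, b k * r ^ (k : ℕ)

/-- The derivative. -/
noncomputable def Qd {R : Type*} [CommRing R] {m : ℕ} (b : Fin (m + 3) → R) (r : R) : R :=
  ∑ k, b k * ((k : ℕ) : R) * r ^ ((k : ℕ) - 1)

/-- the map from the variables with a double fixed point -/
noncomputable def dmap {R : Type*} [CommRing R] {m : ℕ} (s : Fin (m + 2) ⊕ Fin (m + 3) → R) :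
    Var (m + 2) → R :=
  let r := s (Sum.inl 0)
  let A1 := Qs (fun k => s (Sum.inr k)) r + r * Qd (fun k => s (Sum.inr k)) r -
    ∑ i : Fin (m + 1), s (Sum.inl i.succ) * (((i : ℕ) + 2 : ℕ) : R) * r ^ ((i : ℕ) + 1)
  let A0 := r * Qs (fun k => s (Sum.inr k)) r - A1 * r -
    ∑ i : Fin (m + 1), s (Sum.inl i.succ) * r ^ ((i : ℕ) + 2)
  Sum.elim (Fin.cons A0 (Fin.cons A1 (fun i : Fin (m + 1) => s (Sum.inl i.succ))))
    (fun k => s (Sum.inr k))

theorem map_dmap {R S : Type*} [CommRing R] [CommRing S] (φ : R →+* S)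
    (s : Fin (m + 2) ⊕ Fin (m + 3) → R) (v : Var (m + 2)) :
    φ (dmap s v) = dmap (fun u => φ (s u)) v := by
  rcases v with k | k
  · refine Fin.cases ?_ (fun i => ?_) k
    · simp [dmap, Qs, Qd, map_ofNat φ 2]
    · refine Fin.cases ?_ (fun i => ?_) i
      · simp [dmap, Qs, Qd, map_ofNat φ 2]
      · simp [dmap]
  · simp [dmap]

theorem exists_disc : ∃ P : MvPolynomial (Var (m + 2)) ℂ, P ≠ 0 ∧
    ∀ s : Fin (m + 2) ⊕ Fin (m + 3) → ℂ, MvPolynomial.eval (dmap s) P = 0 := by
  obtain ⟨P, hP, h0⟩ := exists_relation (k := ℂ) (V := Var (m + 2))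
    (W := Fin (m + 2) ⊕ Fin (m + 3)) (by simp)
    (dmap (MvPolynomial.X : _ → MvPolynomial (Fin (m + 2) ⊕ Fin (m + 3)) ℂ))
  refine ⟨P, hP, fun s => ?_⟩
  have h1 : dmap s = fun v => MvPolynomial.aeval s
      (dmap (MvPolynomial.X : _ → MvPolynomial (Fin (m + 2) ⊕ Fin (m + 3)) ℂ) v) := by
    funext v
    have h2 := map_dmap m (MvPolynomial.aeval s :
      MvPolynomial (Fin (m + 2) ⊕ Fin (m + 3)) ℂ →ₐ[ℂ] ℂ).toRingHom
      (MvPolynomial.X : _ → MvPolynomial (Fin (m + 2) ⊕ Fin (m + 3)) ℂ) v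
    have h3 : (fun v => (MvPolynomial.aeval s :
        MvPolynomial (Fin (m + 2) ⊕ Fin (m + 3)) ℂ →ₐ[ℂ] ℂ).toRingHom
        ((MvPolynomial.X : _ → MvPolynomial (Fin (m + 2) ⊕ Fin (m + 3)) ℂ) v)) = s := by
      funext v
      exact MvPolynomial.aeval_X s v
    rw [h3] at h2
    exact h2.symm
  rw [← MvPolynomial.aeval_eq_eval, h1, ← MvPolynomial.comp_aeval_apply, h0, map_zero]

theorem eval_eq_fin {n : ℕ} (p : Polynomial ℂ) (hp : p.natDegree < n) (r : ℂ) :
    p.eval r = ∑ k : Fin n, p.coeff k * r ^ (k : ℕ) := by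
  rw [Polynomial.eval_eq_sum_range' hp, Finset.sum_range]

theorem der_eval_eq_fin {n : ℕ} (p : Polynomial ℂ) (hp : p.natDegree < n) (r : ℂ) :
    (Polynomial.derivative p).eval r = ∑ k : Fin n, p.coeff k * ((k : ℕ) : ℂ) * r ^ ((k : ℕ) - 1) := by
  have h1 : p = ∑ k ∈ Finset.range n, Polynomial.monomial k (p.coeff k) :=
    Polynomial.as_sum_range' p n hp
  conv_lhs => rw [h1]
  rw [Polynomial.derivative_sum, Polynomial.eval_finsetSum, Finset.sum_range]
  refine Finset.sum_congr rfl fun k _ => ?_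
  rw [Polynomial.derivative_monomial, Polynomial.eval_monomial]

/-- If the map has a double fixed point, its coefficients are in the image. -/
theorem disc_param {p q : Polynomial ℂ} (hp : p.natDegree < m + 3) (hq : q.natDegree < m + 3)
    {r : ℂ} (h1 : p.eval r = r * q.eval r)
    (h2 : (Polynomial.derivative p).eval r = q.eval r + r * (Polynomial.derivative q).eval r) :
    ∃ s : Fin (m + 2) ⊕ Fin (m + 3) → ℂ, dmap s =
      Sum.elim (fun i : Fin (m + 3) => p.coeff i) (fun i : Fin (m + 3) => q.coeff i) := by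
  refine ⟨Sum.elim (Fin.cons r (fun i : Fin (m + 1) => p.coeff ((i : ℕ) + 2)))
    (fun i : Fin (m + 3) => q.coeff i), ?_⟩
  have a1 : p.coeff 1 + ∑ i : Fin (m + 1), p.coeff ((i : ℕ) + 2) * (((i : ℕ) + 2 : ℕ) : ℂ) *
      r ^ ((i : ℕ) + 1) = Qs (fun k : Fin (m + 3) => q.coeff k) r +
        r * Qd (fun k : Fin (m + 3) => q.coeff k) r := by
    rw [der_eval_eq_fin p hp, der_eval_eq_fin q hq, eval_eq_fin q hq, Fin.sum_univ_succ,
      Fin.sum_univ_succ] at h2
    simp only [Fin.val_zero, Nat.cast_zero, mul_zero, zero_mul, zero_add, Fin.val_succ] at h2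
    unfold Qs Qd
    rw [← h2]
    simp only [Nat.cast_one, mul_one, Nat.sub_self, pow_zero, Nat.add_sub_cancel]
  have a0 : p.coeff 0 + (p.coeff 1 * r + ∑ i : Fin (m + 1), p.coeff ((i : ℕ) + 2) *
      r ^ ((i : ℕ) + 2)) = r * Qs (fun k : Fin (m + 3) => q.coeff k) r := by
    rw [eval_eq_fin p hp, eval_eq_fin q hq, Fin.sum_univ_succ, Fin.sum_univ_succ] at h1
    simp only [Fin.val_zero, pow_zero, mul_one, zero_add, Fin.val_succ, pow_one] at h1
    unfold Qs
    rw [← h1]
  funext v
  rcases v with k | k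
  · refine Fin.cases ?_ (fun i => ?_) k
    · simp only [dmap, Sum.elim_inl, Sum.elim_inr, Fin.cons_zero, Fin.cons_succ, Fin.val_zero]
      linear_combination a1 * r - a0
    · refine Fin.cases ?_ (fun i => ?_) i
      · simp only [dmap, Sum.elim_inl, Sum.elim_inr, Fin.cons_zero, Fin.cons_succ, Fin.val_zero,
          Fin.val_succ, zero_add]
        linear_combination -a1
      · simp only [dmap, Sum.elim_inl, Fin.cons_succ, Fin.val_succ]
  · rfl

end disc

end Pool.Agent.W522.Mult
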