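import Pool.Agent.W522.Mult.Res

/-!
# Places with given centre
-/

set_option autoImplicit false

namespace Pool.Agent.W522.Mult

open MvPolynomial

variable {K : Type*} [Field K] [CharZero K] {V : Type*}

theorem exists_place (t : V → K) (ht : AlgebraicIndependent ℚ t) (t0 : V → ℚ) :
    ∃ O : ValuationSubring K, (∀ q : ℚ, (q : K) ∈ O) ∧
      ∀ i, O.valuation (t i - (t0 i : K)) < 1 := by
  let f : MvPolynomial V ℚ →+* K := (aeval t : MvPolynomial V ℚ →ₐ[ℚ] K).toRingHom
  have hf : Function.Injective f := ht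
  let φ : MvPolynomial V ℚ ≃+* f.range := RingEquiv.ofBijective f.rangeRestrict
    ⟨fun a b h => hf (congrArg Subtype.val h), f.rangeRestrict_surjective⟩
  let e : f.range →+* ℚ := (eval t0).comp (φ.symm : f.range →+* MvPolynomial V ℚ)
  have hI : RingHom.ker e ≠ ⊤ := by
    intro h
    have h1 : (1 : f.range) ∈ RingHom.ker e := by rw [h]; trivial
    rw [RingHom.mem_ker, map_one] at h1
    exact one_ne_zero h1
  obtain ⟨O, hO1, hO2⟩ := Ideal.image_subset_nonunits_valuationSubring (RingHom.ker e) hI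
  refine ⟨O, fun q => ?_, fun i => ?_⟩
  · apply hO1
    refine ⟨C q, ?_⟩
    show (aeval t : MvPolynomial V ℚ →ₐ[ℚ] K) (C q) = (q : K)
    rw [aeval_C]; simp
  · rw [← ValuationSubring.mem_nonunits_iff]
    apply hO2
    refine ⟨φ (X i - C (t0 i)), ?_, ?_⟩
    · show φ (X i - C (t0 i)) ∈ RingHom.ker e
      rw [RingHom.mem_ker]
      show eval t0 (φ.symm (φ (X i - C (t0 i)))) = 0
      rw [RingEquiv.symm_apply_apply]
      simp
    · show (aeval t : MvPolynomial V ℚ →ₐ[ℚ] K) (X i - C (t0 i)) = _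
      rw [map_sub, aeval_X, aeval_C]; simp

lemma val_rat {O : ValuationSubring K} (hO : ∀ q : ℚ, (q : K) ∈ O) {q : ℚ} (hq : q ≠ 0) :
    O.valuation (q : K) = 1 := by
  have h1 : O.valuation (q : K) ≤ 1 := (O.valuation_le_one_iff _).2 (hO q)
  have h2 : O.valuation ((q⁻¹ : ℚ) : K) ≤ 1 := (O.valuation_le_one_iff _).2 (hO q⁻¹)
  have hq' : (q : K) ≠ 0 := by exact_mod_cast hq
  rw [Rat.cast_inv, map_inv₀] at h2
  have h3 : 0 < O.valuation (q : K) :=
    lt_of_le_of_ne zero_le ((O.valuation.ne_zero_iff).2 hq').symm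
  refine le_antisymm h1 ?_
  by_contra h
  push Not at h
  exact absurd h2 (not_le.2 ((one_lt_inv₀ h3).2 h))

/-- The rational numbers in the residue field. -/
noncomputable def ratRes {O : ValuationSubring K} (hO : ∀ q : ℚ, (q : K) ∈ O) :
    ℚ →+* IsLocalRing.ResidueField O :=
  (IsLocalRing.residue O).comp
    { toFun := fun q => ⟨(q : K), hO q⟩
      map_one' := Subtype.ext (by simp)
      map_zero' := Subtype.ext (by simp)
      map_add' := fun a b => Subtype.ext (by simp)
      map_mul' := fun a b => Subtype.ext (by simp) }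

lemma ratRes_eq {O : ValuationSubring K} (hO : ∀ q : ℚ, (q : K) ∈ O) (q : ℚ) :
    ratRes hO q = rs O (q : K) := by
  have : ((q : K)) = ((⟨(q : K), hO q⟩ : O) : K) := rfl
  rw [this, rs_of_mem]
  rfl

lemma rs_eq_rat {O : ValuationSubring K} (hO : ∀ q : ℚ, (q : K) ∈ O) {a : K} {q : ℚ}
    (h : O.valuation (a - (q : K)) < 1) : O.valuation a ≤ 1 ∧ rs O a = ratRes hO q := by
  have h1 : O.valuation (q : K) ≤ 1 := (O.valuation_le_one_iff _).2 (hO q)
  have h2 : O.valuation a ≤ 1 := by
    have : a = (a - (q : K)) + (q : K) := by ring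
    rw [this]; exact v_add _ h.le h1
  exact ⟨h2, by rw [ratRes_eq]; exact rs_congr h2 h1 h⟩

end Pool.Agent.W522.Mult
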