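import Pool.Agent.W522.Mult.Lip

/-!
# Residues
-/

set_option autoImplicit false

namespace Pool.Agent.W522.Mult

open Finset IsLocalRing

variable {K : Type*} [Field K] (O : ValuationSubring K)

open Classical in
/-- The residue of an element of the valuation ring, `0` for the other elements. -/
noncomputable def rs (t : K) : ResidueField O :=
  if h : t ∈ O then residue O ⟨t, h⟩ else 0

variable {O}

lemma mem_of_le {t : K} (h : O.valuation t ≤ 1) : t ∈ O := (O.valuation_le_one_iff t).1 h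

lemma rs_of_le {t : K} (h : O.valuation t ≤ 1) : rs O t = residue O ⟨t, mem_of_le h⟩ := by
  unfold rs; rw [dif_pos (mem_of_le h)]

lemma rs_of_mem (t : O) : rs O (t : K) = residue O t := by
  unfold rs; rw [dif_pos t.2]

lemma rs_add {a b : K} (ha : O.valuation a ≤ 1) (hb : O.valuation b ≤ 1) :
    rs O (a + b) = rs O a + rs O b := by
  rw [rs_of_le ha, rs_of_le hb, ← map_add, ← rs_of_mem]; rfl

lemma rs_mul {a b : K} (ha : O.valuation a ≤ 1) (hb : O.valuation b ≤ 1) :
    rs O (a * b) = rs O a * rs O b := by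
  rw [rs_of_le ha, rs_of_le hb, ← map_mul, ← rs_of_mem]; rfl

lemma rs_sub {a b : K} (ha : O.valuation a ≤ 1) (hb : O.valuation b ≤ 1) :
    rs O (a - b) = rs O a - rs O b := by
  rw [rs_of_le ha, rs_of_le hb, ← map_sub, ← rs_of_mem]; rfl

lemma rs_neg {a : K} (ha : O.valuation a ≤ 1) :
    rs O (-a) = - rs O a := by
  rw [rs_of_le ha, ← map_neg, ← rs_of_mem]; rfl

lemma rs_zero : rs O 0 = 0 := by
  have : (0 : K) = ((0 : O) : K) := rfl
  rw [this, rs_of_mem, map_zero]

lemma rs_one : rs O 1 = 1 := by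
  have : (1 : K) = ((1 : O) : K) := rfl
  rw [this, rs_of_mem, map_one]

lemma rs_eq_zero_iff {a : K} (ha : O.valuation a ≤ 1) : rs O a = 0 ↔ O.valuation a < 1 := by
  rw [rs_of_le ha, residue_eq_zero_iff, O.valuation_lt_one_iff]

lemma rs_eq_zero {a : K} (ha : O.valuation a < 1) : rs O a = 0 :=
  (rs_eq_zero_iff ha.le).2 ha

lemma rs_ne_zero {a : K} (ha : O.valuation a = 1) : rs O a ≠ 0 := by
  rw [Ne, rs_eq_zero_iff ha.le, ha]; exact lt_irrefl _

lemma rs_inv {a : K} (ha : O.valuation a = 1) : rs O a⁻¹ = (rs O a)⁻¹ := by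
  have ha0 : a ≠ 0 := by
    rintro rfl; rw [map_zero] at ha; exact zero_ne_one ha
  have h1 : O.valuation a⁻¹ ≤ 1 := by rw [map_inv₀, ha, inv_one]
  have h2 : rs O a * rs O a⁻¹ = 1 := by
    rw [← rs_mul ha.le h1, mul_inv_cancel₀ ha0, rs_one]
  exact eq_inv_of_mul_eq_one_right h2

lemma rs_sum {ι : Type*} (S : Finset ι) (f : ι → K) (h : ∀ i ∈ S, O.valuation (f i) ≤ 1) :
    rs O (∑ i ∈ S, f i) = ∑ i ∈ S, rs O (f i) := by
  classical
  induction S using Finset.induction_on with
  | empty => simp [rs_zero]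
  | insert a S ha ih =>
    rw [sum_insert ha, sum_insert ha, rs_add (h a (mem_insert_self a S))
      (O.valuation.map_sum_le fun i hi => h i (mem_insert_of_mem hi)),
      ih fun i hi => h i (mem_insert_of_mem hi)]

lemma rs_congr {a b : K} (ha : O.valuation a ≤ 1) (hb : O.valuation b ≤ 1)
    (h : O.valuation (a - b) < 1) : rs O a = rs O b := by
  have := rs_eq_zero h
  rw [rs_sub ha hb] at this
  exact sub_eq_zero.1 this

lemma rs_two_ne (h : O.valuation (2 : K) = 1) : (2 : ResidueField O) ≠ 0 := by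
  have h1 := rs_ne_zero h
  have h2 : rs O (2 : K) = 2 := by
    have : (2 : K) = ((2 : O) : K) := rfl
    rw [this, rs_of_mem, map_ofNat]
  rwa [h2] at h1

end Pool.Agent.W522.Mult
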