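import Pool.Agent.W522.Mult.Defs

/-!
# First order expansion of the multiplier
-/

set_option autoImplicit false

namespace Pool.Agent.W522.Mult

open Finset

variable {K : Type*} [Field K] {ι : Type*} [Fintype ι] [DecidableEq ι]

/-- `∑_{k ≠ a} c_k / (z - x_k)` -/
def sS (c x : ι → K) (a : ι) (z : K) : K := ∑ k ∈ univ.erase a, c k * (z - x k)⁻¹

/-- `∑_{k ≠ a} c_k / (z - x_k)²` -/
def sT (c x : ι → K) (a : ι) (z : K) : K := ∑ k ∈ univ.erase a, c k * ((z - x k)⁻¹) ^ 2

/-- `∑_{k ≠ a} c_k / ((z - x_k) (x_a - x_k))` -/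
def sM (c x : ι → K) (a : ι) (z : K) : K :=
  ∑ k ∈ univ.erase a, c k * (z - x k)⁻¹ * (x a - x k)⁻¹

/-- The remainder of order two. -/
def rem (c x : ι → K) (a : ι) (ε u w D : K) : K :=
  (D + ε * (u - w)) ^ 2 * (sS c x a (x a + ε * u) ^ 2 + c a * sT c x a (x a + ε * u)) -
    2 * (u - w) * sS c x a (x a + ε * u) + 2 * D * u * sM c x a (x a + ε * u)

lemma force_eq (c x : ι → K) (a : ι) : force c x a = ∑ k ∈ univ.erase a, c k * (x a - x k)⁻¹ := by
  unfold force
  rw [← Finset.add_sum_erase _ _ (mem_univ a)]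
  simp [div_eq_mul_inv]

lemma sS_eq (c x : ι → K) (a : ι) (ε u : K) (h1 : ∀ k, k ≠ a → x a - x k ≠ 0)
    (h2 : ∀ k, k ≠ a → x a + ε * u - x k ≠ 0) :
    sS c x a (x a + ε * u) = force c x a - ε * u * sM c x a (x a + ε * u) := by
  rw [force_eq, sS, sM, mul_sum, ← sum_sub_distrib]
  refine sum_congr rfl fun k hk => ?_
  have hk' := (mem_erase.1 hk).1
  have := h1 k hk'
  have := h2 k hk'
  field_simp
  ring

lemma sum_div_eq (c x : ι → K) (a : ι) (ε z : K) :
    ∑ k, ε * c k / (z - x k) = ε * (c a / (z - x a) + sS c x a z) := by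
  rw [← Finset.add_sum_erase _ _ (mem_univ a), sS, mul_add, mul_sum]
  congr 1
  · ring
  · refine sum_congr rfl fun k _ => ?_
    rw [div_eq_mul_inv]; ring

lemma sum_div_sq_eq (c x : ι → K) (a : ι) (ε z : K) :
    ∑ k, ε * c k / (z - x k) ^ 2 = ε * (c a / (z - x a) ^ 2 + sT c x a z) := by
  rw [← Finset.add_sum_erase _ _ (mem_univ a), sT, mul_add, mul_sum]
  congr 1
  · ring
  · refine sum_congr rfl fun k _ => ?_
    rw [div_eq_mul_inv, inv_pow]; ring

/-- The exact formula for one factor of the multiplier. -/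
lemma side_exact (c x : ι → K) (a : ι) {ε u y : K} (hε : ε ≠ 0) (hu : u ≠ 0)
    (h : (∑ k, ε * c k / (x a + ε * u - x k)) * (x a + ε * u - y) = 1) :
    -(c a) * (ε * side (fun k => ε * c k) x (x a + ε * u) y) =
      (1 - ε * (x a + ε * u - y) * sS c x a (x a + ε * u)) ^ 2 - ε * c a +
        ε ^ 2 * (c a * (x a + ε * u - y) ^ 2 * sT c x a (x a + ε * u)) := by
  rw [sum_div_eq c x a] at h
  unfold side
  rw [sum_div_sq_eq c x a]
  set A := x a + ε * u - y with hA
  set s := sS c x a (x a + ε * u)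
  set τ := sT c x a (x a + ε * u)
  have e1 : x a + ε * u - x a = ε * u := by ring
  rw [e1] at h ⊢
  have key : c a * A = u * (1 - ε * A * s) := by
    field_simp at h
    linear_combination h
  have key2 : (1 - ε * A * s) = c a * A / u := by
    rw [key]; field_simp
  rw [key2]
  field_simp
  ring

/-- First order expansion of one factor of the multiplier. -/
lemma side_expand (c x : ι → K) (a : ι) {ε u w b : K} (hε : ε ≠ 0) (hu : u ≠ 0)
    (h1 : ∀ k, k ≠ a → x a - x k ≠ 0) (h2 : ∀ k, k ≠ a → x a + ε * u - x k ≠ 0)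
    (h : (∑ k, ε * c k / (x a + ε * u - x k)) * (x a + ε * u - (b + ε * w)) = 1) :
    -(c a) * (ε * side (fun k => ε * c k) x (x a + ε * u) (b + ε * w)) =
      1 - ε * (c a + 2 * (x a - b) * force c x a) + ε ^ 2 * rem c x a ε u w (x a - b) := by
  rw [side_exact c x a hε hu h]
  have e : x a + ε * u - (b + ε * w) = (x a - b) + ε * (u - w) := by ring
  rw [e]
  unfold rem
  have hs := sS_eq c x a ε u h1 h2
  set s := sS c x a (x a + ε * u)
  set τ := sT c x a (x a + ε * u)
  set m := sM c x a (x a + ε * u)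
  have hF : force c x a = s + ε * u * m := by rw [hs]; ring
  rw [hF]
  ring

end Pool.Agent.W522.Mult
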