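import Pool.Agent.W522.Mult.ValCore3
import Pool.Agent.W522.Mult.Place

/-!
# Ultrapowers of the complex numbers
-/

set_option autoImplicit false

namespace Pool.Agent.W522.Mult

open Filter

variable {I : Type} (φ : Ultrafilter I)

/-- The ultrapower of the complex numbers. -/
abbrev UC : Type := (φ : Filter I).Germ ℂ

/-- The canonical ring homomorphism onto the ultrapower. -/
noncomputable def pr : (I → ℂ) →+* UC φ := Filter.Germ.coeRingHom (φ : Filter I)

variable {φ}

lemma pr_apply (f : I → ℂ) : pr φ f = (f : UC φ) := rfl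

lemma pr_surj (a : UC φ) : ∃ f : I → ℂ, pr φ f = a :=
  Filter.Germ.inductionOn a fun f => ⟨f, rfl⟩

lemma pr_eq_iff {f g : I → ℂ} : pr φ f = pr φ g ↔ ∀ᶠ S in (φ : Filter I), f S = g S :=
  Filter.Germ.coe_eq

lemma pr_ne_iff {f g : I → ℂ} : pr φ f ≠ pr φ g ↔ ∀ᶠ S in (φ : Filter I), f S ≠ g S := by
  rw [Ne, pr_eq_iff]
  exact Ultrafilter.eventually_not.symm

lemma pr_div (f g : I → ℂ) : pr φ (fun S => f S / g S) = pr φ f / pr φ g := rfl

lemma pr_inv (f : I → ℂ) : pr φ (fun S => (f S)⁻¹) = (pr φ f)⁻¹ := rfl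

lemma pr_add (f g : I → ℂ) : pr φ (fun S => f S + g S) = pr φ f + pr φ g := rfl

lemma pr_sub (f g : I → ℂ) : pr φ (fun S => f S - g S) = pr φ f - pr φ g := rfl

lemma pr_mul (f g : I → ℂ) : pr φ (fun S => f S * g S) = pr φ f * pr φ g := rfl

lemma pr_one : pr φ (fun _ => 1) = 1 := map_one (pr φ)

lemma pr_zero : pr φ (fun _ => 0) = 0 := map_zero (pr φ)

lemma pr_pow (f : I → ℂ) (n : ℕ) : pr φ (fun S => f S ^ n) = pr φ f ^ n := map_pow (pr φ) f n

lemma pr_sum {κ : Type*} (s : Finset κ) (f : κ → I → ℂ) :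
    pr φ (fun S => ∑ i ∈ s, f i S) = ∑ i ∈ s, pr φ (f i) := by
  rw [← map_sum]
  congr 1
  funext S
  rw [Finset.sum_apply]

instance : CharZero (UC φ) :=
  charZero_of_injective_ringHom (f := (pr φ).comp (Pi.constRingHom I ℂ)) (RingHom.injective _)

instance : IsAlgClosed (UC φ) := by
  refine IsAlgClosed.of_exists_root _ fun p hp hirr => ?_
  have hdeg : 0 < p.natDegree := hirr.natDegree_pos
  choose a ha using fun k : ℕ => pr_surj (p.coeff k)
  have h1 : ∀ S : I, ∃ r : ℂ, r ^ p.natDegree + ∑ k ∈ Finset.range p.natDegree, a k S * r ^ k = 0 := by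
    intro S
    set q : Polynomial ℂ := Polynomial.X ^ p.natDegree +
      ∑ k ∈ Finset.range p.natDegree, Polynomial.C (a k S) * Polynomial.X ^ k with hq
    have hlt : (∑ k ∈ Finset.range p.natDegree, Polynomial.C (a k S) * Polynomial.X ^ k).degree <
        (p.natDegree : WithBot ℕ) := by
      refine lt_of_le_of_lt (Polynomial.degree_sum_le _ _) ?_
      rw [Finset.sup_lt_iff (by exact WithBot.bot_lt_coe _)]
      intro k hk
      refine lt_of_le_of_lt (Polynomial.degree_C_mul_X_pow_le _ _) ?_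
      exact_mod_cast Finset.mem_range.1 hk
    have hqd : q.degree = p.natDegree := by
      rw [hq, Polynomial.degree_add_eq_left_of_degree_lt]
      · exact Polynomial.degree_X_pow _
      · rw [Polynomial.degree_X_pow]; exact hlt
    obtain ⟨r, hr⟩ := IsAlgClosed.exists_root q (by
      rw [hqd]; exact_mod_cast hdeg.ne')
    refine ⟨r, ?_⟩
    rw [Polynomial.IsRoot, hq, Polynomial.eval_add, Polynomial.eval_pow, Polynomial.eval_X,
      Polynomial.eval_finsetSum] at hr
    simpa using hr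
  choose r hr using h1
  refine ⟨pr φ r, ?_⟩
  rw [Polynomial.eval_eq_sum_range, Finset.sum_range_succ]
  have h2 : p.coeff p.natDegree = 1 := hp
  rw [h2, one_mul]
  have h3 : ∑ k ∈ Finset.range p.natDegree, p.coeff k * pr φ r ^ k =
      pr φ (fun S => ∑ k ∈ Finset.range p.natDegree, a k S * r S ^ k) := by
    rw [pr_sum]
    refine Finset.sum_congr rfl fun k _ => ?_
    rw [← ha k, ← pr_pow, ← pr_mul]
  rw [h3, ← pr_pow, ← pr_add, ← pr_zero, pr_eq_iff]
  refine Filter.Eventually.of_forall fun S => ?_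
  rw [add_comm]; exact hr S

section cycle

variable {ι : Type} [Fintype ι] (w x : ι → I → ℂ) (z y : I → ℂ)

lemma pr_side : side (fun i => pr φ (w i)) (fun i => pr φ (x i)) (pr φ z) (pr φ y) =
    pr φ (fun S => side (fun i => w i S) (fun i => x i S) (z S) (y S)) := by
  unfold side
  rw [pr_sub, pr_mul, pr_pow, pr_sub, pr_sum, pr_one]
  rfl

lemma pr_mult : mult (fun i => pr φ (w i)) (fun i => pr φ (x i)) (pr φ z) (pr φ y) =
    pr φ (fun S => mult (fun i => w i S) (fun i => x i S) (z S) (y S)) := by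
  unfold mult
  rw [pr_side, pr_side, pr_mul]

lemma pr_isCycle : IsCycle (fun i => pr φ (w i)) (fun i => pr φ (x i)) (pr φ z) (pr φ y) ↔
    ∀ᶠ S in (φ : Filter I), IsCycle (fun i => w i S) (fun i => x i S) (z S) (y S) := by
  unfold IsCycle
  rw [Filter.eventually_and, Filter.eventually_and, Filter.eventually_and,
    Filter.eventually_all, Filter.eventually_all]
  refine and_congr (forall_congr' fun i => pr_ne_iff) (and_congr (forall_congr' fun i => pr_ne_iff)
    (and_congr ?_ ?_))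
  · rw [← pr_eq_iff (f := fun S => (∑ i, w i S / (z S - x i S)) * (z S - y S)) (g := fun _ => 1),
      pr_one, pr_mul, pr_sum]
    rfl
  · rw [← pr_eq_iff (f := fun S => (∑ i, w i S / (y S - x i S)) * (y S - z S)) (g := fun _ => 1),
      pr_one, pr_mul, pr_sum]
    rfl

end cycle

lemma pr_aeval {V : Type} (t : V → I → ℂ) (p : MvPolynomial V ℚ) :
    MvPolynomial.aeval (fun i => pr φ (t i)) p =
      pr φ (fun S => MvPolynomial.aeval (fun i => t i S) p) := by
  have h1 := MvPolynomial.eval₂_comp_left (pr φ) (Pi.constRingHom I ℂ |>.comp (algebraMap ℚ ℂ)) t p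
  have h2 : (pr φ).comp ((Pi.constRingHom I ℂ).comp (algebraMap ℚ ℂ)) = algebraMap ℚ (UC φ) :=
    Subsingleton.elim _ _
  rw [h2] at h1
  rw [MvPolynomial.aeval_def]
  have h3 : (⇑(pr φ) ∘ t) = fun i => pr φ (t i) := rfl
  rw [h3] at h1
  rw [← h1]
  congr 1
  funext S
  rw [MvPolynomial.aeval_def]
  have h4 := MvPolynomial.eval₂_comp_left (Pi.evalRingHom (fun _ : I => ℂ) S)
    ((Pi.constRingHom I ℂ).comp (algebraMap ℚ ℂ)) t p
  have h5 : (Pi.evalRingHom (fun _ : I => ℂ) S).comp ((Pi.constRingHom I ℂ).comp (algebraMap ℚ ℂ)) =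
      algebraMap ℚ ℂ := Subsingleton.elim _ _
  rw [h5] at h4
  exact h4

end Pool.Agent.W522.Mult
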