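import Pool.Agent.W522.Mult.Res
import Pool.Agent.W522.Mult.Generic

/-!
# The core argument over a valued field
-/

set_option autoImplicit false

namespace Pool.Agent.W522.Mult

open Finset IsLocalRing

variable {K : Type*} [Field K] {ι : Type*} [Fintype ι] [DecidableEq ι]

lemma mult_symm (w x : ι → K) (z y : K) : mult w x z y = mult w x y z := by
  unfold mult; rw [mul_comm]

section

variable {Γ₀ : Type*} [LinearOrderedCommGroupWithZero Γ₀] (v : Valuation K Γ₀)

/-- The expansion, in a form convenient for comparison. -/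
lemma mult_expand_v {c x : ι → K} {a b : ι} (hc : ∀ k, v (c k) ≤ 1)
    (hxa : ∀ k, k ≠ a → 1 ≤ v (x a - x k)) (hxb : ∀ k, k ≠ b → 1 ≤ v (x b - x k))
    (hab : v (x a - x b) ≤ 1) {ε u w : K} (hε0 : ε ≠ 0) (hε : v ε < 1) (hu : v u ≤ 1)
    (hw : v w ≤ 1) (e : IsCycle (fun k => ε * c k) x (x a + ε * u) (x b + ε * w)) :
    ∃ R, v R ≤ 1 ∧ c a * c b * (ε ^ 2 * mult (fun k => ε * c k) x (x a + ε * u) (x b + ε * w)) =
      1 - ε * (c a + c b + 2 * T c x a b) + ε ^ 2 * R := by
  have he : ∀ t : K, v t ≤ 1 → v (ε * t) < 1 := by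
    intro t ht
    rw [map_mul]; exact lt_of_le_of_lt (mul_le_of_le_one_right' ht) hε
  have nz : ∀ t : K, 1 ≤ v t → t ≠ 0 := by
    rintro t ht rfl
    rw [map_zero] at ht; exact absurd ht (not_le.2 zero_lt_one)
  exact ⟨_, remT_le v hc hxa hxb hab hε hu hw,
    mult_expand c x a b hε0 e.ne_zero e.symm'.ne_zero (fun i hi => nz _ (hxa i hi))
    (fun i hi => nz _ (by rw [far v hxa (he u hu) i hi]; exact hxa i hi))
    (fun i hi => nz _ (hxb i hi))
    (fun i hi => nz _ (by rw [far v hxb (he w hw) i hi]; exact hxb i hi)) e⟩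

lemma T_le {c x : ι → K} {a b : ι} (hc : ∀ k, v (c k) ≤ 1)
    (hxa : ∀ k, k ≠ a → 1 ≤ v (x a - x k)) (hxb : ∀ k, k ≠ b → 1 ≤ v (x b - x k))
    (hab : v (x a - x b) ≤ 1) : v (T c x a b) ≤ 1 :=
  v_mul v hab (v_sub v (force_le v hc hxa) (force_le v hc hxb))

end

/-- The standing assumptions: a nondegenerate configuration `x`, another configuration `x'`
whose points have distances at least one, and the multipliers of the cycles of the second occur
among those of the first. -/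
structure Setup (O : ValuationSubring K) (c x x' : ι → K) (ε : K) (i₀ i₁ i₂ : ι) : Prop where
  hchar : ∀ n : ℕ, n ≠ 0 → O.valuation (n : K) = 1
  hε0 : ε ≠ 0
  hε : O.valuation ε < 1
  hc : ∀ k, O.valuation (c k) = 1
  hx1 : ∀ k, O.valuation (x k) ≤ 1
  gen : Gen (fun k => rs O (c k)) (fun k => rs O (x k)) i₀ i₁ i₂
  hx' : ∀ a k, k ≠ a → 1 ≤ O.valuation (x' a - x' k)
  H : ∀ z y, IsCycle (fun k => ε * c k) x' z y → ∃ z' y', IsCycle (fun k => ε * c k) x z' y' ∧
    mult (fun k => ε * c k) x z' y' = mult (fun k => ε * c k) x' z y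

variable {O : ValuationSubring K} {c x x' : ι → K} {ε : K} {i₀ i₁ i₂ : ι}

lemma Setup.hx (S : Setup O c x x' ε i₀ i₁ i₂) (a k : ι) (hk : k ≠ a) :
    1 ≤ O.valuation (x a - x k) := by
  by_contra hcon
  push Not at hcon
  have h1 := rs_eq_zero hcon
  rw [rs_sub (S.hx1 a) (S.hx1 k)] at h1
  exact hk (S.gen.inj (sub_eq_zero.1 h1)).symm

lemma Setup.htot (S : Setup O c x x' ε i₀ i₁ i₂) : O.valuation (∑ k, c k) = 1 := by
  have h1 : O.valuation (∑ k, c k) ≤ 1 := O.valuation.map_sum_le fun i _ => (S.hc i).le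
  refine le_antisymm h1 (not_lt.1 fun h2 => S.gen.tot ?_)
  rw [← rs_sum univ c fun i _ => (S.hc i).le]
  exact rs_eq_zero h2

lemma Setup.h2 (S : Setup O c x x' ε i₀ i₁ i₂) : O.valuation (2 : K) = 1 := by
  have := S.hchar 2 (by norm_num)
  exact_mod_cast this

/-- matching of cycles -/
lemma Setup.matching [IsAlgClosed K] (S : Setup O c x x' ε i₀ i₁ i₂) {a b : ι} (hab : a ≠ b)
    (hD : O.valuation (x' a - x' b) ≤ 1) :
    ∃ u w u' w', O.valuation u ≤ 1 ∧ O.valuation w ≤ 1 ∧ O.valuation u' ≤ 1 ∧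
      O.valuation w' ≤ 1 ∧ IsCycle (fun k => ε * c k) x (x a + ε * u) (x b + ε * w) ∧
      IsCycle (fun k => ε * c k) x' (x' a + ε * u') (x' b + ε * w') ∧
      mult (fun k => ε * c k) x (x a + ε * u) (x b + ε * w) =
        mult (fun k => ε * c k) x' (x' a + ε * u') (x' b + ε * w') := by
  obtain ⟨u', w', hu', hw', e'⟩ := exists_cycle O.valuation hab S.hc (S.hx' a) (S.hx' b) hD
    S.hε0 S.hε S.hchar
  obtain ⟨z, y, e, hm⟩ := S.H _ _ e'
  obtain ⟨a1, b1, hab1, u, w, rfl, rfl, hu, hw⟩ :=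
    locate O.valuation S.hc S.htot S.hx1 S.hx S.hε0 S.hε e
  have hc' : ∀ k, O.valuation (c k) ≤ 1 := fun k => (S.hc k).le
  have hD1 : O.valuation (x a1 - x b1) ≤ 1 := v_sub _ (S.hx1 a1) (S.hx1 b1)
  obtain ⟨R, hR, E⟩ := mult_expand_v O.valuation hc' (S.hx a1) (S.hx b1) hD1 S.hε0 S.hε hu hw e
  obtain ⟨R', hR', E'⟩ := mult_expand_v O.valuation hc' (S.hx' a) (S.hx' b) hD S.hε0 S.hε
    hu' hw' e'
  rw [hm] at E
  set μ := ε ^ 2 * mult (fun k => ε * c k) x' (x' a + ε * u') (x' b + ε * w') with hμ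
  have small : ∀ t R : K, O.valuation t ≤ 1 → O.valuation R ≤ 1 →
      O.valuation (ε * t - ε ^ 2 * R) < 1 := by
    intro t R ht hR
    have : ε * t - ε ^ 2 * R = ε * (t - ε * R) := by ring
    rw [this, map_mul]
    exact lt_of_le_of_lt (mul_le_of_le_one_right' (v_sub _ ht (v_mul _ S.hε.le hR))) S.hε
  have t1 : O.valuation (c a1 + c b1 + 2 * T c x a1 b1) ≤ 1 :=
    v_add _ (v_add _ (hc' a1) (hc' b1)) (v_mul _ (v_two _) (T_le _ hc' (S.hx a1) (S.hx b1) hD1))
  have t2 : O.valuation (c a + c b + 2 * T c x' a b) ≤ 1 :=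
    v_add _ (v_add _ (hc' a) (hc' b)) (v_mul _ (v_two _) (T_le _ hc' (S.hx' a) (S.hx' b) hD))
  have s1 := small _ _ t1 hR
  have s2 := small _ _ t2 hR'
  have key : c a * c b - c a1 * c b1 =
      c a * c b * (ε * (c a1 + c b1 + 2 * T c x a1 b1) - ε ^ 2 * R) -
      c a1 * c b1 * (ε * (c a + c b + 2 * T c x' a b) - ε ^ 2 * R') := by
    linear_combination (-(c a * c b)) * E + (c a1 * c b1) * E'
  have hlt : O.valuation (c a * c b - c a1 * c b1) < 1 := by
    rw [key]
    refine O.valuation.map_sub_lt ?_ ?_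
    · rw [map_mul]
      exact lt_of_le_of_lt (mul_le_of_le_one_left' (v_mul _ (hc' a) (hc' b))) s1
    · rw [map_mul]
      exact lt_of_le_of_lt (mul_le_of_le_one_left' (v_mul _ (hc' a1) (hc' b1))) s2
  have hres := rs_congr (v_mul _ (hc' a) (hc' b)) (v_mul _ (hc' a1) (hc' b1)) hlt
  rw [rs_mul (hc' a) (hc' b), rs_mul (hc' a1) (hc' b1)] at hres
  rcases S.gen.prod a b a1 b1 hab hab1 hres with ⟨rfl, rfl⟩ | ⟨rfl, rfl⟩
  · exact ⟨u, w, u', w', hu, hw, hu', hw', e, e', hm⟩
  · exact ⟨w, u, u', w', hw, hu, hu', hw', e.symm', e', by rw [mult_symm]; exact hm⟩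

/-- comparison of the numbers `T` -/
lemma Setup.T_eq [IsAlgClosed K] (S : Setup O c x x' ε i₀ i₁ i₂) {a b : ι} (hab : a ≠ b)
    (hD : O.valuation (x' a - x' b) ≤ 1) : rs O (T c x' a b) = rs O (T c x a b) := by
  obtain ⟨u, w, u', w', hu, hw, hu', hw', e, e', hm⟩ := S.matching hab hD
  have hc' : ∀ k, O.valuation (c k) ≤ 1 := fun k => (S.hc k).le
  have hD1 : O.valuation (x a - x b) ≤ 1 := v_sub _ (S.hx1 a) (S.hx1 b)
  obtain ⟨R, hR, E⟩ := mult_expand_v O.valuation hc' (S.hx a) (S.hx b) hD1 S.hε0 S.hε hu hw e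
  obtain ⟨R', hR', E'⟩ := mult_expand_v O.valuation hc' (S.hx' a) (S.hx' b) hD S.hε0 S.hε
    hu' hw' e'
  rw [hm, E'] at E
  have key : 2 * (T c x' a b - T c x a b) = ε * (R' - R) := by
    have : ε * (2 * (T c x' a b - T c x a b)) = ε * (ε * (R' - R)) := by
      linear_combination -E
    exact mul_left_cancel₀ S.hε0 this
  apply rs_congr (T_le _ hc' (S.hx' a) (S.hx' b) hD) (T_le _ hc' (S.hx a) (S.hx b) hD1)
  have h1 := congrArg O.valuation key
  rw [map_mul, S.h2, one_mul] at h1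
  rw [h1, map_mul]
  exact lt_of_le_of_lt (mul_le_of_le_one_right' (v_sub _ hR' hR)) S.hε

lemma rs_force {c x : ι → K} (hc : ∀ k, O.valuation (c k) ≤ 1) {C : Finset ι} {a : ι}
    (ha : a ∈ C) (hC : ∀ k, k ∈ C ↔ O.valuation (x k) ≤ 1)
    (hx : ∀ k, k ≠ a → 1 ≤ O.valuation (x a - x k)) :
    rs O (force c x a) = ∑ l ∈ C, rs O (c l) / (rs O (x a) - rs O (x l)) := by
  rw [force_eq, rs_sum _ _ fun k hk => v_mul _ (hc k) (v_inv _ (hx k (mem_erase.1 hk).1))]
  have h1 : ∀ k ∈ univ.erase a, rs O (c k * (x a - x k)⁻¹) =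
      if k ∈ C then rs O (c k) / (rs O (x a) - rs O (x k)) else 0 := by
    intro k hk
    have hk' := (mem_erase.1 hk).1
    rw [rs_mul (hc k) (v_inv _ (hx k hk'))]
    split_ifs with hkC
    · have h2 : O.valuation (x a - x k) = 1 :=
        le_antisymm (v_sub _ ((hC a).1 ha) ((hC k).1 hkC)) (hx k hk')
      rw [rs_inv h2, rs_sub ((hC a).1 ha) ((hC k).1 hkC), div_eq_mul_inv]
    · have h2 : 1 < O.valuation (x k) := not_le.1 fun h => hkC ((hC k).2 h)
      have h3 : O.valuation (x a - x k) = O.valuation (x k) :=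
        O.valuation.map_sub_eq_of_lt_right (((hC a).1 ha).trans_lt h2)
      have h4 : rs O (x a - x k)⁻¹ = 0 := by
        apply rs_eq_zero
        rw [map_inv₀, h3]
        exact inv_lt_one_of_one_lt₀ h2
      rw [h4, mul_zero]
  rw [sum_congr rfl h1, sum_ite, sum_const_zero, add_zero]
  have h5 : ∑ l ∈ C, rs O (c l) / (rs O (x a) - rs O (x l)) =
      ∑ l ∈ C.erase a, rs O (c l) / (rs O (x a) - rs O (x l)) := by
    rw [← add_sum_erase _ _ ha, sub_self, div_zero, zero_add]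
  rw [h5]
  refine sum_congr ?_ fun _ _ => rfl
  ext k
  simp [and_comm]

lemma rs_T {c x : ι → K} (hc : ∀ k, O.valuation (c k) ≤ 1) {C : Finset ι} {a b : ι}
    (ha : a ∈ C) (hb : b ∈ C) (hC : ∀ k, k ∈ C ↔ O.valuation (x k) ≤ 1)
    (hx : ∀ a k, k ≠ a → 1 ≤ O.valuation (x a - x k)) :
    rs O (T c x a b) = (rs O (x a) - rs O (x b)) *
      (∑ l ∈ C, rs O (c l) / (rs O (x a) - rs O (x l)) -
        ∑ l ∈ C, rs O (c l) / (rs O (x b) - rs O (x l))) := by
  have ha' := (hC a).1 ha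
  have hb' := (hC b).1 hb
  unfold T
  rw [rs_mul (v_sub _ ha' hb') (v_sub _ (force_le _ hc (hx a)) (force_le _ hc (hx b))),
    rs_sub ha' hb', rs_sub (force_le _ hc (hx a)) (force_le _ hc (hx b)), rs_force hc ha hC (hx a),
    rs_force hc hb hC (hx b)]

lemma Setup.rs_T_x (S : Setup O c x x' ε i₀ i₁ i₂) (a b : ι) :
    rs O (T c x a b) = T (fun k => rs O (c k)) (fun k => rs O (x k)) a b := by
  rw [rs_T (fun k => (S.hc k).le) (mem_univ a) (mem_univ b)
    (fun k => ⟨fun _ => S.hx1 k, fun _ => mem_univ k⟩) S.hx]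
  rfl

/-- The second configuration is nondegenerate, too. -/
lemma Setup.nondeg [IsAlgClosed K] (S : Setup O c x x' ε i₀ i₁ i₂) {p q : ι} (hpq : p ≠ q)
    (hp : O.valuation (x' p) ≤ 1) (hq : O.valuation (x' q) ≤ 1) (k : ι) :
    O.valuation (x' k) ≤ 1 := by
  classical
  set C : Finset ι := univ.filter fun k => O.valuation (x' k) ≤ 1 with hCdef
  have hC : ∀ k, k ∈ C ↔ O.valuation (x' k) ≤ 1 := fun k => by simp [hCdef]
  by_contra hk
  have hCne : C ≠ univ := fun h => hk ((hC k).1 (h ▸ mem_univ k))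
  apply S.gen.sub C hCne ⟨p, (hC p).2 hp, q, (hC q).2 hq, hpq⟩
  have hc' : ∀ k, O.valuation (c k) ≤ 1 := fun k => (S.hc k).le
  rw [← sum_T_sub (fun k => rs O (c k)) (fun k => rs O (x' k)) C ?_ (rs_two_ne S.h2)]
  · refine sum_congr rfl fun a ha => sum_congr rfl fun b hb => ?_
    congr 1
    by_cases hab : a = b
    · subst hab; unfold T; ring
    · rw [← S.rs_T_x, ← S.T_eq hab (v_sub _ ((hC a).1 ha) ((hC b).1 hb)), rs_T hc' ha hb hC S.hx']
  · intro a ha b hb hab
    by_contra hne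
    have h1 := S.hx' a b (Ne.symm hne)
    have h2 : O.valuation (x' a - x' b) < 1 := by
      rw [← rs_eq_zero_iff (v_sub _ ((hC a).1 ha) ((hC b).1 hb)), rs_sub ((hC a).1 ha) ((hC b).1 hb)]
      exact sub_eq_zero.2 hab
    exact absurd h1 (not_le.2 h2)

/-- The residues of the two configurations agree, if both are normalised. -/
lemma Setup.rs_eq [IsAlgClosed K] (S : Setup O c x x' ε i₀ i₁ i₂) {p q : ι} (hpq : p ≠ q)
    (h01 : i₁ ≠ i₀) (h02 : i₂ ≠ i₀)
    (hp : x p = 0) (hq : x q = 1) (hp' : x' p = 0) (hq' : x' q = 1) (k : ι) :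
    rs O (x' k) = rs O (x k) := by
  have hx1' : ∀ k, O.valuation (x' k) ≤ 1 := fun k =>
    S.nondeg hpq (by rw [hp']; simp) (by rw [hq']; simp) k
  have hc' : ∀ k, O.valuation (c k) ≤ 1 := fun k => (S.hc k).le
  have hu : ∀ k, k ∈ (univ : Finset ι) ↔ O.valuation (x' k) ≤ 1 :=
    fun k => ⟨fun _ => hx1' k, fun _ => mem_univ k⟩
  have hinj : Function.Injective fun k => rs O (x' k) := by
    intro a b hab
    by_contra hne
    have h1 := S.hx' a b (Ne.symm hne)
    have h2 : O.valuation (x' a - x' b) < 1 := by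
      rw [← rs_eq_zero_iff (v_sub _ (hx1' a) (hx1' b)), rs_sub (hx1' a) (hx1' b)]
      exact sub_eq_zero.2 hab
    exact absurd h1 (not_le.2 h2)
  set c' : ι → ResidueField O := fun k => rs O (c k) with hc'def
  set X : ι → ResidueField O := fun k => rs O (x k) with hX
  set X' : ι → ResidueField O := fun k => rs O (x' k) with hX'
  have hT : ∀ a b, (X' a - X' b) * (force c' X' a - force c' X' b) =
      (X a - X b) * (force c' X a - force c' X b) := by
    intro a b
    by_cases hab : a = b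
    · subst hab; ring
    · have h1 := S.T_eq hab (v_sub _ (hx1' a) (hx1' b))
      rw [S.rs_T_x, rs_T hc' (mem_univ a) (mem_univ b) hu S.hx'] at h1
      exact h1
  have Xp : X p = 0 := by rw [hX]; simp only [hp, rs_zero]
  have Xq : X q = 1 := by rw [hX]; simp only [hq, rs_one]
  have Xp' : X' p = 0 := by rw [hX']; simp only [hp', rs_zero]
  have Xq' : X' q = 1 := by rw [hX']; simp only [hq', rs_one]
  rcases gram_rigid X (force c' X) X' (force c' X') hinj h01 h02 S.gen.det hT with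
    ⟨α, hα0, hα⟩ | ⟨α, hα0, hα⟩
  · have e1 := hα p
    have e2 := hα q
    have e3 := hα k
    rw [Xp, Xp'] at e1
    rw [Xq, Xq'] at e2
    have hα1 : α = 1 := by linear_combination e1 - e2
    rw [hα1] at e1 e3
    show X' k = X k
    linear_combination e3 - e1
  · exfalso
    have hFinj : Function.Injective (force c' X) := by
      intro a b hab
      apply hinj
      have e1 := (hα a).1
      have e2 := (hα b).1
      rw [hab] at e1
      show X' a = X' b
      linear_combination e1 - e2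
    apply S.gen.swap hFinj
    have e1 := (hα i₂).2
    have hd : ∀ a l, X' a - X' l = α * (force c' X a - force c' X l) := by
      intro a l
      linear_combination (hα a).1 - (hα l).1
    have hF : ∀ a, α * force c' X' a = ∑ l ∈ univ.erase a, c' l / (force c' X a - force c' X l) := by
      intro a
      have h1 : force c' X' a = ∑ l ∈ univ.erase a, c' l / (X' a - X' l) := by
        unfold force
        rw [← add_sum_erase _ _ (mem_univ a), sub_self, div_zero, zero_add]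
      rw [h1, mul_sum]
      refine sum_congr rfl fun l _ => ?_
      rw [hd a l, ← mul_div_assoc, mul_div_mul_left _ _ hα0]
    rw [← hF, ← hF]
    show α * force c' X' i₂ - α * force c' X' i₀ = X i₂ - X i₀
    rw [e1]; ring

end Pool.Agent.W522.Mult
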