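import Pool.Agent.W522.Mult.ValCore

/-!
# The core argument over a valued field: conclusion
-/

set_option autoImplicit false

namespace Pool.Agent.W522.Mult

open Finset IsLocalRing

variable {K : Type*} [Field K] {ι : Type*} [Fintype ι] [DecidableEq ι]
variable {O : ValuationSubring K} {c x x' : ι → K} {ε : K} {i₀ i₁ i₂ : ι}

/-- Two normalised configurations with the same multipliers agree. -/
theorem Setup.eq [IsAlgClosed K] (S : Setup O c x x' ε i₀ i₁ i₂) {p q : ι} (hpq : p ≠ q)
    (h01 : i₁ ≠ i₀) (h02 : i₂ ≠ i₀)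
    (hp : x p = 0) (hq : x q = 1) (hp' : x' p = 0) (hq' : x' q = 1) (k : ι) :
    x' k = x k := by
  classical
  by_contra hk
  obtain ⟨m, -, hm⟩ := exists_max_image univ (fun k => O.valuation (x' k - x k)) ⟨p, mem_univ p⟩
  have hx1' : ∀ k, O.valuation (x' k) ≤ 1 := fun k =>
    S.nondeg hpq (by rw [hp']; simp) (by rw [hq']; simp) k
  have hc' : ∀ k, O.valuation (c k) ≤ 1 := fun k => (S.hc k).le
  set t := x' m - x m with ht
  have ht0 : t ≠ 0 := by
    intro h0
    have h1 := hm k (mem_univ k)
    rw [h0, map_zero] at h1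
    have h2 : O.valuation (x' k - x k) = 0 := le_antisymm h1 zero_le
    exact hk (sub_eq_zero.1 ((map_eq_zero O.valuation).1 h2))
  have hvt : 0 < O.valuation t :=
    lt_of_le_of_ne zero_le ((O.valuation.ne_zero_iff).2 ht0).symm
  have ht1 : O.valuation t < 1 := by
    rw [ht, ← rs_eq_zero_iff (v_sub _ (hx1' m) (S.hx1 m)), rs_sub (hx1' m) (S.hx1 m),
      S.rs_eq hpq h01 h02 hp hq hp' hq' m, sub_self]
  set s : ι → K := fun a => (x' a - x a) / t with hs
  have hs1 : ∀ a, O.valuation (s a) ≤ 1 := by
    intro a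
    rw [hs]; simp only
    rw [map_div₀, div_le_one₀ hvt]
    exact hm a (mem_univ a)
  have hxs : ∀ a, x' a = x a + t * s a := by
    intro a; rw [hs]; simp only; field_simp; ring
  have near : ∀ a, Near O.valuation (O.valuation t) c x' x a := fun a =>
    ⟨hc', S.hx a, S.hx' a, fun k => hm k (mem_univ k)⟩
  set φ : ι → K := fun a => -∑ l ∈ univ.erase a, c l * (s a - s l) * ((x a - x l)⁻¹) ^ 2 with hφ
  set ψ : ι → K := fun a => ∑ l ∈ univ.erase a, c l * (s a - s l) ^ 2 * ((x a - x l)⁻¹) ^ 2 *
    (x' a - x' l)⁻¹ with hψ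
  have nz : ∀ t : K, 1 ≤ O.valuation t → t ≠ 0 := by
    rintro t ht rfl
    rw [map_zero] at ht; exact absurd ht (not_le.2 zero_lt_one)
  have hφ1 : ∀ a, O.valuation (φ a) ≤ 1 := by
    intro a
    rw [hφ]; simp only
    rw [Valuation.map_neg]
    exact O.valuation.map_sum_le fun l hl => v_mul _ (v_mul _ (hc' l) (v_sub _ (hs1 a) (hs1 l)))
      (v_pow _ (v_inv _ (S.hx a l (mem_erase.1 hl).1)) 2)
  have hψ1 : ∀ a, O.valuation (ψ a) ≤ 1 := by
    intro a
    exact O.valuation.map_sum_le fun l hl => v_mul _ (v_mul _ (v_mul _ (hc' l)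
      (v_pow _ (v_sub _ (hs1 a) (hs1 l)) 2)) (v_pow _ (v_inv _ (S.hx a l (mem_erase.1 hl).1)) 2))
      (v_inv _ (S.hx' a l (mem_erase.1 hl).1))
  have hF : ∀ a, force c x' a = force c x a + t * φ a + t ^ 2 * ψ a := by
    intro a
    rw [force_eq, force_eq, hφ, hψ]
    simp only
    rw [mul_neg, mul_sum, mul_sum, ← sub_eq_add_neg, ← sum_sub_distrib, ← sum_add_distrib]
    refine sum_congr rfl fun l hl => ?_
    have hl' := (mem_erase.1 hl).1
    have n1 := nz _ (S.hx a l hl')
    have n2 := nz _ (S.hx' a l hl')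
    have e1 : x' a - x' l = (x a - x l) + t * (s a - s l) := by rw [hxs a, hxs l]; ring
    rw [e1] at n2 ⊢
    field_simp
    ring
  have hdT : ∀ a b, (rs O (s a) - rs O (s b)) *
      (force (fun k => rs O (c k)) (fun k => rs O (x k)) a -
        force (fun k => rs O (c k)) (fun k => rs O (x k)) b) +
      (rs O (x a) - rs O (x b)) * (rs O (φ a) - rs O (φ b)) = 0 := by
    intro a b
    by_cases hab : a = b
    · subst hab; ring
    have hD : O.valuation (x a - x b) ≤ 1 := v_sub _ (S.hx1 a) (S.hx1 b)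
    have hD' : O.valuation (x' a - x' b) ≤ 1 := v_sub _ (hx1' a) (hx1' b)
    obtain ⟨u, w, u', w', hu, hw, hu', hw', e, e', hmm⟩ := S.matching hab hD'
    have hcl : Cl O.valuation (O.valuation t) (x' a - x' b) (x a - x b) :=
      ⟨hD', hD, (near a).diff b⟩
    have key := (near a).T_close (near b) S.h2 S.hε0 S.hε hu hu' hw hw' hcl e e' hmm
    set dT := (s a - s b) * (force c x a - force c x b) + (x a - x b) * (φ a - φ b) with hdT
    set ρ := (x a - x b) * (ψ a - ψ b) + (s a - s b) * (φ a - φ b) +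
      t * ((s a - s b) * (ψ a - ψ b)) with hρ
    have hρ1 : O.valuation ρ ≤ 1 :=
      v_add _ (v_add _ (v_mul _ hD (v_sub _ (hψ1 a) (hψ1 b)))
        (v_mul _ (v_sub _ (hs1 a) (hs1 b)) (v_sub _ (hφ1 a) (hφ1 b))))
        (v_mul _ ht1.le (v_mul _ (v_sub _ (hs1 a) (hs1 b)) (v_sub _ (hψ1 a) (hψ1 b))))
    have e1 : T c x' a b - T c x a b = t * (dT + t * ρ) := by
      unfold T
      rw [hF a, hF b, hdT, hρ]
      have : x' a - x' b = (x a - x b) + t * (s a - s b) := by rw [hxs a, hxs b]; ring
      rw [this]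
      ring
    rw [e1, map_mul, mul_comm (O.valuation ε)] at key
    have e2 : O.valuation (dT + t * ρ) ≤ O.valuation ε :=
      le_of_mul_le_mul_left key hvt
    have e3 : O.valuation dT < 1 := by
      have : dT = (dT + t * ρ) - t * ρ := by ring
      rw [this]
      refine O.valuation.map_sub_lt (e2.trans_lt S.hε) ?_
      rw [map_mul]
      exact lt_of_le_of_lt (mul_le_of_le_one_right' hρ1) ht1
    have e4 := rs_eq_zero e3
    have hfa := force_le O.valuation hc' (S.hx a)
    have hfb := force_le O.valuation hc' (S.hx b)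
    rw [hdT, rs_add (v_mul _ (v_sub _ (hs1 a) (hs1 b)) (v_sub _ hfa hfb))
      (v_mul _ hD (v_sub _ (hφ1 a) (hφ1 b))), rs_mul (v_sub _ (hs1 a) (hs1 b)) (v_sub _ hfa hfb),
      rs_mul hD (v_sub _ (hφ1 a) (hφ1 b)), rs_sub (hs1 a) (hs1 b), rs_sub hfa hfb,
      rs_sub (S.hx1 a) (S.hx1 b), rs_sub (hφ1 a) (hφ1 b),
      rs_force hc' (mem_univ a) (fun k => ⟨fun _ => S.hx1 k, fun _ => mem_univ k⟩) (S.hx a),
      rs_force hc' (mem_univ b) (fun k => ⟨fun _ => S.hx1 k, fun _ => mem_univ k⟩) (S.hx b)] at e4
    exact e4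
  obtain ⟨α, hα⟩ := inf_rigid (fun k => rs O (x k))
    (force (fun k => rs O (c k)) (fun k => rs O (x k))) (fun k => rs O (s k)) (fun k => rs O (φ k))
    (S.gen.inj.ne h01) (rs_two_ne S.h2) S.gen.det hdT
  have sp : s p = 0 := by rw [hs]; simp only; rw [hp, hp', sub_self, zero_div]
  have sq : s q = 0 := by rw [hs]; simp only; rw [hq, hq', sub_self, zero_div]
  have sm : s m = 1 := by rw [hs]; simp only; rw [← ht, div_self ht0]
  have e1 := hα p
  have e2 := hα q
  have e3 := hα m
  simp only [sp, sq, sm, hp, hq, rs_zero, rs_one] at e1 e2 e3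
  have hα0 : α = 0 := by linear_combination e1 - e2
  rw [hα0, zero_mul] at e1 e3
  have : (1 : ResidueField O) = 0 := by linear_combination e3 - e1
  exact one_ne_zero this

/-! ### Affine changes of coordinates -/

lemma force_affine (c x : ι → K) (α β : K) (a : ι) :
    force c (fun i => α * x i + β) a = α⁻¹ * force c x a := by
  unfold force
  rw [mul_sum]
  refine sum_congr rfl fun l _ => ?_
  have : α * x a + β - (α * x l + β) = α * (x a - x l) := by ring
  rw [this, div_eq_mul_inv, mul_inv, div_eq_mul_inv]; ring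

lemma T_affine (c x : ι → K) {α : K} (hα : α ≠ 0) (β : K) (a b : ι) :
    T c (fun i => α * x i + β) a b = T c x a b := by
  unfold T
  rw [force_affine, force_affine]
  field_simp
  ring

lemma Gen.affine {c x : ι → K} (h : Gen c x i₀ i₁ i₂) {α : K} (hα : α ≠ 0) (β : K) :
    Gen c (fun i => α * x i + β) i₀ i₁ i₂ where
  inj := fun a b hab => h.inj (mul_left_cancel₀ hα (add_right_cancel hab))
  c0 := h.c0
  tot := h.tot
  prod := h.prod
  sub := fun C h1 h2 => by
    simp only [T_affine c x hα β]
    exact h.sub C h1 h2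
  det := by
    rw [force_affine, force_affine, force_affine]
    intro h0
    apply h.det
    rw [← h0]
    field_simp
    ring
  swap := by
    intro hinj
    have hinj' : Function.Injective (force c x) := by
      intro a b hab
      apply hinj
      rw [force_affine, force_affine, hab]
    intro h0
    apply h.swap hinj'
    have e1 : ∀ i, ∑ l ∈ univ.erase i, c l / (force c (fun i => α * x i + β) i -
        force c (fun i => α * x i + β) l) =
        α * ∑ l ∈ univ.erase i, c l / (force c x i - force c x l) := by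
      intro i
      rw [mul_sum]
      refine sum_congr rfl fun l _ => ?_
      rw [force_affine, force_affine, ← mul_sub, div_eq_mul_inv, mul_inv, inv_inv,
        div_eq_mul_inv]
      ring
    rw [e1, e1] at h0
    have : α * (∑ l ∈ univ.erase i₂, c l / (force c x i₂ - force c x l) -
      ∑ l ∈ univ.erase i₀, c l / (force c x i₀ - force c x l)) = α * (x i₂ - x i₀) := by
      linear_combination h0
    exact mul_left_cancel₀ hα this

omit [DecidableEq ι] in
lemma isCycle_affine {w x : ι → K} {α : K} (hα : α ≠ 0) (β z y : K) (h : IsCycle w x z y) :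
    IsCycle w (fun i => α * x i + β) (α * z + β) (α * y + β) := by
  obtain ⟨h1, h2, h3, h4⟩ := h
  have e : ∀ z : K, ∑ i, w i / (α * z + β - (α * x i + β)) = α⁻¹ * ∑ i, w i / (z - x i) := by
    intro z
    rw [mul_sum]
    refine sum_congr rfl fun i _ => ?_
    have : α * z + β - (α * x i + β) = α * (z - x i) := by ring
    rw [this, div_eq_mul_inv, mul_inv, div_eq_mul_inv]; ring
  refine ⟨fun i hi => h1 i (mul_left_cancel₀ hα (add_right_cancel hi)),
    fun i hi => h2 i (mul_left_cancel₀ hα (add_right_cancel hi)), ?_, ?_⟩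
  · rw [e]
    have : α * z + β - (α * y + β) = α * (z - y) := by ring
    rw [this]
    field_simp
    linear_combination h3
  · rw [e]
    have : α * y + β - (α * z + β) = α * (y - z) := by ring
    rw [this]
    field_simp
    linear_combination h4

omit [DecidableEq ι] in
lemma mult_affine (w x : ι → K) {α : K} (hα : α ≠ 0) (β z y : K) :
    mult w (fun i => α * x i + β) (α * z + β) (α * y + β) = mult w x z y := by
  have e : ∀ z : K, ∑ i, w i / (α * z + β - (α * x i + β)) ^ 2 =
      (α ^ 2)⁻¹ * ∑ i, w i / (z - x i) ^ 2 := by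
    intro z
    rw [mul_sum]
    refine sum_congr rfl fun i _ => ?_
    have : α * z + β - (α * x i + β) = α * (z - x i) := by ring
    rw [this, mul_pow, div_eq_mul_inv, mul_inv, div_eq_mul_inv]; ring
  have e2 : ∀ z y : K, side w (fun i => α * x i + β) (α * z + β) (α * y + β) = side w x z y := by
    intro z y
    unfold side
    rw [e]
    have : α * z + β - (α * y + β) = α * (z - y) := by ring
    rw [this]
    field_simp
  unfold mult
  rw [e2, e2]

end Pool.Agent.W522.Mult
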