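import Pool.Agent.W522.Mult.ValCore2

/-!
# The core theorem over an algebraically closed valued field
-/

set_option autoImplicit false

namespace Pool.Agent.W522.Mult

open Finset IsLocalRing

variable {K : Type*} [Field K] {ι : Type*} [Fintype ι] [DecidableEq ι]

theorem val_core [IsAlgClosed K] (O : ValuationSubring K) {c x x' : ι → K} {ε : K} {i₀ i₁ i₂ : ι}
    (h01 : i₁ ≠ i₀) (h02 : i₂ ≠ i₀)
    (hchar : ∀ n : ℕ, n ≠ 0 → O.valuation (n : K) = 1) (hε0 : ε ≠ 0) (hε : O.valuation ε < 1)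
    (hc : ∀ k, O.valuation (c k) = 1) (hx1 : ∀ k, O.valuation (x k) ≤ 1)
    (gen : Gen (fun k => rs O (c k)) (fun k => rs O (x k)) i₀ i₁ i₂)
    (hinj : Function.Injective x')
    (H : ∀ z y, IsCycle (fun k => ε * c k) x' z y → ∃ z' y', IsCycle (fun k => ε * c k) x z' y' ∧
      mult (fun k => ε * c k) x z' y' = mult (fun k => ε * c k) x' z y) :
    ∃ α β : K, α ≠ 0 ∧ ∀ i, x' i = α * x i + β := by
  classical
  have hne : (univ.offDiag : Finset (ι × ι)).Nonempty :=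
    ⟨(i₁, i₀), by simp [h01]⟩
  obtain ⟨⟨p, q⟩, hpq', hmin⟩ := exists_min_image univ.offDiag
    (fun r : ι × ι => O.valuation (x' r.1 - x' r.2)) hne
  have hpq : p ≠ q := by simpa using hpq'
  have hmin' : ∀ a b, a ≠ b → O.valuation (x' p - x' q) ≤ O.valuation (x' a - x' b) :=
    fun a b hab => hmin (a, b) (by simp [hab])
  set δ' := x' q - x' p with hδ'
  have hδ'0 : δ' ≠ 0 := sub_ne_zero.2 fun h => hpq (hinj h).symm
  have hvδ' : 0 < O.valuation δ' :=
    lt_of_le_of_ne zero_le ((O.valuation.ne_zero_iff).2 hδ'0).symm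
  set δ := x q - x p with hδ
  have hvδ : O.valuation δ = 1 := by
    have h1 : O.valuation δ ≤ 1 := v_sub _ (hx1 q) (hx1 p)
    refine le_antisymm h1 (not_lt.1 fun h2 => hpq ?_)
    have h3 := rs_eq_zero h2
    rw [hδ, rs_sub (hx1 q) (hx1 p)] at h3
    exact (gen.inj (sub_eq_zero.1 h3)).symm
  have hδ0 : δ ≠ 0 := by
    intro h0; rw [h0, map_zero] at hvδ; exact zero_ne_one hvδ
  have hvδi : O.valuation δ⁻¹ = 1 := by rw [map_inv₀, hvδ, inv_one]
  set X : ι → K := fun i => δ⁻¹ * x i + (-(δ⁻¹ * x p)) with hX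
  set X' : ι → K := fun i => δ'⁻¹ * x' i + (-(δ'⁻¹ * x' p)) with hX'
  have hx'X' : x' = fun i => δ' * X' i + x' p := by
    funext i; rw [hX']; simp only; field_simp; ring
  have hX1 : ∀ k, O.valuation (X k) ≤ 1 := by
    intro k
    refine v_add _ (v_mul _ hvδi.le (hx1 k)) ?_
    rw [Valuation.map_neg]; exact v_mul _ hvδi.le (hx1 p)
  have hgen : Gen (fun k => rs O (c k)) (fun k => rs O (X k)) i₀ i₁ i₂ := by
    have h1 : (fun k => rs O (X k)) =
        fun k => (rs O δ)⁻¹ * rs O (x k) + (-((rs O δ)⁻¹ * rs O (x p))) := by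
      funext k
      rw [hX]; simp only
      rw [rs_add (v_mul _ hvδi.le (hx1 k)) (by rw [Valuation.map_neg]; exact v_mul _ hvδi.le (hx1 p)),
        rs_neg (v_mul _ hvδi.le (hx1 p)), rs_mul hvδi.le (hx1 k), rs_mul hvδi.le (hx1 p),
        rs_inv hvδ]
    rw [h1]
    exact gen.affine (inv_ne_zero (rs_ne_zero hvδ)) _
  have S : Setup O c X X' ε i₀ i₁ i₂ := by
    refine ⟨hchar, hε0, hε, hc, hX1, hgen, ?_, ?_⟩
    · intro a k hk
      have h1 : X' a - X' k = (x' a - x' k) / δ' := by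
        rw [hX']; simp only; field_simp; ring
      rw [h1, map_div₀, one_le_div₀ hvδ']
      have := hmin' a k (Ne.symm hk)
      rwa [O.valuation.map_sub_swap, ← hδ'] at this
    · intro z y h
      have h1 := isCycle_affine hδ'0 (x' p) z y h
      rw [← hx'X'] at h1
      obtain ⟨z', y', h2, h3⟩ := H _ _ h1
      refine ⟨_, _, isCycle_affine (inv_ne_zero hδ0) (-(δ⁻¹ * x p)) z' y' h2, ?_⟩
      rw [hX, mult_affine _ _ (inv_ne_zero hδ0), h3]
      have e3 := mult_affine (fun k => ε * c k) X' hδ'0 (x' p) z y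
      rw [← hx'X'] at e3
      exact e3
  have hXq : X q = 1 := by
    have h1 : X q = δ⁻¹ * δ := by rw [hX]; simp only; rw [hδ]; ring
    rw [h1, inv_mul_cancel₀ hδ0]
  have hXq' : X' q = 1 := by
    have h1 : X' q = δ'⁻¹ * δ' := by rw [hX']; simp only; rw [hδ']; ring
    rw [h1, inv_mul_cancel₀ hδ'0]
  have key := S.eq hpq h01 h02 (by rw [hX]; simp) hXq (by rw [hX']; simp) hXq'
  refine ⟨δ' * δ⁻¹, δ' * (-(δ⁻¹ * x p)) + x' p, mul_ne_zero hδ'0 (inv_ne_zero hδ0), fun i => ?_⟩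
  conv_lhs => rw [hx'X']
  simp only
  rw [key i, hX]
  ring

end Pool.Agent.W522.Mult
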